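import Pool.Agent.H.MP_594704_gt.G

set_option autoImplicit false

namespace Pool.Agent.H.MP_deb346_gt

open Set Filter Topology Pool.Agent.H.MP_594704_gt

abbrev V := ℝ × ℝ

def dot (l u : V) : ℝ := l.1 * u.1 + l.2 * u.2

structure QM (M : Set V) (d : V → V → ℝ) : Prop where
  op : IsOpen M
  cv : Convex ℝ M
  refl : ∀ x ∈ M, d x x = 0
  symm : ∀ x ∈ M, ∀ y ∈ M, d x y = d y x
  sep : ∀ x ∈ M, ∀ y ∈ M, d x y = 0 → x = y
  tri : ∀ x ∈ M, ∀ y ∈ M, ∀ z ∈ M, d x z ≤ d x y + d y z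
  cont : ContinuousOn (fun p : V × V => d p.1 p.2) (M ×ˢ M)
  seg : ∀ x ∈ M, ∀ z ∈ M, ∀ y ∈ segment ℝ x z, d x y + d y z = d x z

variable {M : Set V} {d : V → V → ℝ}

theorem QM.nonneg (h : QM M d) {x y : V} (hx : x ∈ M) (hy : y ∈ M) : 0 ≤ d x y := by
  have h1 := h.tri x hx y hy x hx
  rw [h.refl x hx, h.symm y hy x hx] at h1
  linarith

theorem QM.pos (h : QM M d) {x y : V} (hx : x ∈ M) (hy : y ∈ M) (hxy : x ≠ y) : 0 < d x y :=
  lt_of_le_of_ne (h.nonneg hx hy) fun e => hxy (h.sep x hx y hy e.symm)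

theorem QM.tendsto (h : QM M d) {ι : Type*} {l : Filter ι} {f g : ι → V} {x y : V} (hx : x ∈ M)
    (hy : y ∈ M) (hf : Tendsto f l (𝓝 x)) (hg : Tendsto g l (𝓝 y)) :
    Tendsto (fun i => d (f i) (g i)) l (𝓝 (d x y)) := by
  have : ContinuousAt (fun p : V × V => d p.1 p.2) (x, y) :=
    h.cont.continuousAt ((h.op.prod h.op).mem_nhds ⟨hx, hy⟩)
  exact this.tendsto.comp (hf.prodMk_nhds hg)

theorem QM.ev (h : QM M d) {ι : Type*} {l : Filter ι} {f : ι → V} {x : V} (hx : x ∈ M)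
    (hf : Tendsto f l (𝓝 x)) : ∀ᶠ i in l, f i ∈ M := hf.eventually (h.op.mem_nhds hx)

theorem QM.mem_line (h : QM M d) {x v : V} {p q r : ℝ} (hp : x + p • v ∈ M) (hr : x + r • v ∈ M)
    (hpq : p ≤ q) (hqr : q ≤ r) : x + q • v ∈ M :=
  h.cv.segment_subset hp hr (seg_line x v hpq hqr)

theorem QM.add_line (h : QM M d) {x v : V} {p q r : ℝ} (hp : x + p • v ∈ M) (hr : x + r • v ∈ M)
    (hpq : p ≤ q) (hqr : q ≤ r) :
    d (x + p • v) (x + q • v) + d (x + q • v) (x + r • v) = d (x + p • v) (x + r • v) :=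
  h.seg _ hp _ hr _ (seg_line x v hpq hqr)

theorem QM.mem0 (h : QM M d) {x v : V} {q r : ℝ} (hx : x ∈ M) (hr : x + r • v ∈ M)
    (hq : 0 ≤ q) (hqr : q ≤ r) : x + q • v ∈ M :=
  h.mem_line (p := 0) (by simpa using hx) hr hq hqr

theorem QM.add0 (h : QM M d) {x v : V} {q r : ℝ} (hx : x ∈ M) (hr : x + r • v ∈ M)
    (hq : 0 ≤ q) (hqr : q ≤ r) :
    d x (x + q • v) + d (x + q • v) (x + r • v) = d x (x + r • v) := by
  simpa using h.add_line (p := 0) (by simpa using hx) hr hq hqr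

theorem QM.lt0 (h : QM M d) {x v : V} {q r : ℝ} (hx : x ∈ M) (hv : v ≠ 0) (hr : x + r • v ∈ M)
    (hq : 0 ≤ q) (hqr : q < r) : d x (x + q • v) < d x (x + r • v) := by
  have := h.add0 hx hr hq hqr.le
  have := h.pos (h.mem0 hx hr hq hqr.le) hr fun e =>
    hqr.ne (smul_left_injective ℝ hv (add_left_cancel e))
  linarith

theorem QM.arc_cont (h : QM M d) {x v y : V} {T : ℝ} (hx : x ∈ M) (hy : y ∈ M)
    (hm : x + T • v ∈ M) : ContinuousOn (fun s : ℝ => d y (x + s • v)) (Icc 0 T) := by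
  intro s hs
  have c : Continuous fun s : ℝ => x + s • v := by fun_prop
  exact (h.tendsto hy (h.mem0 hx hm hs.1 hs.2) tendsto_const_nhds (c.tendsto s)).mono_left
    nhdsWithin_le_nhds

def Gd (M : Set V) (d : V → V → ℝ) (x : V) (r : ℝ) : Prop :=
  x ∈ M ∧ 0 < r ∧ ∀ u, u ≠ 0 → ∃ t : ℝ, 0 < t ∧ x + t • u ∈ M ∧ d x (x + t • u) = r

noncomputable def tt (M : Set V) (d : V → V → ℝ) (x : V) (r : ℝ) (u : V) : ℝ :=
  Classical.epsilon fun t : ℝ => 0 < t ∧ x + t • u ∈ M ∧ d x (x + t • u) = r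

theorem Gd.spec {x u : V} {r : ℝ} (g : Gd M d x r) (hu : u ≠ 0) :
    0 < tt M d x r u ∧ x + tt M d x r u • u ∈ M ∧ d x (x + tt M d x r u • u) = r :=
  Classical.epsilon_spec (g.2.2 u hu)

theorem QM.le_tt (h : QM M d) {x u : V} {r t : ℝ} (g : Gd M d x r) (hu : u ≠ 0)
    (ht : x + t • u ∈ M) (hd : d x (x + t • u) ≤ r) : t ≤ tt M d x r u := by
  by_contra hn
  push Not at hn
  have := h.lt0 g.1 hu ht (g.spec hu).1.le hn
  linarith [(g.spec hu).2.2]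

theorem QM.tt_le (h : QM M d) {x u : V} {r t : ℝ} (g : Gd M d x r) (hu : u ≠ 0) (t0 : 0 ≤ t)
    (hd : r ≤ d x (x + t • u)) : tt M d x r u ≤ t := by
  by_contra hn
  push Not at hn
  have := h.lt0 g.1 hu (g.spec hu).2.1 t0 hn
  linarith [(g.spec hu).2.2]

theorem QM.tt_eq (h : QM M d) {x u : V} {r t : ℝ} (g : Gd M d x r) (hu : u ≠ 0) (t0 : 0 ≤ t)
    (ht : x + t • u ∈ M) (hd : d x (x + t • u) = r) : tt M d x r u = t :=
  le_antisymm (h.tt_le g hu t0 hd.ge) (h.le_tt g hu ht hd.le)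

theorem QM.d_le (h : QM M d) {x u : V} {r t : ℝ} (g : Gd M d x r) (hu : u ≠ 0) (t0 : 0 ≤ t)
    (ht : t ≤ tt M d x r u) : x + t • u ∈ M ∧ d x (x + t • u) ≤ r := by
  obtain ⟨-, b, c⟩ := g.spec hu
  have m := h.mem0 g.1 b t0 ht
  exact ⟨m, by linarith [h.add0 g.1 b t0 ht, h.nonneg m b]⟩

theorem QM.gd_mono (h : QM M d) {x : V} {r r' : ℝ} (g : Gd M d x r) (r0 : 0 < r') (hr : r' ≤ r) :
    Gd M d x r' := by
  refine ⟨g.1, r0, fun u hu => ?_⟩
  obtain ⟨a, b, c⟩ := g.spec hu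
  obtain ⟨t, ht, e⟩ := intermediate_value_Icc a.le (h.arc_cont g.1 g.1 b)
    (show r' ∈ _ from ⟨by simp [h.refl x g.1, r0.le], by simp only [c, hr]⟩)
  refine ⟨t, lt_of_le_of_ne ht.1 ?_, h.mem0 g.1 b ht.1 ht.2, e⟩
  rintro rfl
  simp [h.refl x g.1] at e
  linarith

theorem QM.region (h : QM M d) {y : V} (hy : y ∈ M) : ∃ ρ > 0, ∀ᶠ x in 𝓝 y, Gd M d x ρ := by
  obtain ⟨R, R0, hR⟩ := Metric.nhds_basis_closedBall.mem_iff.1 (h.op.mem_nhds hy)
  have m1 : ∀ x ∈ Metric.closedBall y (R / 2), x ∈ M := fun x hx =>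
    hR (Metric.closedBall_subset_closedBall (by linarith) hx)
  have m2 : ∀ x ∈ Metric.closedBall y (R / 2), ∀ w ∈ Metric.sphere (0:V) (R / 2), x + w ∈ M :=
    fun x hx w hw => hR (by
      rw [mem_closedBall_iff_norm] at hx ⊢
      rw [mem_sphere_zero_iff_norm] at hw
      rw [add_sub_right_comm]
      linarith [norm_add_le (x - y) w])
  obtain ⟨ρ, r0, hρ⟩ := ((isCompact_closedBall y (R / 2)).prod
    (isCompact_sphere (0:V) (R / 2))).exists_forall_le' (f := fun p => d p.1 (p.1 + p.2)) (a := 0)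
    (h.cont.comp (f := fun p : V × V => (p.1, p.1 + p.2)) (by fun_prop)
      fun p hp => ⟨m1 _ hp.1, m2 _ hp.1 _ hp.2⟩) fun p hp =>
    h.pos (m1 _ hp.1) (m2 _ hp.1 _ hp.2) fun e => by
      have := hp.2
      rw [left_eq_add.1 e] at this
      simp at this; linarith
  refine ⟨ρ, r0, ?_⟩
  filter_upwards [Metric.closedBall_mem_nhds y (half_pos R0)] with x hx
  refine ⟨m1 x hx, r0, fun u hu => ?_⟩
  have n := norm_pos_iff.2 hu
  have s : (R / 2 / ‖u‖) • u ∈ Metric.sphere (0:V) (R / 2) := by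
    rw [mem_sphere_zero_iff_norm, norm_smul, Real.norm_eq_abs, abs_of_pos (by positivity)]
    field_simp
  obtain ⟨t, ht, e⟩ := intermediate_value_Icc (show 0 ≤ R / 2 / ‖u‖ by positivity)
    (h.arc_cont (m1 x hx) (m1 x hx) (m2 x hx _ s))
    (show ρ ∈ _ from ⟨by simp [h.refl x (m1 x hx), r0.le], hρ (x, _) ⟨hx, s⟩⟩)
  refine ⟨t, lt_of_le_of_ne ht.1 ?_, h.mem0 (m1 x hx) (m2 x hx _ s) ht.1 ht.2, e⟩
  rintro rfl
  simp [h.refl x (m1 x hx)] at e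
  linarith

section
variable {ι : Type*} {l : Filter ι} {x u : ι → V} {r : ι → ℝ} {x0 u0 : V} {r0 : ℝ}

theorem QM.tt_ub (h : QM M d) (hx0 : x0 ∈ M) (hu0 : u0 ≠ 0) (hx : Tendsto x l (𝓝 x0))
    (hr : Tendsto r l (𝓝 r0)) (hu : Tendsto u l (𝓝 u0)) (g : ∀ᶠ i in l, Gd M d (x i) (r i))
    {t : ℝ} (t0 : 0 ≤ t) (m : x0 + t • u0 ∈ M) (hd : d x0 (x0 + t • u0) = r0) {a : ℝ} (ha : t < a) :
    ∀ᶠ i in l, tt M d (x i) (r i) (u i) < a := by
  have c : Tendsto (fun s : ℝ => x0 + s • u0) (𝓝[>] t) (𝓝 (x0 + t • u0)) :=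
    (Continuous.tendsto (by fun_prop) t).mono_left nhdsWithin_le_nhds
  obtain ⟨s, m2, hs⟩ := ((h.ev m c).and (Ioo_mem_nhdsGT ha)).exists
  have := h.lt0 hx0 hu0 m2 t0 hs.1
  filter_upwards [g, hu.eventually_ne hu0, hr.eventually_lt
    (h.tendsto hx0 m2 hx (hx.add (hu.const_smul s))) (hd ▸ this)] with i a1 a2 a3
  exact (h.tt_le a1 a2 (t0.trans hs.1.le) a3.le).trans_lt hs.2

theorem QM.tt_tendsto (h : QM M d) (g0 : Gd M d x0 r0) (hu0 : u0 ≠ 0) (hx : Tendsto x l (𝓝 x0))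
    (hr : Tendsto r l (𝓝 r0)) (hu : Tendsto u l (𝓝 u0)) (g : ∀ᶠ i in l, Gd M d (x i) (r i)) :
    Tendsto (fun i => tt M d (x i) (r i) (u i)) l (𝓝 (tt M d x0 r0 u0)) := by
  obtain ⟨a, b, c⟩ := g0.spec hu0
  refine tendsto_order.2 ⟨fun s hs => ?_, fun s hs => h.tt_ub g0.1 hu0 hx hr hu g a.le b c hs⟩
  obtain ⟨s', h1, h2⟩ := exists_between (max_lt hs a)
  have s0 : 0 ≤ s' := ((le_max_right _ _).trans_lt h1).le
  have m := h.mem0 g0.1 b s0 h2.le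
  have := h.lt0 g0.1 hu0 b s0 h2
  filter_upwards [g, hu.eventually_ne hu0, h.ev m (hx.add (hu.const_smul s')),
    (h.tendsto g0.1 m hx (hx.add (hu.const_smul s'))).eventually_lt hr (c ▸ this)] with i a1 a2 a3 a4
  exact ((le_max_left _ _).trans_lt h1).trans_le (h.le_tt a1 a2 a3 a4.le)

theorem QM.tt_zero (h : QM M d) (hx0 : x0 ∈ M) (hu0 : u0 ≠ 0) (hx : Tendsto x l (𝓝 x0))
    (hr : Tendsto r l (𝓝 0)) (hu : Tendsto u l (𝓝 u0)) (g : ∀ᶠ i in l, Gd M d (x i) (r i)) :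
    Tendsto (fun i => tt M d (x i) (r i) (u i)) l (𝓝 0) := by
  refine tendsto_order.2 ⟨fun s hs => ?_, fun s hs => h.tt_ub hx0 hu0 hx hr hu g le_rfl
    (by simpa using hx0) (by simp [h.refl x0 hx0]) hs⟩
  filter_upwards [g, hu.eventually_ne hu0] with i a1 a2 using hs.trans (a1.spec a2).1

end

def lam (σ : V → ℝ) : V := (σ (1, 0) - σ (-(1, 0)), σ (0, 1) - σ (-(0, 1)))

noncomputable def bet (σ : V → ℝ) : ℝ × ℝ × ℝ := (σ (1, 0) * σ (-(1, 0)),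
  (σ (1, 1) * σ (-(1, 1)) - σ (1, 0) * σ (-(1, 0)) - σ (0, 1) * σ (-(0, 1))) / 2,
  σ (0, 1) * σ (-(0, 1)))

def Cn (σ : V → ℝ) : Prop :=
  ∀ u, u ≠ 0 → σ u - σ (-u) = dot (lam σ) u ∧ σ u * σ (-u) = bf (bet σ) u u

theorem e10 : ((1, 0) : V) ≠ 0 := by simp
theorem e01 : ((0, 1) : V) ≠ 0 := by simp
theorem e11 : ((1, 1) : V) ≠ 0 := by simp

theorem cn_of {σ : V → ℝ} {l : V} {q : ℝ × ℝ × ℝ}
    (h : ∀ u, u ≠ 0 → σ u - σ (-u) = dot l u ∧ σ u * σ (-u) = bf q u u) : Cn σ := by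
  intro u hu
  simp only [lam, bet, h u hu, h _ e10, h _ e01, h _ e11, dot, bf]
  constructor <;> ring

theorem conic_cn {τ : V → ℝ} (p : ∀ u, u ≠ 0 → 0 < τ u) {c : ℝ} {l : V} {q : ℝ × ℝ × ℝ} (x : V)
    (hn : ¬ (c = 0 ∧ l = 0 ∧ q = 0)) (h : ∀ u, u ≠ 0 →
      c + dot l (x + τ u • u) + bf q (x + τ u • u) (x + τ u • u) = 0) : Cn fun u => (τ u)⁻¹ := by
  set c' := c + dot l x + bf q x x with hc
  set l' : V := (l.1 + 2 * (q.1 * x.1 + q.2.1 * x.2), l.2 + 2 * (q.2.1 * x.1 + q.2.2 * x.2)) with hl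
  have k : ∀ u, u ≠ 0 → c' + τ u * dot l' u + τ u ^ 2 * bf q u u = 0 ∧
      c' - τ (-u) * dot l' u + τ (-u) ^ 2 * bf q u u = 0 := fun u hu => by
    have a := h u hu
    have b := h (-u) (neg_ne_zero.2 hu)
    simp only [c', l', dot, bf, Prod.fst_add, Prod.snd_add, Prod.smul_fst, Prod.smul_snd,
      smul_eq_mul, Prod.fst_neg, Prod.snd_neg] at a b ⊢
    constructor <;> linarith
  have c0 : c' ≠ 0 := fun e => by
    have z : ∀ u, u ≠ 0 → bf q u u = 0 ∧ dot l' u = 0 := fun u hu => by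
      obtain ⟨a, b⟩ := k u hu
      have p1 := p u hu
      have p2 := p (-u) (neg_ne_zero.2 hu)
      have a' : dot l' u + τ u * bf q u u = 0 :=
        mul_left_cancel₀ p1.ne' (by linear_combination a - e)
      have b' : -dot l' u + τ (-u) * bf q u u = 0 :=
        mul_left_cancel₀ p2.ne' (by linear_combination b - e)
      have : bf q u u = 0 := mul_left_cancel₀ (add_pos p1 p2).ne' (by linear_combination a' + b')
      exact ⟨this, by rw [this] at a'; linarith⟩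
    have z1 := z _ e10
    have z2 := z _ e01
    have z3 := z _ e11
    simp only [bf, dot, l'] at z1 z2 z3
    have q1 : q.1 = 0 := by linarith [z1.1]
    have q3 : q.2.2 = 0 := by linarith [z2.1]
    have q2 : q.2.1 = 0 := by linarith [z3.1]
    simp only [q1, q2, q3] at z1 z2
    have l1 : l.1 = 0 := by linarith [z1.2]
    have l2 : l.2 = 0 := by linarith [z2.2]
    exact hn ⟨by simpa [c', dot, bf, q1, q2, q3, l1, l2] using e, Prod.ext l1 l2,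
      Prod.ext q1 (Prod.ext q2 q3)⟩
  refine cn_of (l := (-c'⁻¹) • l') (q := (-c'⁻¹) • q) fun u hu => ?_
  obtain ⟨a, b⟩ := k u hu
  have p1 := p u hu
  have p2 := p (-u) (neg_ne_zero.2 hu)
  have e1 : dot ((-c'⁻¹) • l') u = -c'⁻¹ * dot l' u := by
    simp only [dot, Prod.smul_fst, Prod.smul_snd, smul_eq_mul]; ring
  have e2 : bf ((-c'⁻¹) • q) u u = -c'⁻¹ * bf q u u := by
    simp only [bf, Prod.smul_fst, Prod.smul_snd, smul_eq_mul]; ring
  rw [e1, e2]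
  have s := (add_pos p1 p2).ne'
  constructor
  · field_simp
    exact mul_left_cancel₀ s (by linear_combination τ (-u) ^ 2 * a - τ u ^ 2 * b)
  · field_simp
    exact mul_left_cancel₀ s (by linear_combination τ (-u) * a + τ u * b)

theorem lam_tendsto {ι : Type*} {l : Filter ι} {σ : ι → V → ℝ} {σ0 : V → ℝ}
    (h : ∀ u, u ≠ 0 → Tendsto (fun i => σ i u) l (𝓝 (σ0 u))) :
    Tendsto (fun i => lam (σ i)) l (𝓝 (lam σ0)) ∧ Tendsto (fun i => bet (σ i)) l (𝓝 (bet σ0)) := by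
  have a := h _ e10
  have b := h _ e01
  have c := h _ e11
  have a' := h _ (neg_ne_zero.2 e10)
  have b' := h _ (neg_ne_zero.2 e01)
  have c' := h _ (neg_ne_zero.2 e11)
  exact ⟨(a.sub a').prodMk_nhds (b.sub b'), (a.mul a').prodMk_nhds
    (((((c.mul c').sub (a.mul a')).sub (b.mul b')).div_const 2).prodMk_nhds (b.mul b'))⟩

theorem dot_tendsto {ι : Type*} {l : Filter ι} {a b : ι → V} {a0 b0 : V} (ha : Tendsto a l (𝓝 a0))
    (hb : Tendsto b l (𝓝 b0)) : Tendsto (fun i => dot (a i) (b i)) l (𝓝 (dot a0 b0)) :=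
  (Continuous.tendsto (f := fun p : V × V => dot p.1 p.2) (by unfold dot; fun_prop)
    (a0, b0)).comp (ha.prodMk_nhds hb)

theorem bf_tendsto {ι : Type*} {l : Filter ι} {q : ι → ℝ × ℝ × ℝ} {a b : ι → V} {a0 b0 : V}
    {q0 : ℝ × ℝ × ℝ} (hq : Tendsto q l (𝓝 q0)) (ha : Tendsto a l (𝓝 a0))
    (hb : Tendsto b l (𝓝 b0)) : Tendsto (fun i => bf (q i) (a i) (b i)) l (𝓝 (bf q0 a0 b0)) :=
  (Continuous.tendsto (f := fun p : (ℝ × ℝ × ℝ) × V × V => bf p.1 p.2.1 p.2.2)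
    (by unfold bf; fun_prop) (q0, a0, b0)).comp (hq.prodMk_nhds (ha.prodMk_nhds hb))

theorem cn_lim {ι : Type*} {l : Filter ι} [l.NeBot] {σ : ι → V → ℝ} {σ0 : V → ℝ}
    (h : ∀ u, u ≠ 0 → Tendsto (fun i => σ i u) l (𝓝 (σ0 u))) (c : ∀ᶠ i in l, Cn (σ i)) :
    Cn σ0 := fun u hu =>
  ⟨tendsto_nhds_unique_of_eventuallyEq ((h u hu).sub (h _ (neg_ne_zero.2 hu)))
    (dot_tendsto (lam_tendsto h).1 tendsto_const_nhds) (c.mono fun _ a => (a u hu).1),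
   tendsto_nhds_unique_of_eventuallyEq ((h u hu).mul (h _ (neg_ne_zero.2 hu)))
    (bf_tendsto (lam_tendsto h).2 tendsto_const_nhds tendsto_const_nhds)
    (c.mono fun _ a => (a u hu).2)⟩

structure QC (M : Set V) (d : V → V → ℝ) (a0 : ℝ) : Prop extends QM M d where
  ap : 0 < a0
  con : ∀ x ∈ M, ∀ x' ∈ M, x ≠ x' → ∀ a < a0, d x x' < 2 * a → ∃ (c : ℝ) (l : V) (q : ℝ × ℝ × ℝ),
    ¬ (c = 0 ∧ l = 0 ∧ q = 0) ∧ ∀ y ∈ M, d x y + d y x' = 2 * a → c + dot l y + bf q y y = 0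

noncomputable def ss (M : Set V) (d : V → V → ℝ) (x : V) (r : ℝ) (u : V) : ℝ := (tt M d x r u)⁻¹

theorem QC.cn {a0 : ℝ} (h : QC M d a0) {x : V} {r ρ : ℝ} (g : Gd M d x ρ) (r0 : 0 < r) (hr : r < ρ)
    (ha : r < a0) : Cn (ss M d x r) := by
  have hx := g.1
  have T := t_sm x ((1, 0) : V)
  have Td := h.tendsto hx hx tendsto_const_nhds T
  rw [h.refl x hx] at Td
  set δ := fun η : ℝ => d x (x + η • ((1, 0) : V))
  have ev : ∀ᶠ η in 𝓝[>] (0:ℝ), Gd M d x (r - δ η) ∧ Gd M d x (r + δ η) := by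
    filter_upwards [Td.eventually (gt_mem_nhds r0), Td.eventually (gt_mem_nhds (sub_pos.2 hr)),
      h.ev hx T] with η a b m
    have := h.nonneg hx m
    exact ⟨h.gd_mono g (by linarith) (by linarith), h.gd_mono g (by linarith) (by linarith)⟩
  have : ∀ᶠ η in 𝓝[>] (0:ℝ), ∃ τ : V → ℝ, (∀ u, u ≠ 0 → tt M d x (r - δ η) u ≤ τ u ∧
      τ u ≤ tt M d x (r + δ η) u) ∧ Cn fun u => (τ u)⁻¹ := by
    filter_upwards [ev, h.ev hx T, self_mem_nhdsWithin] with η ⟨g1, g2⟩ m e0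
    have e0 : 0 < η := e0
    have dp : 0 < δ η := h.pos hx m (by simp [e0.ne'])
    obtain ⟨c, l, q, hn, hq⟩ := h.con x hx _ m (by simp [e0.ne']) r ha (by linarith [g1.2.1])
    have : ∀ u : V, ∃ τ, u ≠ 0 → (tt M d x (r - δ η) u ≤ τ ∧ τ ≤ tt M d x (r + δ η) u) ∧
        d x (x + τ • u) + d (x + η • (1, 0)) (x + τ • u) = 2 * r := by
      intro u
      by_cases hu : u = 0
      · exact ⟨0, fun a => absurd hu a⟩
      obtain ⟨a1, a2, a3⟩ := g1.spec hu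
      obtain ⟨b1, b2, b3⟩ := g2.spec hu
      have le := h.le_tt g2 hu a2 (by linarith)
      obtain ⟨τ, h1, h2⟩ := intermediate_value_Icc le
        (((h.arc_cont hx hx b2).add (h.arc_cont hx m b2)).mono (Icc_subset_Icc_left a1.le))
        (show 2 * r ∈ _ from ⟨by
          have := h.tri _ m _ hx _ a2
          rw [h.symm _ m _ hx] at this
          simp only [Pi.add_apply]; linarith, by
          have := h.tri _ hx _ m _ b2
          simp only [Pi.add_apply]; linarith⟩)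
      exact ⟨τ, fun _ => ⟨h1, h2⟩⟩
    choose τ hτ using this
    have p : ∀ u, u ≠ 0 → 0 < τ u := fun u hu => (g1.spec hu).1.trans_le (hτ u hu).1.1
    refine ⟨τ, fun u hu => (hτ u hu).1, conic_cn p x hn fun u hu => ?_⟩
    have mu := h.mem0 hx (g2.spec hu).2.1 (p u hu).le (hτ u hu).1.2
    exact hq _ mu (by rw [h.symm _ mu _ m]; exact (hτ u hu).2)
  obtain ⟨τ, hτ⟩ := this.choice
  have g0 := h.gd_mono g r0 hr.le
  refine cn_lim (l := 𝓝[>] 0) (σ := fun η u => (τ η u)⁻¹) (fun u hu => ?_) (hτ.mono fun _ a => a.2)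
  refine Tendsto.inv₀ ?_ (g0.spec hu).1.ne'
  exact tendsto_of_tendsto_of_tendsto_of_le_of_le'
    (h.tt_tendsto g0 hu tendsto_const_nhds (by simpa using Td.const_sub r) tendsto_const_nhds
      (ev.mono fun _ a => a.1))
    (h.tt_tendsto g0 hu tendsto_const_nhds (by simpa using Td.const_add r) tendsto_const_nhds
      (ev.mono fun _ a => a.2)) (hτ.mono fun _ a => (a.1 u hu).1) (hτ.mono fun _ a => (a.1 u hu).2)

end Pool.Agent.H.MP_deb346_gt
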