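import Pool.Agent.H.MP_deb346_gt.A

set_option autoImplicit false

namespace Pool.Agent.H.MP_deb346_gt

open Set Filter Topology Pool.Agent.H.MP_594704_gt

variable {M : Set V} {d : V → V → ℝ} {a0 : ℝ}

noncomputable def QQ (σ : V → ℝ) (w : V) : ℝ := -1 + dot (lam σ) w + bf (bet σ) w w

noncomputable def gv (σ : V → ℝ) (u : V) : V :=
  ((lam σ).1 + 2 * ((bet σ).1 * u.1 + (bet σ).2.1 * u.2),
    (lam σ).2 + 2 * ((bet σ).2.1 * u.1 + (bet σ).2.2 * u.2))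

theorem gv_dot (σ : V → ℝ) (u v : V) : dot (gv σ u) v = dot (lam σ) v + 2 * bf (bet σ) u v := by
  simp only [gv, dot, bf]; ring

theorem QQ_add (σ : V → ℝ) (u w : V) (t : ℝ) :
    QQ σ (u + t • w) = QQ σ u + t * dot (gv σ u) w + t ^ 2 * bf (bet σ) w w := by
  simp only [QQ, gv, dot, bf, Prod.fst_add, Prod.snd_add, Prod.smul_fst, Prod.smul_snd, smul_eq_mul]
  ring

theorem dot_smul (l u : V) (t : ℝ) : dot l (t • u) = t * dot l u := by
  simp only [dot, Prod.smul_fst, Prod.smul_snd, smul_eq_mul]; ring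

theorem Cn.QQ_eq {σ : V → ℝ} (c : Cn σ) {u : V} (hu : u ≠ 0) (t : ℝ) :
    QQ σ (t • u) = (t * σ u - 1) * (t * σ (-u) + 1) := by
  rw [QQ, dot_smul, bf_smul, ← (c u hu).1, ← (c u hu).2]; ring

theorem Cn.formula {σ : V → ℝ} (c : Cn σ) (n : ∀ u, u ≠ 0 → 0 ≤ σ u) {u : V} (hu : u ≠ 0) :
    σ u = (dot (lam σ) u + √(dot (lam σ) u ^ 2 + 4 * bf (bet σ) u u)) / 2 := by
  rw [← (c u hu).1, ← (c u hu).2, show (σ u - σ (-u)) ^ 2 + 4 * (σ u * σ (-u)) =
    (σ u + σ (-u)) ^ 2 by ring, Real.sqrt_sq (add_nonneg (n u hu) (n _ (neg_ne_zero.2 hu)))]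
  ring

theorem Cn.hom {σ : V → ℝ} (c : Cn σ) (n : ∀ u, u ≠ 0 → 0 ≤ σ u) {u : V} (hu : u ≠ 0) {t : ℝ}
    (ht : 0 < t) : σ (t • u) = t * σ u := by
  rw [c.formula n hu, c.formula n (smul_ne_zero ht.ne' hu), dot_smul, bf_smul,
    show (t * dot (lam σ) u) ^ 2 + 4 * (t ^ 2 * bf (bet σ) u u) =
      t ^ 2 * (dot (lam σ) u ^ 2 + 4 * bf (bet σ) u u) by ring, Real.sqrt_mul (sq_nonneg t),
    Real.sqrt_sq ht.le]
  ring

theorem Cn.smul {σ : V → ℝ} (c : Cn σ) (m : ℝ) : Cn fun u => m * σ u :=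
  cn_of (l := m • lam σ) (q := m ^ 2 • bet σ) fun u hu => by
    obtain ⟨a, b⟩ := c u hu
    simp only [dot, bf, Prod.smul_fst, Prod.smul_snd, smul_eq_mul] at a b ⊢
    exact ⟨by linear_combination m * a, by linear_combination m ^ 2 * b⟩

def S4 (σ : V → ℝ) : ℝ := σ (1, 0) + σ (-(1, 0)) + (σ (0, 1) + σ (-(0, 1)))

theorem Cn.bd {σ : V → ℝ} (c : Cn σ) (n : ∀ u, u ≠ 0 → 0 ≤ σ u) {u : V} (hu : u ≠ 0) :
    σ u ≤ 2 * ‖u‖ * S4 σ := by
  have k : ∀ w, w ≠ 0 → (σ w + σ (-w)) ^ 2 = dot (lam σ) w ^ 2 + 4 * bf (bet σ) w w :=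
    fun w hw => by rw [← (c w hw).1, ← (c w hw).2]; ring
  have k1 := k u hu
  have k2 := k (u.1, -u.2) (fun e => hu (by simpa [Prod.ext_iff] using e))
  have k3 := k _ e10
  have k4 := k _ e01
  have n1 := add_nonneg (n _ e10) (n _ (neg_ne_zero.2 e10))
  have n2 := add_nonneg (n _ e01) (n _ (neg_ne_zero.2 e01))
  unfold S4
  set A := σ (1, 0) + σ (-(1, 0))
  set B := σ (0, 1) + σ (-(0, 1))
  have e : (σ u + σ (-u)) ^ 2 ≤ 2 * (u.1 ^ 2 * A ^ 2 + u.2 ^ 2 * B ^ 2) := by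
    rw [k1, k3, k4]
    have := sq_nonneg (σ (u.1, -u.2) + σ (-(u.1, -u.2)))
    rw [k2] at this
    simp only [dot, bf] at this ⊢
    linarith
  have u1 : u.1 ^ 2 ≤ ‖u‖ ^ 2 := by rw [← sq_abs]; gcongr; exact norm_fst_le u
  have u2 : u.2 ^ 2 ≤ ‖u‖ ^ 2 := by rw [← sq_abs]; gcongr; exact norm_snd_le u
  have : (σ u + σ (-u)) ^ 2 ≤ (2 * ‖u‖ * (A + B)) ^ 2 := by
    have := mul_le_mul_of_nonneg_right u1 (sq_nonneg A)
    have := mul_le_mul_of_nonneg_right u2 (sq_nonneg B)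
    have := mul_nonneg (sq_nonneg ‖u‖) (mul_nonneg n1 n2)
    have := mul_nonneg (sq_nonneg ‖u‖) (sq_nonneg A)
    have := mul_nonneg (sq_nonneg ‖u‖) (sq_nonneg B)
    nlinarith
  linarith [le_of_sq_le_sq this (by positivity),
    n _ (neg_ne_zero.2 hu)]

theorem small (u : V) {δ : ℝ} (d0 : 0 < δ) : ∃ t : ℝ, 0 < t ∧ ‖t • u‖ < δ := by
  have : ∀ᶠ t in 𝓝[>] (0:ℝ), ‖t • u‖ < δ :=
    (ContinuousAt.eventually_lt (f := fun t : ℝ => ‖t • u‖) (g := fun _ => δ) (by fun_prop)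
      continuousAt_const (by simpa using d0)).filter_mono nhdsWithin_le_nhds
  obtain ⟨t, a, b⟩ := (this.and self_mem_nhdsWithin).exists
  exact ⟨t, b, a⟩

theorem sq_pos' {u : V} (hu : u ≠ 0) : 0 < u.1 ^ 2 + u.2 ^ 2 := by
  by_contra hn
  apply hu
  ext <;> simp <;> nlinarith [sq_nonneg u.1, sq_nonneg u.2]

theorem shape0 {σ : V → ℝ} (c : Cn σ) (n : ∀ u, u ≠ 0 → 0 ≤ σ u) (s1 : S4 σ = 1) {g : V → V} {δ : ℝ}
    (d0 : 0 < δ) (ct : ∀ u, u ≠ 0 → ‖u‖ < δ → ∀ᶠ v in 𝓝 u, 0 < dot (g v) u)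
    (ia : ∀ u, u ≠ 0 → ‖u‖ < δ → ∀ v, v ≠ 0 → σ u * dot (g u) v ≤ σ v * dot (g u) u)
    (ib : ∀ u, u ≠ 0 → ‖u‖ < δ → ∀ v, v ≠ 0 → σ (-u) * -dot (g u) v ≤ σ v * dot (g u) u) :
    lam σ = 0 ∧ (∀ u, u ≠ 0 → 0 < σ u) ∧ ∀ u, u ≠ 0 → ‖u‖ < δ → ∀ v,
      bf (bet σ) u v * dot (g u) u = bf (bet σ) u u * dot (g u) v := by
  have Z : ∀ u, u ≠ 0 → ‖u‖ < δ → σ u = 0 → ∀ᶠ v in 𝓝 u, v ≠ 0 ∧ σ v = 0 := fun u hu h1 h2 => by
    filter_upwards [ct u hu h1, isOpen_ne.mem_nhds hu,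
      continuous_norm.continuousAt.eventually (gt_mem_nhds h1)] with v a b e
    have := ia v b e u hu
    rw [h2, zero_mul] at this
    exact ⟨b, le_antisymm (by nlinarith [n v b]) (n v b)⟩
  have ker : lam σ ≠ 0 → ∃ t : ℝ, 0 < t ∧ ‖t • ((-(lam σ).2, (lam σ).1) : V)‖ < δ ∧
      t • ((-(lam σ).2, (lam σ).1) : V) ≠ 0 := fun hl => by
    obtain ⟨t, a, b⟩ := small (-(lam σ).2, (lam σ).1) d0
    exact ⟨t, a, b, smul_ne_zero a.ne' fun e => hl (by
      simp only [Prod.mk_eq_zero, neg_eq_zero] at e; exact Prod.ext e.2 e.1)⟩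
  have P : ∀ u, u ≠ 0 → 0 < σ u := fun u hu => by
    refine (n u hu).lt_of_ne' fun e => ?_
    obtain ⟨t, t0, ht⟩ := small u d0
    have z := Z _ (smul_ne_zero t0.ne' hu) ht (by rw [c.hom n hu t0, e, mul_zero])
    have b0 : ∀ w, bf (bet σ) w w = 0 := fun w => by
      have z' : ∀ᶠ v in 𝓝 (t • u), bf (bet σ) v v = 0 :=
        z.mono fun v a => by rw [← (c v a.1).2, a.2, zero_mul]
      obtain ⟨η, ⟨a, b⟩, e0⟩ := ((((t_sm (t • u) w).eventually z').and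
        ((t_sm (t • u) (-w)).eventually z')).and self_mem_nhdsWithin).exists
      have e0 : 0 < η := e0
      have := z'.self_of_nhds
      refine mul_left_cancel₀ (pow_pos e0 2).ne' ?_
      simp only [bf, Prod.fst_add, Prod.snd_add, Prod.smul_fst, Prod.smul_snd, smul_eq_mul,
        Prod.fst_neg, Prod.snd_neg] at a b this ⊢
      linear_combination (a + b) / 2 - this
    have f : ∀ w, w ≠ 0 → σ w = (dot (lam σ) w + |dot (lam σ) w|) / 2 := fun w hw => by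
      rw [c.formula n hw, b0, mul_zero, add_zero, Real.sqrt_sq_eq_abs]
    by_cases hl : lam σ = 0
    · simp only [S4, f _ e10, f _ e01, f _ (neg_ne_zero.2 e10), f _ (neg_ne_zero.2 e01), hl,
        dot] at s1
      simp at s1
    obtain ⟨s, s0, h1, h2⟩ := ker hl
    have e2 : dot (lam σ) (s • ((-(lam σ).2, (lam σ).1) : V)) = 0 := by
      rw [dot_smul]; simp only [dot]; ring
    obtain ⟨η, ⟨a, b⟩, e0⟩ := (((t_sm _ (lam σ)).eventually
      (Z _ h2 h1 (by rw [f _ h2, e2]; simp))).and self_mem_nhdsWithin).exists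
    have e0 : 0 < η := e0
    have : dot (lam σ) (s • ((-(lam σ).2, (lam σ).1) : V) + η • lam σ) =
        η * ((lam σ).1 ^ 2 + (lam σ).2 ^ 2) := by
      simp only [dot, Prod.fst_add, Prod.snd_add, Prod.smul_fst, Prod.smul_snd, smul_eq_mul]; ring
    rw [f _ a, this] at b
    have := mul_pos e0 (sq_pos' hl)
    rw [abs_of_pos this] at b
    linarith
  have K : ∀ u, u ≠ 0 → ‖u‖ < δ → dot (lam σ) (-(g u).2, (g u).1) = 0 ∧
      bf (bet σ) u (-(g u).2, (g u).1) = 0 := fun u hu h1 => by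
    set w : V := (-(g u).2, (g u).1)
    have gp := (ct u hu h1).self_of_nhds
    have T : ∀ (u' : V) (s : ℝ), u' ≠ 0 → s ≠ 0 → dot (g u) u' = s * dot (g u) u →
        (∀ v, v ≠ 0 → σ u' * (s⁻¹ * dot (g u) v) ≤ σ v * dot (g u) u) →
        dot (gv σ ((σ u')⁻¹ • u')) w = 0 := by
      intro u' s hu' s0 e hi
      have p := P u' hu'
      have : ∀ τ : ℝ, 0 ≤ bf (bet σ) w w * (τ * τ) + dot (gv σ ((σ u')⁻¹ • u')) w * τ + 0 := by
        intro τ
        have e1 : dot (g u) ((σ u')⁻¹ • u' + τ • w) = (σ u')⁻¹ * (s * dot (g u) u) := by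
          rw [← e]
          simp only [dot, w, Prod.fst_add, Prod.snd_add, Prod.smul_fst, Prod.smul_snd, smul_eq_mul]
          ring
        have v0 : (σ u')⁻¹ • u' + τ • w ≠ 0 := fun z => by
          rw [z] at e1
          simp [dot, s0, p.ne'] at e1
          simp only [dot] at gp
          linarith
        have a := hi _ v0
        rw [e1] at a
        have a2 : 1 ≤ σ ((σ u')⁻¹ • u' + τ • w) := by
          refine le_of_mul_le_mul_right (le_of_eq_of_le ?_ a) gp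
          field_simp
        have q := c.QQ_eq v0 1
        rw [one_smul, QQ_add, c.QQ_eq hu', inv_mul_cancel₀ p.ne'] at q
        nlinarith [n _ (neg_ne_zero.2 v0)]
      have := discrim_le_zero this
      rw [discrim] at this
      exact pow_eq_zero_iff two_ne_zero |>.1 (le_antisymm (by linarith) (sq_nonneg _))
    have a := T u 1 hu one_ne_zero (by ring) fun v hv => by simpa using ia u hu h1 v hv
    have b := T (-u) (-1) (neg_ne_zero.2 hu) (by norm_num) (by simp [dot]; ring)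
      fun v hv => by simpa [inv_neg] using ib u hu h1 v hv
    have p1 := inv_pos.2 (P u hu)
    have p2 := inv_pos.2 (P _ (neg_ne_zero.2 hu))
    rw [gv_dot] at a b
    have e1 : ∀ (s : ℝ) (u' : V), bf (bet σ) (s • u') w = s * bf (bet σ) u' w := fun s u' => by
      simp only [bf, Prod.smul_fst, Prod.smul_snd, smul_eq_mul]; ring
    have e2 : bf (bet σ) (-u) w = -bf (bet σ) u w := by
      simp only [bf, Prod.fst_neg, Prod.snd_neg]; ring
    rw [e1] at a b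
    rw [e2] at b
    have z : bf (bet σ) u w = 0 :=
      mul_left_cancel₀ (add_pos p1 p2).ne' (by linear_combination (a - b) / 2)
    exact ⟨by rw [z] at a; linarith, z⟩
  refine ⟨?_, P, fun u hu h1 v => ?_⟩
  · by_contra hl
    obtain ⟨s, s0, h1, h2⟩ := ker hl
    have a := (K _ h2 h1).1
    have b := (ct _ h2 h1).self_of_nhds
    rw [dot_smul] at b
    simp only [dot] at a b
    have := (pos_iff_pos_of_mul_pos b).1 s0
    linarith
  · have a := (K u hu h1).2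
    simp only [bf, dot] at a ⊢
    linear_combination (v.2 * u.1 - v.1 * u.2) * a

theorem shape_uniq {B C : ℝ × ℝ × ℝ} {g : V → V} {δ : ℝ} (d0 : 0 < δ) (b1 : B.1 = 1) (c1 : C.1 = 1)
    (gp : ∀ u, u ≠ 0 → ‖u‖ < δ → 0 < dot (g u) u)
    (hB : ∀ u, u ≠ 0 → ‖u‖ < δ → ∀ v, bf B u v * dot (g u) u = bf B u u * dot (g u) v)
    (hC : ∀ u, u ≠ 0 → ‖u‖ < δ → ∀ v, bf C u v * dot (g u) u = bf C u u * dot (g u) v) :
    B = C := by
  have k : ∀ u, u ≠ 0 → ∀ v, bf B u v * bf C u u = bf C u v * bf B u u := fun u hu v => by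
    obtain ⟨t, t0, ht⟩ := small u d0
    have n := smul_ne_zero t0.ne' hu
    have a := hB _ n ht v
    have b := hC _ n ht v
    refine mul_left_cancel₀ (mul_pos (pow_pos t0 3) (gp _ n ht)).ne' ?_
    generalize dot (g (t • u)) (t • u) = X at a b ⊢
    generalize dot (g (t • u)) v = Y at a b
    simp only [bf, Prod.smul_fst, Prod.smul_snd, smul_eq_mul] at a b ⊢
    linear_combination (t ^ 2 * (C.1 * (u.1 * u.1) + C.2.1 * (u.1 * u.2 + u.2 * u.1) +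
      C.2.2 * (u.2 * u.2))) * a - (t ^ 2 * (B.1 * (u.1 * u.1) + B.2.1 * (u.1 * u.2 + u.2 * u.1) +
      B.2.2 * (u.2 * u.2))) * b
  have k1 := k _ e10 (0, 1)
  have k2 := k _ e01 (1, 0)
  have k3 := k _ e11 (1, 0)
  simp only [bf, b1, c1] at k1 k2 k3
  have e2 : B.2.1 = C.2.1 := by linarith
  rw [e2] at k2 k3
  exact Prod.ext (b1.trans c1.symm) (Prod.ext e2 (by linarith))

def OK (M : Set V) (d : V → V → ℝ) (x : V) (r : ℝ) : Prop := Gd M d x r ∧ Cn (ss M d x r)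

def Nr (M : Set V) (d : V → V → ℝ) (x : V) (r : ℝ) : Prop :=
  ∀ᶠ p : V × ℝ in 𝓝 (x, r), 0 < p.2 → OK M d p.1 p.2

theorem Gd.sp {x u : V} {r : ℝ} (g : Gd M d x r) (hu : u ≠ 0) : 0 < ss M d x r u :=
  inv_pos.2 (g.spec hu).1

theorem QC.sm (h : QC M d a0) {y : V} (hy : y ∈ M) :
    ∃ δ > 0, ∀ u, ‖u‖ < δ → Nr M d (y - u) (d (y - u) y) := by
  obtain ⟨ρ, r0, hρ⟩ := h.region hy
  have m0 := lt_min r0 h.ap
  have T := h.tendsto hy hy tendsto_id tendsto_const_nhds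
  rw [h.refl y hy] at T
  obtain ⟨δ, d0, hd⟩ := Metric.eventually_nhds_iff.1
    (hρ.eventually_nhds.and (T.eventually (gt_mem_nhds m0)))
  refine ⟨δ, d0, fun u hu => ?_⟩
  obtain ⟨a, b⟩ := hd (y := y - u) (by simpa [dist_eq_norm] using hu)
  filter_upwards [continuous_fst.continuousAt.eventually a,
    continuous_snd.continuousAt.eventually (gt_mem_nhds b)] with p g e p0
  exact ⟨h.gd_mono g p0 (e.trans_le (min_le_left _ _)).le,
    h.cn g p0 (e.trans_le (min_le_left _ _)) (e.trans_le (min_le_right _ _))⟩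

theorem QC.nr0 (h : QC M d a0) {y : V} (hy : y ∈ M) : Nr M d y 0 := by
  obtain ⟨δ, d0, hd⟩ := h.sm hy
  simpa [h.refl y hy] using hd 0 (by simpa using d0)

theorem QM.Q_le (h : QM M d) {x w : V} {r : ℝ} (o : OK M d x r) (m : x + w ∈ M)
    (hd : d x (x + w) ≤ r) : QQ (ss M d x r) w ≤ 0 := by
  by_cases hw : w = 0
  · simp [hw, QQ, dot, bf]
  have a := h.le_tt o.1 hw (t := 1) (by simpa using m) (by simpa using hd)
  have b := o.2.QQ_eq hw 1
  have c := o.1.sp (neg_ne_zero.2 hw)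
  have : ss M d x r w ≤ 1 := inv_le_one_of_one_le₀ a
  rw [one_smul] at b
  nlinarith

theorem QM.Q_ge (h : QM M d) {x w : V} {r : ℝ} (o : OK M d x r)
    (hd : r ≤ d x (x + w)) : 0 ≤ QQ (ss M d x r) w := by
  have hw : w ≠ 0 := by
    rintro rfl
    simp [h.refl x o.1.1] at hd
    linarith [o.1.2.1]
  have a := h.tt_le o.1 hw (t := 1) zero_le_one (by simpa using hd)
  have b := o.2.QQ_eq hw 1
  have c := o.1.sp (neg_ne_zero.2 hw)
  have : 1 ≤ ss M d x r w := (one_le_inv₀ (o.1.spec hw).1).2 a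
  rw [one_smul] at b
  nlinarith

section
variable {ι : Type*} {l : Filter ι} {x u : ι → V} {r : ι → ℝ} {x0 u0 : V} {r0 : ℝ}

theorem Nr.ev (n : Nr M d x0 r0) (hx : Tendsto x l (𝓝 x0)) (hr : Tendsto r l (𝓝 r0))
    (p : ∀ᶠ i in l, 0 < r i) : ∀ᶠ i in l, OK M d (x i) (r i) := by
  filter_upwards [(hx.prodMk_nhds hr).eventually n, p] with i a b using a b

theorem Nr.ev' (n : Nr M d x0 r0) (p : 0 < r0) (hx : Tendsto x l (𝓝 x0))
    (hr : Tendsto r l (𝓝 r0)) : ∀ᶠ i in l, OK M d (x i) (r i) :=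
  n.ev hx hr (hr.eventually (lt_mem_nhds p))

theorem Nr.ev0 (n : Nr M d x0 0) (hx : Tendsto x l (𝓝 x0))
    (hr : Tendsto r l (𝓝[>] 0)) : ∀ᶠ i in l, OK M d (x i) (r i) :=
  n.ev hx (hr.mono_right nhdsWithin_le_nhds) (hr.eventually self_mem_nhdsWithin)

theorem Nr.ok (n : Nr M d x0 r0) (p : 0 < r0) : OK M d x0 r0 := n.self_of_nhds p

theorem QM.ss_tendsto (h : QM M d) (n : Nr M d x0 r0) (p : 0 < r0) (hu0 : u0 ≠ 0)
    (hx : Tendsto x l (𝓝 x0)) (hr : Tendsto r l (𝓝 r0)) (hu : Tendsto u l (𝓝 u0)) :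
    Tendsto (fun i => ss M d (x i) (r i) (u i)) l (𝓝 (ss M d x0 r0 u0)) :=
  (h.tt_tendsto (n.ok p).1 hu0 hx hr hu ((n.ev' p hx hr).mono fun _ a => a.1)).inv₀
    ((n.ok p).1.spec hu0).1.ne'

theorem QM.par_tendsto (h : QM M d) (n : Nr M d x0 r0) (p : 0 < r0)
    (hx : Tendsto x l (𝓝 x0)) (hr : Tendsto r l (𝓝 r0)) :
    Tendsto (fun i => lam (ss M d (x i) (r i))) l (𝓝 (lam (ss M d x0 r0))) ∧
      Tendsto (fun i => bet (ss M d (x i) (r i))) l (𝓝 (bet (ss M d x0 r0))) :=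
  lam_tendsto fun _ hu => h.ss_tendsto n p hu hx hr tendsto_const_nhds

theorem QM.gv_tendsto (h : QM M d) (n : Nr M d x0 r0) (p : 0 < r0)
    (hx : Tendsto x l (𝓝 x0)) (hr : Tendsto r l (𝓝 r0)) (hu : Tendsto u l (𝓝 u0)) (v : V) :
    Tendsto (fun i => dot (gv (ss M d (x i) (r i)) (u i)) v) l
      (𝓝 (dot (gv (ss M d x0 r0) u0) v)) := by
  simp only [gv_dot]
  exact (dot_tendsto (h.par_tendsto n p hx hr).1 tendsto_const_nhds).add
    ((bf_tendsto (h.par_tendsto n p hx hr).2 hu tendsto_const_nhds).const_mul 2)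

end

end Pool.Agent.H.MP_deb346_gt
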