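import Pool.Agent.H.MP_deb346_gt.B

set_option autoImplicit false

namespace Pool.Agent.H.MP_deb346_gt

open Set Filter Topology Pool.Agent.H.MP_594704_gt

variable {M : Set V} {d : V → V → ℝ} {a0 : ℝ}

noncomputable def g0 (M : Set V) (d : V → V → ℝ) (y u : V) : V :=
  gv (ss M d (y - u) (d (y - u) y)) u

theorem Nr.mem {x : V} {r : ℝ} (h : QM M d) {y : V} (n : Nr M d x r) (hr : r = d x y) (hy : y ∈ M)
    (hx : x ∈ M) (hn : x ≠ y) : 0 < r ∧ OK M d x r :=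
  ⟨hr ▸ h.pos hx hy hn, n.ok (hr ▸ h.pos hx hy hn)⟩

structure Sm (M : Set V) (d : V → V → ℝ) (y : V) (δ : ℝ) : Prop where
  d0 : 0 < δ
  hy : y ∈ M
  mem : ∀ u, ‖u‖ < δ → y - u ∈ M
  nr : ∀ u, ‖u‖ < δ → Nr M d (y - u) (d (y - u) y)

theorem QC.exSm (h : QC M d a0) {y : V} (hy : y ∈ M) : ∃ δ, Sm M d y δ := by
  obtain ⟨δ, d0, hd⟩ := h.sm hy
  obtain ⟨η, e0, he⟩ := Metric.isOpen_iff.1 h.op y hy
  exact ⟨min δ η, lt_min d0 e0, hy, fun u hu => he (by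
    simpa [dist_eq_norm] using hu.trans_le (min_le_right _ _)),
    fun u hu => hd u (hu.trans_le (min_le_left _ _))⟩

theorem Sm.pos {y u : V} {δ : ℝ} (s : Sm M d y δ) (h : QM M d) (hu : u ≠ 0) (h1 : ‖u‖ < δ) :
    0 < d (y - u) y := h.pos (s.mem u h1) s.hy (by simpa using hu)

theorem QM.ss_one (h : QM M d) {x u : V} {r : ℝ} (g : Gd M d x r) (hu : u ≠ 0) (m : x + u ∈ M)
    (e : d x (x + u) = r) : ss M d x r u = 1 := by
  rw [ss, h.tt_eq g hu zero_le_one (by simpa using m) (by simpa using e), inv_one]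

theorem Sm.gp {y u : V} {δ : ℝ} (s : Sm M d y δ) (h : QM M d) (hu : u ≠ 0) (h1 : ‖u‖ < δ) :
    0 < dot (g0 M d y u) u := by
  have o := (s.nr u h1).ok (s.pos h hu h1)
  have a := h.ss_one o.1 hu (by simpa using s.hy) (by simp)
  have b := o.1.sp (neg_ne_zero.2 hu)
  rw [g0, gv_dot, ← (o.2 u hu).1, ← (o.2 u hu).2, a]
  linarith

theorem Sm.ct {y u : V} {δ : ℝ} (s : Sm M d y δ) (h : QM M d) (hu : u ≠ 0) (h1 : ‖u‖ < δ) :
    ∀ᶠ v in 𝓝 u, 0 < dot (g0 M d y v) u := by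
  have T : Tendsto (fun v => y - v) (𝓝 u) (𝓝 (y - u)) := tendsto_id.const_sub y
  exact (h.gv_tendsto (s.nr u h1) (s.pos h hu h1) T
    (h.tendsto (s.mem u h1) s.hy T tendsto_const_nhds) tendsto_id u).eventually
      (lt_mem_nhds (s.gp h hu h1))

section
variable {ι : Type*} {l : Filter ι} {y : ι → V} {ε μ : ι → ℝ} {y0 : V} {δ : ℝ} {σ : V → ℝ}

theorem QC.ineq (h : QC M d a0) [l.NeBot] (s : Sm M d y0 δ) (hy : Tendsto y l (𝓝 y0))
    (hε : Tendsto ε l (𝓝[>] 0)) (m0 : ∀ᶠ i in l, 0 ≤ μ i)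
    (hσ : ∀ u, u ≠ 0 → Tendsto (fun i => μ i * ss M d (y i) (ε i) u) l (𝓝 (σ u)))
    {u : V} (hu : u ≠ 0) (h1 : ‖u‖ < δ) {v : V} (hv : v ≠ 0) :
    σ u * dot (g0 M d y0 u) v ≤ σ v * dot (g0 M d y0 u) u ∧
      σ (-u) * -dot (g0 M d y0 u) v ≤ σ v * dot (g0 M d y0 u) u := by
  have e0 := hε.mono_right nhdsWithin_le_nhds
  have hx := hy.sub_const u
  have hr := h.tendsto (s.mem u h1) s.hy hx hy
  have p := s.pos h.toQM hu h1
  have n := s.nr u h1
  have o0 := (h.nr0 s.hy).ev0 hy hε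
  have tz : ∀ w, w ≠ 0 → Tendsto (fun i => tt M d (y i) (ε i) w) l (𝓝 0) := fun w hw =>
    h.tt_zero s.hy hw hy e0 tendsto_const_nhds (o0.mono fun _ a => a.1)
  have hp : Tendsto (fun i => d (y i - u) (y i) + ε i) l (𝓝 (d (y0 - u) y0)) := by
    simpa using hr.add e0
  have hm : Tendsto (fun i => d (y i - u) (y i) - ε i) l (𝓝 (d (y0 - u) y0)) := by
    simpa using hr.sub e0
  have nu := neg_ne_zero.2 hu
  have B : ∀ {r : ι → ℝ}, Tendsto r l (𝓝 (d (y0 - u) y0)) → ∀ w w', w ≠ 0 → Tendsto (fun i =>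
      tt M d (y i) (ε i) w * bf (bet (ss M d (y i - u) (r i))) w' w') l (𝓝 0) := fun hr w w' hw => by
    simpa using (tz w hw).mul (bf_tendsto (h.par_tendsto n p hx hr).2 (tendsto_const_nhds (x := w'))
      (tendsto_const_nhds (x := w')))
  constructor
  · have G := fun w => h.gv_tendsto n p hx hp (tendsto_const_nhds (x := u)) w
    have := le_of_tendsto_of_tendsto ((hσ u hu).mul ((G v).add (B hp v v hv)))
      ((hσ v hv).mul ((G u).add (B hp u u hu))) (by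
        filter_upwards [o0, n.ev' p hx hp, m0] with i a b c
        obtain ⟨a1, a2, a3⟩ := a.1.spec hu
        obtain ⟨b1, b2, b3⟩ := a.1.spec hv
        have e1 : ∀ w, y i - u + (u + w) = y i + w := fun w => by abel
        have q1 := h.Q_le b (w := u + tt M d (y i) (ε i) v • v) (by rwa [e1]) (by
          rw [e1]; linarith [h.tri _ b.1.1 _ a.1.1 _ b2])
        have q2 := h.Q_ge b (w := u + tt M d (y i) (ε i) u • u) (by
          have := h.seg _ b.1.1 _ a2 (y i) (by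
            simpa [sub_eq_add_neg] using seg_line (y i) u (p := -1) (q := 0) (by norm_num) a1.le)
          rw [e1]; linarith)
        rw [QQ_add] at q1 q2
        rw [mul_assoc, mul_assoc]
        refine mul_le_mul_of_nonneg_left ?_ c
        simp only [ss] at q1 q2 ⊢
        rw [inv_mul_eq_div, inv_mul_eq_div, div_le_div_iff₀ a1 b1]
        linarith)
    simpa [g0] using this
  · have G := fun w => h.gv_tendsto n p hx hm (tendsto_const_nhds (x := u)) w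
    have := le_of_tendsto_of_tendsto ((hσ _ nu).mul ((G v).neg.sub (B hm v v hv)))
      ((hσ v hv).mul ((G u).sub (B hm _ u nu))) (by
        filter_upwards [o0, n.ev' p hx hm, m0, (tz _ nu).eventually (gt_mem_nhds one_pos)]
          with i a b c t1
        obtain ⟨a1, a2, a3⟩ := a.1.spec nu
        obtain ⟨b1, b2, b3⟩ := a.1.spec hv
        have e1 : ∀ w, y i - u + (u + w) = y i + w := fun w => by abel
        have q1 := h.Q_ge b (w := u + tt M d (y i) (ε i) v • v) (by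
          have := h.tri _ b.1.1 _ b2 _ a.1.1
          rw [e1]; linarith [h.symm _ b2 _ a.1.1])
        rw [smul_neg, ← neg_smul] at a2 a3
        have q2 := h.Q_le b (w := u + (-tt M d (y i) (ε i) (-u)) • u) (by rwa [e1]) (by
          have := h.seg _ b.1.1 _ a.1.1 (y i + (-tt M d (y i) (ε i) (-u)) • u) (by
            simpa [sub_eq_add_neg] using seg_line (y i) u (p := -1)
              (q := -tt M d (y i) (ε i) (-u)) (r := 0) (by linarith) (by linarith))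
          rw [e1]; linarith [h.symm _ a2 _ a.1.1])
        rw [QQ_add] at q1 q2
        rw [mul_assoc, mul_assoc]
        refine mul_le_mul_of_nonneg_left ?_ c
        simp only [ss] at q1 q2 ⊢
        rw [inv_mul_eq_div, inv_mul_eq_div, div_le_div_iff₀ a1 b1]
        linarith)
    simpa [g0] using this

theorem ul_lim {U : Ultrafilter ι} {f : ι → ℝ} {a b : ℝ} (h : ∀ᶠ i in U, f i ∈ Icc a b) :
    ∃ c, Tendsto f U (𝓝 c) := by
  obtain ⟨c, -, hc⟩ := isCompact_Icc.ultrafilter_le_nhds' (U.map f) h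
  exact ⟨c, hc⟩

theorem Gd.s4 {x : V} {r : ℝ} (g : Gd M d x r) : 0 < S4 (ss M d x r) := by
  have := g.sp e10
  have := g.sp e01
  have := g.sp (neg_ne_zero.2 e10)
  have := g.sp (neg_ne_zero.2 e01)
  unfold S4; positivity

theorem cn_tendsto {τ : ι → V → ℝ} (c : ∀ᶠ i in l, Cn (τ i) ∧ ∀ u, u ≠ 0 → 0 ≤ τ i u) (c0 : Cn σ)
    (n : ∀ u, u ≠ 0 → 0 ≤ σ u) (h : ∀ u, u ≠ 0 → Tendsto (fun i => τ i u) l (𝓝 (σ u)))
    {u : ι → V} {u0 : V} (hu0 : u0 ≠ 0) (hu : Tendsto u l (𝓝 u0)) :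
    Tendsto (fun i => τ i (u i)) l (𝓝 (σ u0)) := by
  rw [c0.formula n hu0]
  have a := dot_tendsto (lam_tendsto h).1 hu
  refine ((a.add ((a.pow 2).add ((bf_tendsto (lam_tendsto h).2 hu hu).const_mul 4)).sqrt).div_const
    2).congr' ?_
  filter_upwards [c, hu.eventually_ne hu0] with i b e using (b.1.formula b.2 e).symm

theorem QC.ul (h : QC M d a0) {U : Ultrafilter ι} (s : Sm M d y0 δ) (hy : Tendsto y U (𝓝 y0))
    (hε : Tendsto ε U (𝓝[>] 0)) : ∃ B : ℝ × ℝ × ℝ, B.1 = 1 ∧ (∀ u, u ≠ 0 → 0 < bf B u u) ∧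
      (∀ u, u ≠ 0 → ‖u‖ < δ → ∀ v, bf B u v * dot (g0 M d y0 u) u =
        bf B u u * dot (g0 M d y0 u) v) ∧ ∀ (u : ι → V) (u0 : V), u0 ≠ 0 → Tendsto u U (𝓝 u0) →
      Tendsto (fun i => ss M d (y i) (ε i) (u i) / ss M d (y i) (ε i) (1, 0)) U
        (𝓝 √(bf B u0 u0)) := by
  have o0 := (h.nr0 s.hy).ev0 hy hε
  set μ := fun i => (S4 (ss M d (y i) (ε i)))⁻¹
  have m0 : ∀ᶠ i in U, 0 < μ i := o0.mono fun i a => inv_pos.2 a.1.s4
  have : ∀ u : V, ∃ c, u ≠ 0 → Tendsto (fun i => μ i * ss M d (y i) (ε i) u) U (𝓝 c) := fun u => by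
    by_cases hu : u = 0
    · exact ⟨0, fun a => absurd hu a⟩
    obtain ⟨c, hc⟩ := ul_lim (U := U) (f := fun i => μ i * ss M d (y i) (ε i) u) (a := 0)
      (b := 2 * ‖u‖) (o0.mono fun i a => ⟨(mul_pos (inv_pos.2 a.1.s4) (a.1.sp hu)).le, by
        rw [inv_mul_le_iff₀ a.1.s4, mul_comm]
        exact a.2.bd (fun w hw => (a.1.sp hw).le) hu⟩)
    exact ⟨c, fun _ => hc⟩
  choose σ hσ using this
  have c : ∀ᶠ i in U, Cn (fun u => μ i * ss M d (y i) (ε i) u) ∧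
      ∀ u, u ≠ 0 → 0 ≤ μ i * ss M d (y i) (ε i) u :=
    o0.mono fun i a => ⟨a.2.smul _, fun u hu => (mul_pos (inv_pos.2 a.1.s4) (a.1.sp hu)).le⟩
  have c0 : Cn σ := cn_lim hσ (c.mono fun _ a => a.1)
  have n : ∀ u, u ≠ 0 → 0 ≤ σ u := fun u hu => ge_of_tendsto (hσ u hu) (c.mono fun _ a => a.2 u hu)
  have s1 : S4 σ = 1 := tendsto_nhds_unique_of_eventuallyEq
    (((hσ _ e10).add (hσ _ (neg_ne_zero.2 e10))).add ((hσ _ e01).add (hσ _ (neg_ne_zero.2 e01))))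
    tendsto_const_nhds (o0.mono fun i a => by
      have := mul_inv_cancel₀ a.1.s4.ne'
      simp only [μ, S4] at this ⊢
      linear_combination this)
  have iq := fun u hu h1 v hv => h.ineq s hy hε (m0.mono fun _ a => a.le) hσ (u := u) hu h1
    (v := v) hv
  obtain ⟨l0, P, K⟩ := shape0 c0 n s1 s.d0 (fun u hu h1 => s.ct h.toQM hu h1)
    (fun u hu h1 v hv => (iq u hu h1 v hv).1) fun u hu h1 v hv => (iq u hu h1 v hv).2
  have sq : ∀ u, u ≠ 0 → bf (bet σ) u u = σ u ^ 2 := fun u hu => by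
    obtain ⟨a, b⟩ := c0 u hu
    rw [l0] at a
    simp only [dot, Prod.fst_zero, Prod.snd_zero, zero_mul, add_zero] at a
    rw [← b, show σ (-u) = σ u by linarith, sq]
  have p1 := P _ e10
  have eb : ∀ u v, bf ((σ (1, 0) ^ 2)⁻¹ • bet σ) u v = (σ (1, 0) ^ 2)⁻¹ * bf (bet σ) u v :=
    fun u v => by simp only [bf, Prod.smul_fst, Prod.smul_snd, smul_eq_mul]; ring
  refine ⟨(σ (1, 0) ^ 2)⁻¹ • bet σ, ?_, fun u hu => ?_, fun u hu h1 v => ?_, fun u u0 hu0 hu => ?_⟩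
  · have := eb (1, 0) (1, 0)
    rw [sq _ e10, inv_mul_cancel₀ (by positivity)] at this
    simpa [bf] using this
  · have := P u hu
    rw [eb, sq u hu]; positivity
  · rw [eb, eb, mul_assoc, K u hu h1, mul_assoc]
  · have := (cn_tendsto c c0 n hσ hu0 hu).div (hσ _ e10) p1.ne'
    rw [eb, sq _ hu0, show (σ (1, 0) ^ 2)⁻¹ * σ u0 ^ 2 = (σ u0 / σ (1, 0)) ^ 2 by field_simp,
      Real.sqrt_sq (div_pos (P _ hu0) p1).le]
    refine this.congr' (m0.mono fun i a => ?_)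
    simp only [Pi.div_apply]
    exact mul_div_mul_left _ _ a.ne'

end

def Shp (M : Set V) (d : V → V → ℝ) (y0 : V) (B : ℝ × ℝ × ℝ) : Prop :=
  (∀ u, u ≠ 0 → 0 < bf B u u) ∧ ∀ u0, u0 ≠ 0 →
    Tendsto (fun p : V × ℝ × V => ss M d p.1 p.2.1 p.2.2 / ss M d p.1 p.2.1 (1, 0))
      (𝓝 y0 ×ˢ 𝓝[>] 0 ×ˢ 𝓝 u0) (𝓝 √(bf B u0 u0))

theorem QC.shape (h : QC M d a0) {y0 : V} (hy : y0 ∈ M) : ∃ B, Shp M d y0 B := by
  obtain ⟨δ, s⟩ := h.exSm hy
  obtain ⟨B, b1, b2, b3, -⟩ := h.ul (U := Ultrafilter.of (𝓝[>] (0:ℝ))) (y := fun _ => y0) (ε := id)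
    s tendsto_const_nhds (Ultrafilter.of_le _)
  refine ⟨B, b2, fun u0 hu0 => (tendsto_iff_ultrafilter _ _ _).2 fun U hU => ?_⟩
  obtain ⟨C, c1, -, c3, c4⟩ := h.ul (U := U) (y := fun p => p.1) (ε := fun p => p.2.1) s
    (tendsto_fst.mono_left hU) ((tendsto_fst.comp tendsto_snd).mono_left hU)
  rw [shape_uniq s.d0 b1 c1 (fun u hu h1 => s.gp h.toQM hu h1) b3 c3]
  exact c4 _ _ hu0 ((tendsto_snd.comp tendsto_snd).mono_left hU)

theorem Shp.lim {y0 : V} {B : ℝ × ℝ × ℝ} (s : Shp M d y0 B) {ι : Type*} {l : Filter ι}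
    {y u : ι → V} {ε : ι → ℝ} {u0 : V} (hu0 : u0 ≠ 0) (hy : Tendsto y l (𝓝 y0))
    (hε : Tendsto ε l (𝓝[>] 0)) (hu : Tendsto u l (𝓝 u0)) :
    Tendsto (fun i => tt M d (y i) (ε i) (1, 0) / tt M d (y i) (ε i) (u i)) l
      (𝓝 √(bf B u0 u0)) := by
  refine ((s.2 u0 hu0).comp (hy.prodMk (hε.prodMk hu))).congr fun i => ?_
  simp only [Function.comp, ss, inv_div_inv]

end Pool.Agent.H.MP_deb346_gt
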