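import Pool.Agent.H.MP_deb346_gt.C

set_option autoImplicit false

namespace Pool.Agent.H.MP_deb346_gt

open Set Filter Topology Pool.Agent.H.MP_594704_gt

variable {M : Set V} {d : V → V → ℝ} {a0 : ℝ}

noncomputable def YY (M : Set V) (d : V → V → ℝ) (x : V) (r : ℝ) (u : V) : V := x + tt M d x r u • u

theorem QM.Dl_eq (h : QM M d) {x u : V} {r ε : ℝ} (g : Gd M d x r) (g' : Gd M d x (r + ε))
    (hu : u ≠ 0) (gy : Gd M d (YY M d x r u) ε) : ss M d x r u - ss M d x (r + ε) u =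
      tt M d (YY M d x r u) ε u * (ss M d x r u * ss M d x (r + ε) u) := by
  obtain ⟨a1, a2, a3⟩ := g.spec hu
  obtain ⟨b1, b2, b3⟩ := gy.spec hu
  have e : YY M d x r u + tt M d (YY M d x r u) ε u • u =
      x + (tt M d x r u + tt M d (YY M d x r u) ε u) • u := by rw [add_smul, ← add_assoc]; rfl
  rw [e] at b2 b3
  have := h.tt_eq g' hu (add_pos a1 b1).le b2 (by
    rw [← h.add0 g.1 b2 a1.le (by linarith), a3]; exact congrArg _ b3)
  simp only [ss, this]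
  field_simp; ring

theorem QC.inball (h : QC M d a0) {y : V} (hy : y ∈ M) : ∃ c > 0, ∀ᶠ p : V × ℝ in 𝓝 y ×ˢ 𝓝[>] 0,
    ∀ w, ‖w‖ ≤ c * tt M d p.1 p.2 (1, 0) → p.1 + w ∈ M ∧ d p.1 (p.1 + w) ≤ p.2 := by
  obtain ⟨B, s⟩ := h.shape hy
  have T := fun u hu => s.lim (l := 𝓝 y ×ˢ 𝓝[>] 0) (u0 := u) hu tendsto_fst tendsto_snd
    tendsto_const_nhds
  have := ((T _ e10).add (T _ (neg_ne_zero.2 e10))).add ((T _ e01).add (T _ (neg_ne_zero.2 e01)))
  obtain ⟨K, hK⟩ := this.isBoundedUnder_le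
  rw [eventually_map] at hK
  refine ⟨(2 * (|K| + 1))⁻¹, by positivity, ?_⟩
  filter_upwards [hK, (h.nr0 hy).ev0 tendsto_fst tendsto_snd] with p a o w hw
  by_cases w0 : w = 0
  · simp [w0, o.1.1, h.refl _ o.1.1, o.1.2.1.le]
  have b := o.2.bd (fun u hu => (o.1.sp hu).le) w0
  have t1 := (o.1.spec e10).1
  have a' : tt M d p.1 p.2 (1, 0) * S4 (ss M d p.1 p.2) ≤ |K| + 1 := by
    simp only [S4, ss, mul_add, ← div_eq_mul_inv]
    linarith [le_abs_self K]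
  rw [inv_mul_eq_div, le_div_iff₀ (by positivity)] at hw
  have c : ss M d p.1 p.2 w ≤ 1 := by
    refine le_of_mul_le_mul_left ?_ t1
    nlinarith [norm_nonneg w]
  simpa using h.d_le o.1 w0 zero_le_one ((inv_le_one₀ (o.1.spec w0).1).1 c)

theorem QM.chain (h : QM M d) {P : ℝ → V} {T s ε : ℝ} (s0 : 0 < s) (T0 : 0 ≤ T) (e0 : 0 ≤ ε)
    (m : ∀ t ∈ Icc 0 T, P t ∈ M)
    (H : ∀ a ∈ Icc 0 T, ∀ b ∈ Icc 0 T, a ≤ b → b - a ≤ s → d (P a) (P b) ≤ ε) :
    d (P 0) (P T) ≤ (T / s + 1) * ε := by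
  have z : (0:ℝ) ∈ Icc 0 T := ⟨le_rfl, T0⟩
  have k : ∀ n : ℕ, ∀ t ∈ Icc 0 T, t ≤ n * s → d (P 0) (P t) ≤ n * ε := by
    intro n
    induction n with
    | zero =>
      intro t ht e
      have : t = 0 := le_antisymm (by simpa using e) ht.1
      simp [this, h.refl _ (m 0 z)]
    | succ n ih =>
      intro t ht e
      push_cast at e ⊢
      have m1 : max (t - s) 0 ∈ Icc 0 T := ⟨le_max_right _ _, max_le (by linarith [ht.2]) T0⟩
      have a := ih _ m1 (max_le (by linarith) (by positivity))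
      have b := H _ m1 t ht (max_le (by linarith) ht.1) (by linarith [le_max_left (t - s) 0])
      linarith [h.tri _ (m 0 z) _ (m _ m1) _ (m t ht)]
  refine (k ⌈T / s⌉₊ T ⟨T0, le_rfl⟩ ((div_le_iff₀ s0).1 (Nat.le_ceil _))).trans ?_
  gcongr
  exact (Nat.ceil_lt_add_one (by positivity)).le

theorem chain2 {φ : ℝ → ℝ} {T s ε : ℝ} (s0 : 0 < s) (T0 : 0 ≤ T) (e0 : 0 ≤ ε) (z : φ 0 = 0)
    (m : ∀ t ∈ Icc 0 T, φ t ≤ φ T) (H : ∀ t, 0 ≤ t → t + s ≤ T → φ t + ε ≤ φ (t + s)) :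
    (T / s - 1) * ε ≤ φ T := by
  have k : ∀ n : ℕ, n * s ≤ T → n * ε ≤ φ (n * s) := by
    intro n
    induction n with
    | zero => simp [z]
    | succ n ih =>
      intro e
      push_cast at e ⊢
      have := H (n * s) (by positivity) (by linarith)
      rw [add_mul, add_mul, one_mul, one_mul]
      linarith [ih (by linarith)]
  have e : (⌊T / s⌋₊ : ℝ) * s ≤ T := (le_div_iff₀ s0).1 (Nat.floor_le (by positivity))
  refine le_trans ?_ ((k _ e).trans (m _ ⟨by positivity, e⟩))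
  gcongr
  exact (Nat.sub_one_lt_floor _).le

theorem bddU {ι : Type*} {l : Filter ι} {f : ι → ℝ}
    (H : ∀ U : Ultrafilter ι, ↑U ≤ l → ¬ Tendsto f U atTop) : ∃ C, ∀ᶠ i in l, f i ≤ C := by
  by_contra hn
  push Not at hn
  have : (l ⊓ comap f atTop).NeBot := inf_neBot_iff.2 fun s hs s' hs' => by
    obtain ⟨t, ht, e⟩ := hs'
    obtain ⟨C, hC⟩ := mem_atTop_sets.1 ht
    obtain ⟨i, a, b⟩ := ((hn C).and_eventually hs).exists
    exact ⟨i, b, e (hC _ a.le)⟩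
  exact H (Ultrafilter.of _) ((Ultrafilter.of_le _).trans inf_le_left)
    (tendsto_iff_comap.2 ((Ultrafilter.of_le _).trans inf_le_right))

def Six (u : V) : Prop :=
  u = (1, 0) ∨ u = -(1, 0) ∨ u = (0, 1) ∨ u = -(0, 1) ∨ u = (1, 1) ∨ u = -(1, 1)

theorem Six.ne {u : V} (s : Six u) : u ≠ 0 := by
  rcases s with rfl | rfl | rfl | rfl | rfl | rfl <;> simp

theorem parU {ι : Type*} {U : Ultrafilter ι} {σ σ' : ι → V → ℝ} {σ0 : V → ℝ} {m : ι → ℝ}
    (h1 : ∀ u, u ≠ 0 → Tendsto (fun i => σ i u) U (𝓝 (σ0 u)))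
    (h2 : ∀ u, u ≠ 0 → Tendsto (fun i => σ' i u) U (𝓝 (σ0 u)))
    (bd : ∀ u, Six u → ∃ C, ∀ᶠ i in U, (σ i u - σ' i u) / m i ∈ Icc 0 C) :
    ∃ A Q, Tendsto (fun i => (m i)⁻¹ • (lam (σ i) - lam (σ' i))) U (𝓝 A) ∧
      Tendsto (fun i => (m i)⁻¹ • (bet (σ i) - bet (σ' i))) U (𝓝 Q) := by
  have k : ∀ u, Six u → Six (-u) → (∃ c, Tendsto (fun i => (m i)⁻¹ * ((σ i u - σ i (-u)) -
      (σ' i u - σ' i (-u)))) U (𝓝 c)) ∧ ∃ c, Tendsto (fun i => (m i)⁻¹ * (σ i u * σ i (-u) -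
      σ' i u * σ' i (-u))) U (𝓝 c) := fun u a b => by
    obtain ⟨_, a1⟩ := bd u a
    obtain ⟨_, b1⟩ := bd _ b
    obtain ⟨_, a2⟩ := ul_lim a1
    obtain ⟨_, b2⟩ := ul_lim b1
    exact ⟨⟨_, (a2.sub b2).congr fun i => by ring⟩,
      _, ((a2.mul (h1 _ b.ne)).add ((h2 _ a.ne).mul b2)).congr fun i => by ring⟩
  obtain ⟨⟨_, a1⟩, _, a2⟩ := k (1, 0) (by simp [Six]) (by simp [Six])
  obtain ⟨⟨_, b1⟩, _, b2⟩ := k (0, 1) (by simp [Six]) (by simp [Six])
  obtain ⟨-, _, c2⟩ := k (1, 1) (by simp [Six]) (by simp [Six])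
  refine ⟨_, _, a1.prodMk_nhds b1, (a2.prodMk_nhds
    ((((c2.sub a2).sub b2).div_const 2).prodMk_nhds b2)).congr fun i => ?_⟩
  simp only [bet, Prod.mk_sub_mk, Prod.smul_mk, smul_eq_mul]
  congr 2; ring

theorem dot_lin (m : ℝ) (a b u : V) : dot (m • (a - b)) u = m * (dot a u - dot b u) := by
  simp only [dot, Prod.smul_fst, Prod.smul_snd, Prod.fst_sub, Prod.snd_sub, smul_eq_mul]; ring

theorem bf_lin (m : ℝ) (a b : ℝ × ℝ × ℝ) (u v : V) :
    bf (m • (a - b)) u v = m * (bf a u v - bf b u v) := by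
  simp only [bf, Prod.smul_fst, Prod.smul_snd, Prod.fst_sub, Prod.snd_sub, smul_eq_mul]; ring

theorem Cn.lip {σ : V → ℝ} (c : Cn σ) (p : ∀ u, u ≠ 0 → 0 < σ u) {u w : V} {η : ℝ} (hu : u ≠ 0)
    (hu' : u + η • w ≠ 0) : (σ (u + η • w))⁻¹ • (u + η • w) - (σ u)⁻¹ • u =
      η • ((σ (u + η • w))⁻¹ • w - ((dot (lam σ) w * σ (u + η • w) + bf (bet σ) (u + η • w + u) w) /
        (σ (u + η • w) + σ (-u)) * ((σ u)⁻¹ * (σ (u + η • w))⁻¹)) • u) := by
  obtain ⟨a1, a2⟩ := c u hu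
  obtain ⟨b1, b2⟩ := c _ hu'
  have p1 := p u hu
  have p2 := p _ hu'
  have p3 := p _ (neg_ne_zero.2 hu)
  have e : (σ (u + η • w) - σ u) * (σ (u + η • w) + σ (-u)) =
      η * (dot (lam σ) w * σ (u + η • w) + bf (bet σ) (u + η • w + u) w) := by
    generalize σ (u + η • w) = s' at b1 b2 ⊢
    generalize σ (-(u + η • w)) = s'' at b1 b2
    simp only [dot, bf, Prod.fst_add, Prod.snd_add, Prod.smul_fst, Prod.smul_snd,
      smul_eq_mul] at a1 a2 b1 b2 ⊢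
    linear_combination s' * b1 + b2 - s' * a1 - a2
  generalize dot (lam σ) w * σ (u + η • w) + bf (bet σ) (u + η • w + u) w = X at e ⊢
  match_scalars
  · field_simp; linear_combination -e
  · ring

section
variable {ι : Type*} {l : Filter ι} {x u : ι → V} {r ε m : ι → ℝ} {x0 u0 : V} {r0 : ℝ}

theorem QM.YY_tendsto (h : QM M d) (n : Nr M d x0 r0) (p : 0 < r0) (hu0 : u0 ≠ 0)
    (hx : Tendsto x l (𝓝 x0)) (hr : Tendsto r l (𝓝 r0)) (hu : Tendsto u l (𝓝 u0)) :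
    Tendsto (fun i => YY M d (x i) (r i) (u i)) l (𝓝 (YY M d x0 r0 u0)) :=
  hx.add ((h.tt_tendsto (n.ok p).1 hu0 hx hr hu ((n.ev' p hx hr).mono fun _ a => a.1)).smul hu)

theorem r_add (hr : Tendsto r l (𝓝 r0)) (hε : Tendsto ε l (𝓝[>] 0)) :
    Tendsto (fun i => r i + ε i) l (𝓝 r0) := by
  simpa using hr.add (hε.mono_right nhdsWithin_le_nhds)

theorem QC.Dl_ev (h : QC M d a0) (n : Nr M d x0 r0) (p : 0 < r0) (hu0 : u0 ≠ 0)
    (hx : Tendsto x l (𝓝 x0)) (hr : Tendsto r l (𝓝 r0)) (hu : Tendsto u l (𝓝 u0))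
    (hε : Tendsto ε l (𝓝[>] 0)) : ∀ᶠ i in l, 0 < tt M d (YY M d (x i) (r i) (u i)) (ε i) (u i) ∧
      0 < tt M d (YY M d (x i) (r i) (u i)) (ε i) (1, 0) ∧
      0 < ss M d (x i) (r i) (u i) * ss M d (x i) (r i + ε i) (u i) ∧
      ss M d (x i) (r i) (u i) - ss M d (x i) (r i + ε i) (u i) =
      tt M d (YY M d (x i) (r i) (u i)) (ε i) (u i) *
        (ss M d (x i) (r i) (u i) * ss M d (x i) (r i + ε i) (u i)) := by
  filter_upwards [n.ev' p hx hr, n.ev' p hx (r_add hr hε), hu.eventually_ne hu0,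
    (h.nr0 ((n.ok p).1.spec hu0).2.1).ev0 (h.YY_tendsto n p hu0 hx hr hu) hε] with i a b c e
  exact ⟨(e.1.spec c).1, (e.1.spec e10).1, mul_pos (a.1.sp c) (b.1.sp c), h.Dl_eq a.1 b.1 c e.1⟩

theorem QM.dlim (h : QM M d) (n : Nr M d x0 r0) (p : 0 < r0) (hu0 : u0 ≠ 0)
    (hx : Tendsto x l (𝓝 x0)) (hr : Tendsto r l (𝓝 r0)) (hu : Tendsto u l (𝓝 u0))
    (hε : Tendsto ε l (𝓝[>] 0)) {A : V} {Q : ℝ × ℝ × ℝ}
    (hA : Tendsto (fun i => (m i)⁻¹ • (lam (ss M d (x i) (r i)) - lam (ss M d (x i) (r i + ε i))))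
      l (𝓝 A))
    (hQ : Tendsto (fun i => (m i)⁻¹ • (bet (ss M d (x i) (r i)) - bet (ss M d (x i) (r i + ε i))))
      l (𝓝 Q)) :
    Tendsto (fun i => (ss M d (x i) (r i) (u i) - ss M d (x i) (r i + ε i) (u i)) / m i) l
      (𝓝 ((dot A u0 * ss M d x0 r0 u0 + bf Q u0 u0) / (ss M d x0 r0 u0 + ss M d x0 r0 (-u0)))) := by
  have a := h.ss_tendsto n p hu0 hx (r_add hr hε) hu
  have b := h.ss_tendsto n p (neg_ne_zero.2 hu0) hx hr hu.neg
  refine ((((dot_tendsto hA hu).mul a).add (bf_tendsto hQ hu hu)).div (a.add b)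
    (add_pos ((n.ok p).1.sp hu0) ((n.ok p).1.sp (neg_ne_zero.2 hu0))).ne').congr' ?_
  filter_upwards [n.ev' p hx hr, n.ev' p hx (r_add hr hε), hu.eventually_ne hu0] with i a b c
  have := add_pos (b.1.sp c) (a.1.sp (neg_ne_zero.2 c))
  simp only [Pi.div_apply]
  rw [dot_lin, bf_lin, ← (a.2 _ c).1, ← (a.2 _ c).2, ← (b.2 _ c).1, ← (b.2 _ c).2,
    div_eq_iff this.ne']
  ring

end

theorem QC.ub (h : QC M d a0) {y0 : V} (hy0 : y0 ∈ M) :
    ∃ C, ∀ᶠ p : V × ℝ in 𝓝 y0 ×ˢ 𝓝[>] 0, tt M d p.1 p.2 (1, 0) / p.2 ≤ C := by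
  refine bddU fun U hU hT => ?_
  have hy : Tendsto (fun p : V × ℝ => p.1) U (𝓝 y0) := tendsto_fst.mono_left hU
  have hε : Tendsto (fun p : V × ℝ => p.2) U (𝓝[>] 0) := tendsto_snd.mono_left hU
  obtain ⟨δ, s⟩ := h.exSm hy0
  obtain ⟨t, t0, ht⟩ := small (1, 0) s.d0
  set u0 : V := t • (1, 0)
  have hu0 : u0 ≠ 0 := smul_ne_zero t0.ne' e10
  have hx := hy.sub_const u0
  have hr := h.tendsto (s.mem u0 ht) hy0 hx hy
  have p := s.pos h.toQM hu0 ht
  have n := s.nr u0 ht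
  set x0 := y0 - u0
  set r0 := d x0 y0
  set x := fun p : V × ℝ => p.1 - u0
  set r := fun p : V × ℝ => d (p.1 - u0) p.1
  set D := fun (p : V × ℝ) u => ss M d (x p) (r p) u - ss M d (x p) (r p + p.2) u
  have D0 : ∀ u, u ≠ 0 → ∀ᶠ p in U, 0 < D p u := fun u hu =>
    (h.Dl_ev n p hu hx hr tendsto_const_nhds hε).mono fun i a => by
      simp only [D]; rw [a.2.2.2]; exact mul_pos a.1 a.2.2.1
  set m := fun p => D p (1, 0) + D p (-(1, 0)) + D p (0, 1) + D p (-(0, 1)) + D p (1, 1) +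
    D p (-(1, 1))
  have m6 : ∀ᶠ p in U, 0 < m p ∧ ∀ u, Six u → D p u / m p ∈ Icc (0:ℝ) 1 := by
    filter_upwards [D0 _ e10, D0 _ e01, D0 _ e11, D0 _ (neg_ne_zero.2 e10),
      D0 _ (neg_ne_zero.2 e01), D0 _ (neg_ne_zero.2 e11)] with p a1 a2 a3 a4 a5 a6
    have : 0 < m p := by positivity
    refine ⟨this, fun u hu => ?_⟩
    rw [mem_Icc, le_div_iff₀ this, div_le_iff₀ this]
    rcases hu with rfl | rfl | rfl | rfl | rfl | rfl <;> constructor <;> simp only [m] <;> linarith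
  obtain ⟨A, Q, hA, hQ⟩ := parU (m := m) (fun u hu => h.ss_tendsto n p hu hx hr tendsto_const_nhds)
    (fun u hu => h.ss_tendsto n p hu hx (r_add hr hε) tendsto_const_nhds)
    fun u hu => ⟨1, m6.mono fun _ a => a.2 u hu⟩
  set dl := fun u => (dot A u * ss M d x0 r0 u + bf Q u u) / (ss M d x0 r0 u + ss M d x0 r0 (-u))
  have L : ∀ u, u ≠ 0 → Tendsto (fun p => D p u / m p) U (𝓝 (dl u)) := fun u hu =>
    h.dlim n p hu hx hr tendsto_const_nhds hε hA hQ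
  obtain ⟨u1, hu1, d1⟩ : ∃ u1, u1 ≠ 0 ∧ 0 < dl u1 := by
    by_contra hn
    push Not at hn
    have := tendsto_nhds_unique_of_eventuallyEq ((((((L _ e10).add (L _ (neg_ne_zero.2 e10))).add
      (L _ e01)).add (L _ (neg_ne_zero.2 e01))).add (L _ e11)).add (L _ (neg_ne_zero.2 e11)))
      (tendsto_const_nhds (x := (1:ℝ))) (m6.mono fun i a => by
        simp only [← add_div]; exact div_self a.1.ne')
    linarith [hn _ e10, hn _ e01, hn _ e11, hn _ (neg_ne_zero.2 e10), hn _ (neg_ne_zero.2 e01),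
      hn _ (neg_ne_zero.2 e11)]
  have em : Tendsto (fun p : V × ℝ => p.2 / m p) U (𝓝 0) := by
    obtain ⟨B, sB⟩ := h.shape hy0
    have a := ((h.ss_tendsto n p hu0 hx hr tendsto_const_nhds).mul (h.ss_tendsto n p hu0 hx
      (r_add hr hε) tendsto_const_nhds)).div (sB.lim hu0 hy hε tendsto_const_nhds)
      (Real.sqrt_pos.2 (sB.1 _ hu0)).ne'
    have b := hT.atTop_mul_pos (div_pos (mul_pos ((n.ok p).1.sp hu0) ((n.ok p).1.sp hu0))
      (Real.sqrt_pos.2 (sB.1 _ hu0))) a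
    refine ((L _ hu0).div_atTop b).congr' ?_
    filter_upwards [h.Dl_ev n p hu0 hx hr tendsto_const_nhds hε, n.ev' p hx hr, h.ev hy0 hy,
      hε.eventually self_mem_nhdsWithin, m6] with i a b c e f
    have e1 : YY M d (x i) (r i) u0 = i.1 := by
      rw [YY, h.tt_eq b.1 hu0 zero_le_one (by simpa [x] using c) (by simp [x, r])]; simp [x]
    rw [e1] at a
    obtain ⟨a1, a2, a3, a4⟩ := a
    have e0 : 0 < i.2 := e
    have := f.1
    simp only [D, a4, Pi.div_apply]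
    generalize ss M d (x i) (r i) u0 * ss M d (x i) (r i + i.2) u0 = S at a3 ⊢
    field_simp
  set w0 : V := (-u1.2, u1.1)
  have m1 := ((n.ok p).1.spec hu1).2.1
  obtain ⟨B, sB⟩ := h.shape m1
  obtain ⟨c0, c00, hc⟩ := h.inball m1
  set F : Filter ((V × ℝ) × ℝ × ℝ) := ↑U ×ˢ 𝓝 (0, 0)
  have f1 : Tendsto (fun q : (V × ℝ) × ℝ × ℝ => q.1) F U := tendsto_fst
  have f2 : Tendsto (fun q : (V × ℝ) × ℝ × ℝ => u1 + q.2.1 • w0) F (𝓝 u1) :=
    (Continuous.tendsto' (f := fun q : ℝ × ℝ => u1 + q.1 • w0) (by fun_prop) _ _ (by simp)).comp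
      tendsto_snd
  have f3 : Tendsto (fun q : (V × ℝ) × ℝ × ℝ => u1 + q.2.1 • w0 + (q.2.2 - q.2.1) • w0) F (𝓝 u1) :=
    (Continuous.tendsto' (f := fun q : ℝ × ℝ => u1 + q.1 • w0 + (q.2 - q.1) • w0) (by fun_prop) _ _
      (by simp)).comp tendsto_snd
  have gx := hx.comp f1
  have gr := hr.comp f1
  have gε := hε.comp f1
  have s1 := h.ss_tendsto n p hu1 gx gr f2
  have s2 := h.ss_tendsto n p hu1 gx gr f3
  have s3 := h.ss_tendsto n p (neg_ne_zero.2 hu1) gx gr f2.neg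
  have sp := (n.ok p).1.sp hu1
  have sp' := (n.ok p).1.sp (neg_ne_zero.2 hu1)
  have W := (((s2.inv₀ sp.ne').smul_const w0).sub ((((((dot_tendsto (h.par_tendsto n p gx gr).1
    (tendsto_const_nhds (x := w0))).mul s2).add (bf_tendsto (h.par_tendsto n p gx gr).2 (f3.add f2)
      (tendsto_const_nhds (x := w0)))).div (s2.add s3) (add_pos sp sp').ne').mul
        ((s1.inv₀ sp.ne').mul (s2.inv₀ sp.ne'))).smul f2)).norm
  obtain ⟨K, hK⟩ := W.isBoundedUnder_le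
  rw [eventually_map] at hK
  have gY := h.YY_tendsto n p hu1 gx gr f2
  have β := ((sB.lim hu1 gY gε f2).mul (h.dlim n p hu1 gx gr f2 gε (hA.comp f1) (hQ.comp f1))).div
    (s1.mul (h.ss_tendsto n p hu1 gx (r_add gr gε) f2)) (mul_pos sp sp).ne'
  obtain ⟨c, c1, c2⟩ := exists_between (div_pos (mul_pos (Real.sqrt_pos.2 (sB.1 _ hu1)) d1)
    (mul_pos sp sp))
  have key : ∀ᶠ q in F, YY M d (x q.1) (r q.1) (u1 + q.2.1 • w0) ∈ M ∧ (q.2.1 ≤ q.2.2 →
      q.2.2 - q.2.1 ≤ c0 * c * m q.1 / (|K| + 1) → d (YY M d (x q.1) (r q.1) (u1 + q.2.1 • w0))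
        (YY M d (x q.1) (r q.1) (u1 + q.2.2 • w0)) ≤ q.1.2) := by
    filter_upwards [hK, β.eventually (lt_mem_nhds c2), (gY.prodMk gε).eventually hc,
      h.Dl_ev n p hu1 gx gr f2 gε, n.ev' p gx gr, f2.eventually_ne hu1, f3.eventually_ne hu1,
      f1.eventually m6, h.ev m1 gY] with q a1 a2 a3 a4 a5 a6 a7 a8 a9
    refine ⟨a9, fun b1 b2 => ?_⟩
    have e := a5.2.lip (fun u hu => a5.1.sp hu) a6 a7
    simp only [Function.comp, Pi.div_apply] at a1 a2 a3 a4 e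
    obtain ⟨k1, k2, k3, k4⟩ := a4
    have k5 := a8.1
    rw [k4] at a2
    have a2' : c * m q.1 ≤ tt M d (YY M d (x q.1) (r q.1) (u1 + q.2.1 • w0)) q.1.2 (1, 0) := by
      rw [← le_div_iff₀ k5]
      refine a2.le.trans_eq ?_
      generalize ss M d (x q.1) (r q.1) (u1 + q.2.1 • w0) *
        ss M d (x q.1) (r q.1 + q.1.2) (u1 + q.2.1 • w0) = S at k3 ⊢
      field_simp
    have := (a3 _ (show ‖YY M d (x q.1) (r q.1) (u1 + q.2.2 • w0) -
        YY M d (x q.1) (r q.1) (u1 + q.2.1 • w0)‖ ≤ _ from ?_)).2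
    · simpa using this
    rw [show u1 + q.2.2 • w0 = u1 + q.2.1 • w0 + (q.2.2 - q.2.1) • w0 by module]
    simp only [YY, add_sub_add_left_eq_sub]
    simp only [ss, inv_inv] at e a1
    rw [e, norm_smul, Real.norm_eq_abs, abs_of_nonneg (by linarith)]
    rw [le_div_iff₀ (by positivity)] at b2
    refine le_trans (mul_le_mul_of_nonneg_left (a1.trans (by linarith [le_abs_self K] :
      K ≤ |K| + 1)) (by linarith)) (b2.trans ?_)
    rw [mul_assoc]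
    exact mul_le_mul_of_nonneg_left a2' c00.le
  obtain ⟨pa, ha, pb, hb, hab⟩ := eventually_prod_iff.1 key
  obtain ⟨η, η0, hη⟩ := Metric.eventually_nhds_iff.1 hb
  have hb' : ∀ a ∈ Icc 0 (η / 2), ∀ b ∈ Icc 0 (η / 2), pb (a, b) := fun a ha b hb => hη (by
    rw [Prod.dist_eq, Real.dist_eq, Real.dist_eq, sub_zero, sub_zero, abs_of_nonneg ha.1,
      abs_of_nonneg hb.1]
    exact max_lt (by linarith [ha.2]) (by linarith [hb.2]))
  have q1 := sq_pos' hu1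
  have n2 : ∀ a b : ℝ, a • u1 = b • (u1 + (η / 2) • w0) → b = 0 := fun a b e => by
    have e1 := congrArg Prod.fst e
    have e2 := congrArg Prod.snd e
    simp only [w0, Prod.fst_add, Prod.snd_add, Prod.smul_fst, Prod.smul_snd, smul_eq_mul] at e1 e2
    exact mul_left_cancel₀ (mul_pos (half_pos η0) q1).ne' (by
      linear_combination u1.2 * e1 - u1.1 * e2)
  have n3 : u1 + (η / 2) • w0 ≠ 0 := fun e => one_ne_zero (n2 0 1 (by simp [e]))
  have m2 := ((n.ok p).1.spec n3).2.1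
  have T1 := h.tendsto m1 m2 (h.YY_tendsto n p hu1 hx hr tendsto_const_nhds)
    (h.YY_tendsto n p n3 hx hr tendsto_const_nhds)
  have T2 := (em.const_mul (η / 2 * (|K| + 1) / (c0 * c))).add (hε.mono_right nhdsWithin_le_nhds)
  have := le_of_tendsto_of_tendsto T1 T2 (by
    filter_upwards [ha, m6, hε.eventually self_mem_nhdsWithin] with i a b e
    have e0 : 0 < i.2 := e
    have k := b.1
    have := h.chain (P := fun θ => YY M d (x i) (r i) (u1 + θ • w0)) (T := η / 2)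
      (s := c0 * c * m i / (|K| + 1)) (by positivity) (half_pos η0).le e0.le
      (fun t ht => (hab a (hb' t ht t ht)).1) fun s hs t ht => (hab a (hb' s hs t ht)).2
    simp only [zero_smul, add_zero] at this
    refine this.trans_eq ?_
    field_simp)
  have := h.pos m1 m2 fun e => ((n.ok p).1.spec n3).1.ne' (n2 _ _ (add_left_cancel e))
  linarith

end Pool.Agent.H.MP_deb346_gt
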