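import Pool.Agent.H.MP_deb346_gt.D

set_option autoImplicit false

namespace Pool.Agent.H.MP_deb346_gt

open Set Filter Topology Pool.Agent.H.MP_594704_gt

variable {M : Set V} {d : V → V → ℝ} {a0 : ℝ}

theorem QM.ctr (h : QM M d) {y z : V} {τ : ℝ} (t0 : 0 < τ) (m : ∀ u, ‖u‖ ≤ τ → y - u ∈ M)
    (hz : ‖z - y‖ ≤ τ) : ∃ u, ‖u‖ = τ ∧ d (y - u) y = d (y - u) z := by
  have my : y ∈ M := by simpa using m 0 (by simpa using t0.le)
  have mz : z ∈ M := by simpa using m (y - z) (by rwa [norm_sub_rev])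
  by_cases e : z - y = 0
  · exact ⟨(τ, 0), by simp [Prod.norm_def, abs_of_pos t0, t0.le], by rw [sub_eq_zero.1 e]⟩
  have n := norm_pos_iff.2 e
  set w := z - y with hw
  have ez : z = y + (1:ℝ) • w := by simp [hw]
  have s1 : ‖(τ / ‖w‖) • w‖ = τ := by
    rw [norm_smul, Real.norm_eq_abs, abs_of_pos (by positivity)]; field_simp
  have k : 1 ≤ τ / ‖w‖ := (one_le_div n).2 hz
  have c : ∀ p ∈ M, ContinuousOn (fun u => d (y - u) p) (Metric.sphere 0 τ) := fun p hp =>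
    h.cont.comp (f := fun u => (y - u, p)) (by fun_prop)
      fun u hu => ⟨m u (mem_sphere_zero_iff_norm.1 hu).le, hp⟩
  have rk : 1 < Module.rank ℝ V := by simp; norm_num
  obtain ⟨u, a, b⟩ := (isPreconnected_sphere rk (0:V) τ).intermediate_value₂
    (a := (τ / ‖w‖) • w) (b := -((τ / ‖w‖) • w)) (mem_sphere_zero_iff_norm.2 s1)
    (mem_sphere_zero_iff_norm.2 (by rwa [norm_neg])) (c y my) (c z mz) (by
      have m1 := m _ s1.le
      have := h.seg _ m1 _ mz y (by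
        have := seg_line y w (p := -(τ / ‖w‖)) (q := 0) (r := 1) (by linarith) zero_le_one
        rwa [← ez, neg_smul, zero_smul, add_zero, ← sub_eq_add_neg] at this)
      linarith [h.nonneg my mz]) (by
      have m1 := m (-((τ / ‖w‖) • w)) (by rw [norm_neg]; exact s1.le)
      have := h.seg _ my _ m1 z (by
        have := seg_line y w (p := 0) (q := 1) (r := τ / ‖w‖) zero_le_one k
        rwa [← ez, zero_smul, add_zero, ← sub_neg_eq_add] at this)
      linarith [h.nonneg my mz, h.symm _ my _ m1, h.symm _ mz _ m1])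
  exact ⟨u, mem_sphere_zero_iff_norm.1 a, b⟩

theorem dot_le (a u : V) : dot a u ≤ 2 * ‖a‖ * ‖u‖ := by
  have := mul_le_mul (norm_fst_le a) (norm_fst_le u) (norm_nonneg _) (norm_nonneg _)
  have := mul_le_mul (norm_snd_le a) (norm_snd_le u) (norm_nonneg _) (norm_nonneg _)
  simp only [dot, Real.norm_eq_abs, ← abs_mul] at *
  linarith [le_abs_self (a.1 * u.1), le_abs_self (a.2 * u.2)]

noncomputable def aa (M : Set V) (d : V → V → ℝ) (y : V) (ε : ℝ) : ℝ := tt M d y ε (1, 0) / ε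

theorem QC.eqU (h : QC M d a0) {y0 : V} (hy0 : y0 ∈ M) {ι : Type*} {U : Ultrafilter ι}
    {y z : ι → V} {ε : ι → ℝ} (hy : Tendsto y U (𝓝 y0)) (hz : Tendsto z U (𝓝 y0))
    (hε : Tendsto ε U (𝓝[>] 0)) :
    Tendsto (fun i => aa M d (z i) (ε i) - aa M d (y i) (ε i)) U (𝓝 0) ∧
      ∃ C, ∀ᶠ i in U, aa M d (z i) (ε i) ≤ C * (aa M d (y i) (ε i) + ‖z i - y i‖) := by
  obtain ⟨δ, s⟩ := h.exSm hy0
  have d0 := s.d0
  have zy : Tendsto (fun i => z i - y i) U (𝓝 0) := by simpa using hz.sub hy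
  have : ∀ᶠ i in U, ∃ u, ‖u‖ = δ / 2 ∧ d (y i - u) (y i) = d (y i - u) (z i) := by
    filter_upwards [(tendsto_iff_norm_sub_tendsto_zero.1 hy).eventually
      (gt_mem_nhds (half_pos d0)), (tendsto_zero_iff_norm_tendsto_zero.1 zy).eventually
      (gt_mem_nhds (half_pos d0))] with i a b
    refine h.ctr (half_pos d0) (fun u hu => ?_) b.le
    have := s.mem (u - (y i - y0)) (by linarith [norm_sub_le u (y i - y0)])
    rwa [show y0 - (u - (y i - y0)) = y i - u by abel] at this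
  obtain ⟨u, hu⟩ := this.choice
  obtain ⟨u0, s0, hu1⟩ := (isCompact_sphere (0:V) (δ / 2)).ultrafilter_le_nhds' (U.map u)
    (hu.mono fun i a => mem_sphere_zero_iff_norm.2 a.1)
  have hu1 : Tendsto u U (𝓝 u0) := hu1
  rw [mem_sphere_zero_iff_norm] at s0
  have hu0 : u0 ≠ 0 := norm_pos_iff.1 (by linarith)
  have ht : ‖u0‖ < δ := by linarith
  have hx := hy.sub hu1
  have hr := h.tendsto (s.mem u0 ht) hy0 hx hy
  have p := s.pos h.toQM hu0 ht
  have n := s.nr u0 ht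
  set x0 := y0 - u0
  set r0 := d x0 y0
  set x := fun i => y i - u i
  set r := fun i => d (y i - u i) (y i)
  have hu2 : Tendsto (fun i => u i + (z i - y i)) U (𝓝 u0) := by simpa using hu1.add zy
  have ep : ∀ᶠ i in U, 0 < ε i := hε.eventually self_mem_nhdsWithin
  obtain ⟨A, Q, hA, hQ⟩ := parU (m := ε) (fun u hu => h.ss_tendsto n p hu hx hr tendsto_const_nhds)
    (fun u hu => h.ss_tendsto n p hu hx (r_add hr hε) tendsto_const_nhds) fun e he => by
      have e0 := he.ne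
      have m1 := ((n.ok p).1.spec e0).2.1
      obtain ⟨B, sB⟩ := h.shape m1
      obtain ⟨C, hC⟩ := h.ub m1
      have gY := h.YY_tendsto n p e0 hx hr tendsto_const_nhds
      obtain ⟨K, hK⟩ := (((h.ss_tendsto n p e0 hx hr tendsto_const_nhds).mul (h.ss_tendsto n p e0 hx
        (r_add hr hε) tendsto_const_nhds)).div (sB.lim e0 gY hε tendsto_const_nhds)
        (Real.sqrt_pos.2 (sB.1 _ e0)).ne').isBoundedUnder_le
      rw [eventually_map] at hK
      refine ⟨C * K, ?_⟩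
      filter_upwards [hK, (gY.prodMk hε).eventually hC, ep,
        h.Dl_ev n p e0 hx hr tendsto_const_nhds hε] with i a b c ⟨k1, k2, k3, k4⟩
      simp only [Pi.div_apply] at a b
      rw [k4]
      refine ⟨by positivity, le_trans (le_of_eq ?_) (mul_le_mul b a (by positivity)
        (le_trans (by positivity) b))⟩
      generalize ss M d (x i) (r i) e * ss M d (x i) (r i + ε i) e = S
      field_simp
  obtain ⟨B, sB⟩ := h.shape hy0
  set A' := fun i => (ε i)⁻¹ • (lam (ss M d (x i) (r i)) - lam (ss M d (x i) (r i + ε i)))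
  set Q' := fun i => (ε i)⁻¹ • (bet (ss M d (x i) (r i)) - bet (ss M d (x i) (r i + ε i)))
  have sp := (n.ok p).1.sp hu0
  have sp' := (n.ok p).1.sp (neg_ne_zero.2 hu0)
  have key : ∀ (w v : ι → V), Tendsto w U (𝓝 y0) → Tendsto v U (𝓝 u0) →
      (∀ᶠ i in U, x i + v i = w i ∧ d (x i) (w i) = r i) → ∃ ρ : ι → ℝ, Tendsto ρ U
        (𝓝 (√(bf B u0 u0) / (ss M d x0 r0 u0 * (1 + ss M d x0 r0 (-u0))))) ∧
        ∀ᶠ i in U, aa M d (w i) (ε i) = ρ i * (dot (A' i) (v i) + bf (Q' i) (v i) (v i)) := by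
    intro w v hw hv e
    refine ⟨_, (sB.lim hu0 hw hε hv).div ((h.ss_tendsto n p hu0 hx (r_add hr hε) hv).mul
      ((h.ss_tendsto n p (neg_ne_zero.2 hu0) hx (r_add hr hε) hv.neg).const_add 1))
      (by positivity), ?_⟩
    filter_upwards [e, h.Dl_ev n p hu0 hx hr hv hε, n.ev' p hx hr, n.ev' p hx (r_add hr hε),
      hv.eventually_ne hu0, h.ev hy0 hw, ep] with i ⟨e1, e2⟩ ⟨k1, k2, k3, k4⟩ a b c m e0
    have o := h.ss_one a.1 c (e1 ▸ m) (e1 ▸ e2)
    have e3 : YY M d (x i) (r i) (v i) = w i := by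
      rw [YY, inv_eq_one.1 o, one_smul, e1]
    rw [e3] at k1 k2 k4
    have q1 := b.1.sp c
    have q2 := b.1.sp (neg_ne_zero.2 c)
    simp only [Pi.div_apply, A', Q', aa]
    rw [dot_lin, bf_lin, ← (a.2 _ c).1, ← (a.2 _ c).2, ← (b.2 _ c).1, ← (b.2 _ c).2]
    rw [o] at k4 ⊢
    field_simp
    linear_combination (-(1 + ss M d (x i) (r i + ε i) (-v i))) * k4
  obtain ⟨ρ1, a1, a2⟩ := key y u hy hu1 (Eventually.of_forall fun i => ⟨by simp [x], rfl⟩)
  obtain ⟨ρ2, b1, b2⟩ := key z _ hz hu2 (hu.mono fun i a => ⟨by simp only [x]; abel, a.2.symm⟩)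
  have D1 := (dot_tendsto hA hu1).add (bf_tendsto hQ hu1 hu1)
  have D2 := (dot_tendsto hA hu2).add (bf_tendsto hQ hu2 hu2)
  refine ⟨?_, ?_⟩
  · have := (b1.mul D2).sub (a1.mul D1)
    rw [sub_self] at this
    refine this.congr' ?_
    filter_upwards [a2, b2] with i a b
    rw [a, b]
  have r0 : 0 < √(bf B u0 u0) / (ss M d x0 r0 u0 * (1 + ss M d x0 r0 (-u0))) := by
    have := Real.sqrt_pos.2 (sB.1 _ hu0); positivity
  obtain ⟨K1, h1⟩ := (b1.div a1 r0.ne').isBoundedUnder_le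
  have G : Tendsto (fun i => A' i + (bf (Q' i) (u i + (z i - y i) + u i) (1, 0),
      bf (Q' i) (u i + (z i - y i) + u i) (0, 1))) U _ :=
    hA.add ((bf_tendsto hQ (hu2.add hu1) tendsto_const_nhds).prodMk_nhds
      (bf_tendsto hQ (hu2.add hu1) tendsto_const_nhds))
  obtain ⟨K2, h2⟩ := (b1.mul (G.norm.const_mul 2)).isBoundedUnder_le
  rw [eventually_map] at h1 h2
  refine ⟨max K1 K2, ?_⟩
  filter_upwards [a2, b2, h1, h2, a1.eventually (lt_mem_nhds r0), b1.eventually (lt_mem_nhds r0),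
    (h.nr0 hy0).ev0 hy hε] with i a b c e f g o
  have ap : 0 ≤ aa M d (y i) (ε i) := (div_pos (o.1.spec e10).1 o.1.2.1).le
  have := dot_le (A' i + (bf (Q' i) (u i + (z i - y i) + u i) (1, 0),
    bf (Q' i) (u i + (z i - y i) + u i) (0, 1))) (z i - y i)
  have e1 : aa M d (z i) (ε i) = ρ2 i / ρ1 i * aa M d (y i) (ε i) + ρ2 i * dot (A' i +
      (bf (Q' i) (u i + (z i - y i) + u i) (1, 0), bf (Q' i) (u i + (z i - y i) + u i) (0, 1)))
      (z i - y i) := by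
    rw [a, b]
    simp only [dot, bf, Prod.fst_add, Prod.snd_add]
    field_simp; ring
  simp only [Pi.div_apply] at c
  rw [e1, mul_add]
  refine add_le_add (mul_le_mul_of_nonneg_right (c.trans (le_max_left _ _)) ap) ?_
  refine (mul_le_mul_of_nonneg_left this g.le).trans ?_
  rw [← mul_assoc]
  exact mul_le_mul_of_nonneg_right (e.trans (le_max_right _ _)) (norm_nonneg _)

theorem QM.stepA (h : QM M d) {y : V} {T s ε : ℝ} (s0 : 0 < s) (T0 : 0 ≤ T) (e0 : 0 ≤ ε) (hy : y ∈ M)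
    (m : y + T • ((1, 0) : V) ∈ M) (H : ∀ t ∈ Icc 0 T, Gd M d (y + t • (1, 0)) ε ∧
      tt M d (y + t • (1, 0)) ε (1, 0) ≤ s) : (T / s - 1) * ε ≤ d y (y + T • (1, 0)) := by
  refine chain2 (φ := fun t => d y (y + t • (1, 0))) s0 T0 e0 (by simp [h.refl y hy])
    (fun t ht => ?_) fun t a b => ?_
  · linarith [h.add0 hy m ht.1 ht.2, h.nonneg (h.mem0 hy m ht.1 ht.2) m]
  obtain ⟨g, k⟩ := H t ⟨a, by linarith⟩
  have m2 := h.mem0 hy m (by linarith) b
  rw [← h.add0 hy m2 a (by linarith)]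
  rw [add_smul, ← add_assoc] at m2 ⊢
  obtain ⟨a1, a2, a3⟩ := g.spec e10
  linarith [h.add0 g.1 m2 a1.le k, h.nonneg a2 m2]

theorem QM.stepB (h : QM M d) {y : V} {T s ε : ℝ} (s0 : 0 < s) (T0 : 0 ≤ T) (e0 : 0 ≤ ε)
    (H : ∀ t ∈ Icc 0 T, Gd M d (y + t • (1, 0)) ε ∧ s ≤ tt M d (y + t • (1, 0)) ε (1, 0)) :
    d y (y + T • (1, 0)) ≤ (T / s + 1) * ε := by
  have := h.chain (P := fun t => y + t • ((1, 0) : V)) s0 T0 e0 (fun t ht => (H t ht).1.1)
    fun a ha b _ ab k => by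
      have := (h.d_le (H a ha).1 e10 (sub_nonneg.2 ab) (k.trans (H a ha).2)).2
      rwa [add_assoc, ← add_smul, add_sub_cancel] at this
  simpa using this

theorem QC.seg_ev (h : QC M d a0) {y : V} (hy : y ∈ M) {P : V × ℝ → Prop}
    (H : ∀ᶠ p in 𝓝 y ×ˢ 𝓝[>] 0, P p) : ∀ᶠ T in 𝓝[>] (0:ℝ), ∀ᶠ ε in 𝓝[>] (0:ℝ), ∀ t ∈ Icc 0 T,
      Gd M d (y + t • (1, 0)) ε ∧ P (y + t • (1, 0), ε) := by
  obtain ⟨pa, ha, pb, hb, k⟩ := eventually_prod_iff.1
    (H.and ((h.nr0 hy).ev0 tendsto_fst tendsto_snd))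
  obtain ⟨η, η0, hη⟩ := Metric.eventually_nhds_iff.1 ha
  filter_upwards [Ioo_mem_nhdsGT η0] with T hT
  filter_upwards [hb] with ε e t ht
  have := k (hη (y := y + t • (1, 0)) (by
    simp [dist_eq_norm, Prod.norm_def, abs_of_nonneg ht.1, η0]; linarith [ht.2, hT.2])) e
  exact ⟨this.2.1, this.1⟩

theorem QC.lb (h : QC M d a0) {y : V} (hy : y ∈ M) : ∃ c > 0, ∀ᶠ ε in 𝓝[>] (0:ℝ), c ≤ aa M d y ε := by
  have o := (h.nr0 hy).ev0 (l := 𝓝[>] 0) tendsto_const_nhds tendsto_id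
  have ap : ∀ᶠ ε in 𝓝[>] (0:ℝ), 0 < aa M d y ε := o.mono fun ε o =>
    div_pos (o.1.spec e10).1 o.1.2.1
  obtain ⟨C, hC⟩ := bddU (l := 𝓝 y ×ˢ 𝓝[>] (0:ℝ))
    (f := fun p => aa M d p.1 p.2 / (aa M d y p.2 + ‖p.1 - y‖)) fun U hU hT => by
      obtain ⟨C, hC⟩ := (h.eqU hy (y := fun _ => y) tendsto_const_nhds (tendsto_fst.mono_left hU)
        (tendsto_snd.mono_left hU)).2
      obtain ⟨i, ⟨a, b⟩, c⟩ := ((hC.and (hT.eventually_gt_atTop C)).and
        ((tendsto_snd.mono_left hU).eventually ap)).exists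
      rw [lt_div_iff₀ (by positivity)] at b
      linarith
  have K0 : 0 < |C| + 1 := by positivity
  have Td := h.tendsto hy hy tendsto_const_nhds (t_sm y (1, 0))
  rw [h.refl y hy] at Td
  have q0 : 0 < (4 * (|C| + 1))⁻¹ := by positivity
  obtain ⟨T, ⟨⟨a, b⟩, m⟩, T0⟩ := ((((h.seg_ev hy hC).and (Td.eventually (gt_mem_nhds q0))).and
    (h.ev hy (t_sm y (1, 0)))).and self_mem_nhdsWithin).exists
  have T0 : 0 < T := T0
  refine ⟨T, T0, ?_⟩
  filter_upwards [a, ap, Ioo_mem_nhdsGT q0] with ε a p e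
  have e0 := e.1
  have := h.stepA (s := (|C| + 1) * (aa M d y ε + T) * ε) (by positivity) T0.le e0.le hy m
    fun t ht => ⟨(a t ht).1, by
      have k := (a t ht).2
      have n : ‖y + t • ((1, 0) : V) - y‖ = t := by simp [Prod.norm_def, abs_of_nonneg ht.1, ht.1]
      simp only [n] at k
      rw [div_le_iff₀ (by linarith [ht.1]), aa, div_le_iff₀ e0] at k
      refine k.trans ?_
      have := ht.1
      gcongr
      · linarith [le_abs_self C]
      · exact ht.2⟩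
  have k : T / ((|C| + 1) * (aa M d y ε + T)) < (2 * (|C| + 1))⁻¹ := by
    have e1 : (T / ((|C| + 1) * (aa M d y ε + T) * ε) - 1) * ε =
      T / ((|C| + 1) * (aa M d y ε + T)) - ε := by field_simp
    have e2 : (2 * (|C| + 1))⁻¹ = 2 * (4 * (|C| + 1))⁻¹ := by field_simp; ring
    linarith [e.2]
  rw [div_lt_iff₀ (by positivity), show (2 * (|C| + 1))⁻¹ * ((|C| + 1) * (aa M d y ε + T)) =
    (aa M d y ε + T) / 2 by field_simp] at k
  linarith

theorem QC.eqc (h : QC M d a0) {y : V} (hy : y ∈ M) :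
    Tendsto (fun p : V × ℝ => aa M d p.1 p.2 - aa M d y p.2) (𝓝 y ×ˢ 𝓝[>] 0) (𝓝 0) :=
  (tendsto_iff_ultrafilter _ _ _).2 fun _ hU => (h.eqU hy (y := fun _ => y) tendsto_const_nhds
    (tendsto_fst.mono_left hU) (tendsto_snd.mono_left hU)).1

theorem QC.alim (h : QC M d a0) {y : V} (hy : y ∈ M) :
    ∃ a > 0, Tendsto (fun p : V × ℝ => aa M d p.1 p.2) (𝓝 y ×ˢ 𝓝[>] 0) (𝓝 a) := by
  have o := (h.nr0 hy).ev0 (l := 𝓝[>] 0) tendsto_const_nhds tendsto_id
  have k : ∀ η > 0, ∃ c, ∀ᶠ ε in 𝓝[>] (0:ℝ), dist (aa M d y ε) c < 2 * η := fun η η0 => by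
    obtain ⟨T, ⟨a, m⟩, T0⟩ := (((h.seg_ev hy (Metric.tendsto_nhds.1 (h.eqc hy) η η0)).and
      (h.ev hy (t_sm y (1, 0)))).and self_mem_nhdsWithin).exists
    have T0 : 0 < T := T0
    have L0 : 0 < d y (y + T • (1, 0)) := h.pos hy m (by simp [T0.ne'])
    set Λ := d y (y + T • (1, 0))
    have t1 : Tendsto (fun ε : ℝ => T / (Λ + ε)) (𝓝[>] 0) (𝓝 (T / Λ)) := by
      have := (tendsto_const_nhds (x := T)).div (t_id.const_add Λ) (by simpa using L0.ne')
      rwa [add_zero] at this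
    have t2 : Tendsto (fun ε : ℝ => T / (Λ - ε)) (𝓝[>] 0) (𝓝 (T / Λ)) := by
      have := (tendsto_const_nhds (x := T)).div (t_id.const_sub Λ) (by simpa using L0.ne')
      rwa [sub_zero] at this
    refine ⟨T / Λ, ?_⟩
    filter_upwards [a, o, Ioo_mem_nhdsGT L0, t1.eventually (lt_mem_nhds (sub_lt_self _ η0)),
      t2.eventually (gt_mem_nhds (lt_add_of_pos_right _ η0))] with ε a o e b1 b2
    have e0 := e.1
    have ap : 0 < aa M d y ε := div_pos (o.1.spec e10).1 e0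
    have a' : ∀ t ∈ Icc 0 T, (aa M d y ε - η) * ε ≤ tt M d (y + t • (1, 0)) ε (1, 0) ∧
        tt M d (y + t • (1, 0)) ε (1, 0) ≤ (aa M d y ε + η) * ε := fun t ht => by
      have := (a t ht).2
      rw [Real.dist_eq, sub_zero, abs_lt] at this
      rw [← le_div_iff₀ e0, ← div_le_iff₀ e0]
      simp only [aa] at this ⊢
      constructor <;> linarith
    have A := h.stepA (s := (aa M d y ε + η) * ε) (by positivity) T0.le e0.le hy m
      fun t ht => ⟨(a t ht).1, (a' t ht).2⟩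
    have A' : T / (Λ + ε) ≤ aa M d y ε + η := by
      rw [show (T / ((aa M d y ε + η) * ε) - 1) * ε = T / (aa M d y ε + η) - ε by field_simp,
        sub_le_iff_le_add, div_le_iff₀ (by positivity)] at A
      rw [div_le_iff₀ (by positivity)]; linarith
    have B' : aa M d y ε - η ≤ T / (Λ - ε) := by
      have l := sub_pos.2 e.2
      rcases le_or_gt (aa M d y ε - η) 0 with q | q
      · exact q.trans (by positivity)
      have B := h.stepB (s := (aa M d y ε - η) * ε) (by positivity) T0.le e0.le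
        fun t ht => ⟨(a t ht).1, (a' t ht).1⟩
      rw [show (T / ((aa M d y ε - η) * ε) + 1) * ε = T / (aa M d y ε - η) + ε by field_simp,
        ← sub_le_iff_le_add, le_div_iff₀ q] at B
      rw [le_div_iff₀ l]; linarith
    rw [Real.dist_eq, abs_lt]
    constructor <;> linarith
  obtain ⟨a, ha⟩ := cauchy_map_iff_exists_tendsto.1 (show Cauchy (map (aa M d y) (𝓝[>] 0)) from
    Metric.cauchy_iff.2 ⟨inferInstance, fun ε e0 => by
      obtain ⟨c, hc⟩ := k (ε / 4) (by linarith)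
      exact ⟨{t | dist t c < 2 * (ε / 4)}, hc, fun s hs t ht => by
        linarith [dist_triangle_right s t c, show dist s c < _ from hs, show dist t c < _ from ht]⟩⟩)
  obtain ⟨c, c0, hc⟩ := h.lb hy
  exact ⟨a, c0.trans_le (ge_of_tendsto ha hc), by
    simpa using (h.eqc hy).add (ha.comp tendsto_snd)⟩

structure CF (M : Set V) (d : V → V → ℝ) : Prop extends QM M d where
  st : ∀ x ∈ M, ∃ g : ℝ × ℝ × ℝ, (∀ w, w ≠ 0 → 0 < bf g w w) ∧ ∀ w0,
    Tendsto (fun p : V × V × ℝ => d p.1 (p.1 + p.2.2 • p.2.1) / p.2.2) (𝓝 x ×ˢ 𝓝 w0 ×ˢ 𝓝[>] 0)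
      (𝓝 √(bf g w0 w0))

theorem QC.cf (h : QC M d a0) : CF M d := ⟨h.toQM, fun x hx => by
  obtain ⟨B, sB⟩ := h.shape hx
  obtain ⟨a, a0, ha⟩ := h.alim hx
  have eb : ∀ u, bf ((a ^ 2)⁻¹ • B) u u = (a⁻¹) ^ 2 * bf B u u := fun u => by
    simp only [bf, Prod.smul_fst, Prod.smul_snd, smul_eq_mul]; ring
  refine ⟨(a ^ 2)⁻¹ • B, fun w hw => by have := sB.1 w hw; rw [eb]; positivity, fun w0 => ?_⟩
  set F : Filter (V × V × ℝ) := 𝓝 x ×ˢ 𝓝 w0 ×ˢ 𝓝[>] 0
  have f1 : Tendsto (fun p : V × V × ℝ => p.1) F (𝓝 x) := tendsto_fst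
  have f2 : Tendsto (fun p : V × V × ℝ => p.2.1) F (𝓝 w0) := tendsto_fst.comp tendsto_snd
  have f3 : Tendsto (fun p : V × V × ℝ => p.2.2) F (𝓝[>] 0) := tendsto_snd.comp tendsto_snd
  have ep : ∀ᶠ p in F, 0 < p.2.2 := f3.eventually self_mem_nhdsWithin
  have f4 : Tendsto (fun p : V × V × ℝ => p.1 + p.2.2 • p.2.1) F (𝓝 x) := by
    simpa using f1.add ((f3.mono_right nhdsWithin_le_nhds).smul f2)
  by_cases hw : w0 = 0
  · obtain ⟨c, c0, hc⟩ := h.inball hx
    rw [show √(bf ((a ^ 2)⁻¹ • B) w0 w0) = 0 by simp [hw, bf]]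
    refine tendsto_order.2 ⟨fun s hs => ?_, fun s hs => ?_⟩
    · filter_upwards [h.ev hx f1, h.ev hx f4, ep] with p a b e
      exact hs.trans_le (div_nonneg (h.nonneg a b) e.le)
    have f5 : Tendsto (fun p : V × V × ℝ => s / 2 * p.2.2) F (𝓝[>] 0) :=
      tendsto_nhdsWithin_iff.2 ⟨by simpa using (f3.mono_right nhdsWithin_le_nhds).const_mul (s / 2),
        ep.mono fun p e => mul_pos (half_pos hs) e⟩
    filter_upwards [(f1.prodMk f5).eventually hc, ep, (f2.norm.eventually_lt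
      ((ha.comp (f1.prodMk f5)).const_mul (c * (s / 2))) (by simp [hw]; positivity))] with p k e q
    have := (k (p.2.2 • p.2.1) (by
      simp only [Function.comp, aa] at q
      rw [norm_smul, Real.norm_eq_abs, abs_of_pos e]
      refine (mul_le_mul_of_nonneg_left q.le e.le).trans_eq ?_
      field_simp)).2
    rw [div_lt_iff₀ e]
    nlinarith
  have f5 : Tendsto (fun p : V × V × ℝ => d p.1 (p.1 + p.2.2 • p.2.1)) F (𝓝[>] 0) := by
    refine tendsto_nhdsWithin_iff.2 ⟨by simpa [h.refl x hx] using h.tendsto hx hx f1 f4, ?_⟩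
    filter_upwards [h.ev hx f1, h.ev hx f4, ep, f2.eventually_ne hw] with p a b e n
    exact h.pos a b (by simp [e.ne', n])
  rw [eb, Real.sqrt_mul (sq_nonneg _), Real.sqrt_sq (by positivity), inv_mul_eq_div]
  refine ((sB.lim hw f1 f5 f2).div (ha.comp (f1.prodMk f5)) a0.ne').congr' ?_
  filter_upwards [(h.nr0 hx).ev0 f1 f5, h.ev hx f4, ep, f2.eventually_ne hw] with p o m e n
  have := (o.1.spec e10).1
  simp only [Pi.div_apply, Function.comp, aa, h.tt_eq o.1 n e.le m rfl]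
  field_simp⟩

end Pool.Agent.H.MP_deb346_gt
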