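import Pool.Agent.H.MP_deb346_gt.E

set_option autoImplicit false

namespace Pool.Agent.H.MP_deb346_gt

open Set Filter Topology Pool.Agent.H.MP_594704_gt

variable {M : Set V} {d : V → V → ℝ}

theorem CF.ng (h : CF M d) {x : V} (hx : x ∈ M) : ∃ g : ℝ × ℝ × ℝ, (∀ w, w ≠ 0 → 0 < bf g w w) ∧
    (∀ w, N d x w = √(bf g w w)) ∧ ∀ w0,
    Tendsto (fun p : V × V × ℝ => d p.1 (p.1 + p.2.2 • p.2.1) / p.2.2) (𝓝 x ×ˢ 𝓝 w0 ×ˢ 𝓝[>] 0)
      (𝓝 (N d x w0)) := by
  obtain ⟨g, a, b⟩ := h.st x hx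
  have e : ∀ w, N d x w = √(bf g w w) := fun w =>
    Tendsto.limUnder_eq ((b w).comp ((tendsto_const_nhds (x := x)).prodMk
      ((tendsto_const_nhds (x := w)).prodMk tendsto_id)))
  exact ⟨g, a, e, fun w => e w ▸ b w⟩

theorem CF.strong (h : CF M d) {ι : Type*} {l : Filter ι} {y w : ι → V} {x w0 : V}
    {ε : ι → ℝ} (hx : x ∈ M) (hy : Tendsto y l (𝓝 x)) (hw : Tendsto w l (𝓝 w0))
    (hε : Tendsto ε l (𝓝[>] 0)) :
    Tendsto (fun i => d (y i) (y i + ε i • w i) / ε i) l (𝓝 (N d x w0)) := by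
  obtain ⟨g, -, -, b⟩ := h.ng hx
  exact (b w0).comp (hy.prodMk (hw.prodMk hε))

theorem CF.lim (h : CF M d) {x : V} (hx : x ∈ M) (w : V) :
    Tendsto (rr d x w) (𝓝[>] 0) (𝓝 (N d x w)) :=
  h.strong hx tendsto_const_nhds tendsto_const_nhds tendsto_id

theorem CF.N_tendsto (h : CF M d) {ι : Type*} {l : Filter ι} {y w : ι → V}
    {x w0 : V} (hx : x ∈ M) (hy : Tendsto y l (𝓝 x)) (hw : Tendsto w l (𝓝 w0)) :
    Tendsto (fun i => N d (y i) (w i)) l (𝓝 (N d x w0)) := by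
  have T := h.strong (l := l ×ˢ 𝓝[>] 0) hx (hy.comp tendsto_fst) (hw.comp tendsto_fst) tendsto_snd
  rw [Metric.tendsto_nhds] at T ⊢
  intro η η0
  obtain ⟨pa, ha, pb, hb, k⟩ := eventually_prod_iff.1 (T (η / 2) (half_pos η0))
  filter_upwards [ha, h.ev hx hy] with i a m
  exact (le_of_tendsto ((h.lim m (w i)).dist tendsto_const_nhds)
    (hb.mono fun ε e => (k a e).le)).trans_lt (half_lt_self η0)

theorem CF.N_pos (h : CF M d) {x w : V} (hx : x ∈ M) (hw : w ≠ 0) : 0 < N d x w := by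
  obtain ⟨g, a, b, -⟩ := h.ng hx
  rw [b]; exact Real.sqrt_pos.2 (a w hw)

theorem CF.N_nonneg (h : CF M d) {x : V} (hx : x ∈ M) (w : V) : 0 ≤ N d x w := by
  obtain ⟨g, -, b, -⟩ := h.ng hx
  rw [b]; exact Real.sqrt_nonneg _

theorem CF.N_sq (h : CF M d) {x : V} (hx : x ∈ M) (w : V) :
    N d x w ^ 2 = bf (gm d x) w w := by
  obtain ⟨c, a, b, -⟩ := h.ng hx
  have hc : ∀ w, N d x w ^ 2 = bf c w w := fun w => by
    rw [b, Real.sq_sqrt]
    by_cases hw : w = 0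
    · simp [hw, bf]
    · exact (a w hw).le
  simp only [gm, hc, bf]
  ring

theorem CF.two (h : CF M d) {x : V} (hx : x ∈ M) (p q : V) :
    Tendsto (fun ε : ℝ => d (x + ε • p) (x + ε • q) / ε) (𝓝[>] 0) (𝓝 (N d x (q - p))) := by
  have := h.strong hx (t_sm x p) (tendsto_const_nhds (x := q - p)) tendsto_id
  refine this.congr fun ε => ?_
  rw [show x + ε • p + id ε • (q - p) = x + ε • q by simp only [id]; module]
  rfl

theorem CF.N_smul_pos (h : CF M d) {x : V} (hx : x ∈ M) (w : V) {c : ℝ}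
    (hc : 0 < c) : N d x (c • w) = c * N d x w := by
  have t : Tendsto (fun ε : ℝ => ε * c) (𝓝[>] 0) (𝓝[>] 0) := by
    refine tendsto_nhdsWithin_iff.2 ⟨by simpa using t_id.mul_const c, ?_⟩
    filter_upwards [self_mem_nhdsWithin] with ε hε
    exact mul_pos hε hc
  have a := (h.strong hx tendsto_const_nhds (tendsto_const_nhds (x := w)) t).const_mul c
  refine tendsto_nhds_unique (h.lim hx (c • w)) (a.congr' ?_)
  filter_upwards [self_mem_nhdsWithin] with ε hε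
  have : 0 < ε := hε
  simp only [rr, smul_smul]
  field_simp

theorem CF.arc_deriv (h : CF M d) {x v : V} {t : ℝ} (hx : x ∈ M) (ht : 0 ≤ t)
    (hm : x + t • v ∈ M) :
    HasDerivWithinAt (fun s : ℝ => d x (x + s • v)) (N d (x + t • v) v) (Ici t) t := by
  refine right_deriv ((h.lim hm v).congr' ?_)
  filter_upwards [h.ev hm (t_sm _ v), self_mem_nhdsWithin] with ε m hε
  have e0 : 0 < ε := hε
  have e : x + t • v + ε • v = x + (t + ε) • v := by module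
  rw [e] at m
  have := h.add_line (x := x) (v := v) (p := 0) (q := t) (r := t + ε) (by simpa using hx) m ht
    (by linarith)
  rw [zero_smul, add_zero] at this
  rw [rr, e, ← this]
  ring

theorem CF.N_sqrt (h : CF M d) {x : ℝ × ℝ} (hx : x ∈ M) (w : ℝ × ℝ) :
    N d x w = √(bf (gm d x) w w) := by
  rw [← h.N_sq hx, Real.sqrt_sq (h.N_nonneg hx w)]

theorem CF.gm_tendsto (h : CF M d) {ι : Type*} {l : Filter ι} {y : ι → ℝ × ℝ} {x : ℝ × ℝ}
    (hx : x ∈ M) (hy : Tendsto y l (𝓝 x)) : Tendsto (fun i => gm d (y i)) l (𝓝 (gm d x)) := by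
  have t : ∀ w, Tendsto (fun i => N d (y i) w ^ 2) l (𝓝 (N d x w ^ 2)) := fun w =>
    (h.N_tendsto hx hy tendsto_const_nhds).pow 2
  exact (t _).prodMk_nhds (((((t _).sub (t _)).sub (t _)).div_const 2).prodMk_nhds (t _))

theorem CF.fv (h : CF M d) {x y : ℝ × ℝ} (hx : x ∈ M) (hy : y ∈ M) (hxy : y - x ≠ 0) (u : ℝ × ℝ) :
    Tendsto (fun ε : ℝ => (d (x + ε • u) y - d x y) / ε) (𝓝[>] 0) (𝓝 (-cs (gm d x) (y - x) u)) := by
  set v := y - x with hv
  have ey : x + (1:ℝ) • v = y := by simp [hv]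
  unfold cs
  rw [← h.N_sqrt hx]
  set a := N d x v with ha
  have a0 : 0 < a := h.N_pos hx hxy
  set b := bf (gm d x) v u with hb
  set c := bf (gm d x) u u with hc
  have c0 : 0 ≤ c := by rw [hc, ← h.N_sq hx]; exact sq_nonneg _
  have key : ∀ L σ : ℝ, 0 < L → σ ^ 2 = 1 →
      N d x (L • v + σ • u) ≤ L * a + σ * (b / a) + c / (2 * L * a) := by
    intro L σ hL hσ
    have e : N d x (L • v + σ • u) ^ 2 = L ^ 2 * a ^ 2 + 2 * L * σ * b + σ ^ 2 * c := by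
      rw [h.N_sq hx, ha, h.N_sq hx, hb, hc]
      simp only [bf, Prod.fst_add, Prod.snd_add, Prod.smul_fst, Prod.smul_snd, smul_eq_mul]; ring
    have : L * a + σ * (b / a) + c / (2 * L * a) =
        (2 * L ^ 2 * a ^ 2 + 2 * L * σ * b + c) / (2 * L * a) := by field_simp
    rw [this, le_div_iff₀ (by positivity)]
    rw [hσ] at e
    nlinarith [sq_nonneg (N d x (L • v + σ • u) - L * a)]
  have exL : ∀ η : ℝ, 0 < η → ∃ L : ℝ, 0 < L ∧ c / (2 * L * a) < η := fun η hη => by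
    refine ⟨(c + 1) / (η * a), by positivity, ?_⟩
    rw [div_lt_iff₀ (by positivity)]
    have : η * (2 * ((c + 1) / (η * a)) * a) = 2 * (c + 1) := by field_simp
    rw [this]; linarith
  have evL : ∀ L : ℝ, ∀ᶠ ε in 𝓝[>] (0:ℝ), ε * L < 1 := fun L =>
    (t_id.mul_const L).eventually (gt_mem_nhds (by simp))
  rw [tendsto_order]
  constructor
  · intro a' ha'
    obtain ⟨L, L0, hL⟩ := exL (-(b / a) - a') (by linarith)
    have t := (h.two hx (-(L • v)) 0).sub (h.two hx (-(L • v)) u)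
    rw [show (0 : ℝ × ℝ) - -(L • v) = L • v by simp, h.N_smul_pos hx v L0,
      show u - -(L • v) = L • v + (1:ℝ) • u by module] at t
    have k := key L 1 L0 (by norm_num)
    filter_upwards [t.eventually (lt_mem_nhds (a := a') (by linarith)), h.ev hx (t_sm x u),
      h.ev hx (t_sm x (-(L • v))), self_mem_nhdsWithin] with ε e1 m1 m2 hε
    have e0 : 0 < ε := hε
    refine e1.trans_le ?_
    rw [← sub_div]
    refine div_le_div_of_nonneg_right ?_ e0.le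
    have e2 : x + ε • -(L • v) = x + (-(ε * L)) • v := by module
    rw [e2] at m2 ⊢
    have ad := h.add_line m2 (r := 1) (q := 0) (by rwa [ey]) (by nlinarith) zero_le_one
    have tr := h.tri _ m2 _ m1 _ hy
    rw [ey] at ad
    simp only [zero_smul, smul_zero, add_zero] at ad ⊢
    linarith
  · intro a' ha'
    obtain ⟨L, L0, hL⟩ := exL (a' + b / a) (by linarith)
    have t := (h.two hx u (L • v)).sub (h.two hx 0 (L • v))
    rw [sub_zero, h.N_smul_pos hx v L0,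
      show L • v - u = L • v + (-1:ℝ) • u by module] at t
    have k := key L (-1) L0 (by norm_num)
    filter_upwards [t.eventually (gt_mem_nhds (a := a') (by linarith)), h.ev hx (t_sm x u),
      h.ev hx (t_sm x (L • v)), evL L, self_mem_nhdsWithin] with ε e1 m1 m2 e3 hε
    have e0 : 0 < ε := hε
    refine lt_of_le_of_lt ?_ e1
    rw [← sub_div]
    refine div_le_div_of_nonneg_right ?_ e0.le
    have e2 : x + ε • L • v = x + (ε * L) • v := by module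
    rw [e2] at m2 ⊢
    have ad := h.add_line (x := x) (v := v) (p := 0) (r := 1) (q := ε * L) (by simpa using hx)
      (by rwa [ey]) (by positivity) e3.le
    have tr := h.tri _ m1 _ m2 _ hy
    rw [ey] at ad
    simp only [zero_smul, smul_zero, add_zero] at ad ⊢
    linarith

theorem CF.fv_deriv (h : CF M d) {x y u : ℝ × ℝ} {σ : ℝ} (hx : x + σ • u ∈ M) (hy : y ∈ M)
    (hxy : y - (x + σ • u) ≠ 0) : HasDerivWithinAt (fun s : ℝ => d (x + s • u) y)
      (-cs (gm d (x + σ • u)) (y - (x + σ • u)) u) (Ici σ) σ := by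
  refine right_deriv ((h.fv hx hy hxy u).congr fun ε => ?_)
  rw [show x + σ • u + ε • u = x + (σ + ε) • u by module]

theorem CF.mixed (h : CF M d) {x y : ℝ × ℝ} (hx : x ∈ M) (hy : y ∈ M) (hxy : y - x ≠ 0)
    (u : ℝ × ℝ) : Tendsto (fun ε : ℝ => (d (x + ε • u) (y + ε • u) - d (x + ε • u) y -
      d x (y + ε • u) + d x y) / ε ^ 2) (𝓝[>] 0) (𝓝 (-KK (gm d x) (y - x) u)) := by
  set v := y - x with hv
  set K0 := KK (gm d x) v u with hK0
  have p0 : 0 < bf (gm d x) v v := by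
    rw [← h.N_sq hx]; exact pow_pos (h.N_pos hx hxy) 2
  have t1 : Tendsto (fun p : ℝ × ℝ => x + p.1 • u) (𝓝 0) (𝓝 x) :=
    Continuous.tendsto' (by fun_prop) _ _ (by simp)
  have t1' : Tendsto (fun p : ℝ × ℝ => y + p.1 • u) (𝓝 0) (𝓝 y) :=
    Continuous.tendsto' (by fun_prop) _ _ (by simp)
  have t2 : Tendsto (fun p : ℝ × ℝ => v + p.2 • u) (𝓝 0) (𝓝 v) :=
    Continuous.tendsto' (by fun_prop) _ _ (by simp)
  have t3 := (h.gm_tendsto hx t1).prodMk_nhds t2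
  have cb : Continuous fun q : (ℝ × ℝ × ℝ) × ℝ × ℝ => bf q.1 q.2 q.2 := by unfold bf; fun_prop
  have cK : ContinuousAt (fun q : (ℝ × ℝ × ℝ) × ℝ × ℝ => KK q.1 q.2 u) (gm d x, v) := by
    unfold KK
    refine ContinuousAt.div (by unfold bf; fun_prop) (by unfold bf; fun_prop) ?_
    exact (pow_pos (Real.sqrt_pos.2 p0) 3).ne'
  have t4 := cK.tendsto.comp t3
  have t5 := (cb.tendsto (gm d x, v)).comp t3
  rw [Metric.tendsto_nhds]
  intro η hη
  have ev := (Metric.tendsto_nhds.1 t4 (η / 2) (by linarith)).and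
    ((t5.eventually (lt_mem_nhds p0)).and ((h.ev hx t1).and (h.ev hy t1')))
  obtain ⟨δ, δ0, hδ⟩ := Metric.eventually_nhds_iff.1 ev
  have G : ∀ σ ρ : ℝ, |σ| < δ → |ρ| < δ →
      |KK (gm d (x + σ • u)) (v + ρ • u) u - K0| < η / 2 ∧
      0 < bf (gm d (x + σ • u)) (v + ρ • u) (v + ρ • u) ∧ x + σ • u ∈ M ∧ y + σ • u ∈ M := by
    intro σ ρ a b
    exact hδ (y := (σ, ρ)) (by simp [Prod.norm_def, a, b])
  filter_upwards [Ioo_mem_nhdsGT δ0] with ε hε
  have ε0 := hε.1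
  have ab : ∀ σ, 0 ≤ σ → σ ≤ ε → |σ| < δ := fun σ a b => by rw [abs_of_nonneg a]; linarith [hε.2]
  have ab2 : ∀ σ τ, 0 ≤ σ → σ ≤ ε → 0 ≤ τ → τ ≤ ε → |τ - σ| < δ := fun σ τ a b a' b' => by
    rw [abs_lt]; constructor <;> linarith [hε.2]
  have my : y + ε • u ∈ M := (G ε 0 (ab ε ε0.le le_rfl) (by simpa using δ0)).2.2.2
  have mx : x + ε • u ∈ M := (G ε 0 (ab ε ε0.le le_rfl) (by simpa using δ0)).2.2.1
  have ne : ∀ (g : ℝ × ℝ × ℝ) (w : ℝ × ℝ), 0 < bf g w w → w ≠ 0 := by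
    rintro g w a rfl
    simp [bf] at a
  have inner : ∀ σ ∈ Ico 0 ε, ‖-cs (gm d (x + σ • u)) (y + ε • u - (x + σ • u)) u -
      -cs (gm d (x + σ • u)) (y - (x + σ • u)) u + K0 * ε‖ ≤ η / 2 * ε := by
    intro σ hσ
    have ee : ∀ τ : ℝ, y - (x + σ • u) + τ • u = v + (τ - σ) • u := fun τ => by
      rw [hv]; module
    have dd : ∀ τ ∈ Icc 0 ε, HasDerivAt
        (fun t : ℝ => cs (gm d (x + σ • u)) (y - (x + σ • u) + t • u) u - K0 * t)
        (KK (gm d (x + σ • u)) (y - (x + σ • u) + τ • u) u - K0) τ := by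
      intro τ hτ
      refine (cs_deriv _ _ _ τ ?_).sub (by simpa using (hasDerivAt_id τ).const_mul K0)
      rw [ee]
      exact (G σ _ (ab σ hσ.1 hσ.2.le) (ab2 σ τ hσ.1 hσ.2.le hτ.1 hτ.2)).2.1
    have := norm_image_sub_le_of_norm_deriv_right_le_segment (C := η / 2)
      (fun τ hτ => (dd τ hτ).continuousAt.continuousWithinAt)
      (fun τ hτ => (dd τ ⟨hτ.1, hτ.2.le⟩).hasDerivWithinAt) (fun τ hτ => by
        rw [ee]
        exact (G σ _ (ab σ hσ.1 hσ.2.le) (ab2 σ τ hσ.1 hσ.2.le hτ.1 hτ.2.le)).1.le)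
      ε ⟨ε0.le, le_rfl⟩
    rw [show y + ε • u - (x + σ • u) = y - (x + σ • u) + ε • u by abel, ← norm_neg]
    simp only [zero_smul, add_zero, mul_zero, sub_zero] at this
    refine le_of_eq_of_le ?_ this
    congr 1; ring
  have cts : ∀ y' ∈ M, ContinuousOn (fun s : ℝ => d (x + s • u) y') (Icc 0 ε) := by
    intro y' hy'
    refine (h.arc_cont hx hy' mx).congr fun s hs => ?_
    exact h.symm _ (h.mem_line (p := 0) (by simpa using hx) mx hs.1 hs.2) _ hy'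
  have outer := norm_image_sub_le_of_norm_deriv_right_le_segment (C := η / 2 * ε)
    (f := fun s : ℝ => d (x + s • u) (y + ε • u) - d (x + s • u) y + K0 * ε * s)
    (((cts _ my).sub (cts _ hy)).add (by fun_prop))
    (fun σ hσ => by
      have g1 := G σ (ε - σ) (ab σ hσ.1 hσ.2.le) (ab2 σ ε hσ.1 hσ.2.le ε0.le le_rfl)
      have g2 := G σ (0 - σ) (ab σ hσ.1 hσ.2.le) (ab2 σ 0 hσ.1 hσ.2.le le_rfl ε0.le)
      refine ((h.fv_deriv g1.2.2.1 my ?_).sub (h.fv_deriv g1.2.2.1 hy ?_)).add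
        (by simpa using ((hasDerivAt_id σ).const_mul (K0 * ε)).hasDerivWithinAt)
      · rw [show y + ε • u - (x + σ • u) = v + (ε - σ) • u by rw [hv]; module]
        exact ne _ _ g1.2.1
      · rw [show y - (x + σ • u) = v + (0 - σ) • u by rw [hv]; module]
        exact ne _ _ g2.2.1) inner ε ⟨ε0.le, le_rfl⟩
  simp only [zero_smul, add_zero, mul_zero, sub_zero, Real.norm_eq_abs] at outer
  rw [Real.dist_eq]
  have e : (d (x + ε • u) (y + ε • u) - d (x + ε • u) y - d x (y + ε • u) + d x y) / ε ^ 2 - -K0 =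
      (d (x + ε • u) (y + ε • u) - d (x + ε • u) y + K0 * ε * ε -
        (d x (y + ε • u) - d x y)) / ε ^ 2 := by field_simp; ring
  rw [e, abs_div, abs_of_pos (pow_pos ε0 2), div_lt_iff₀ (pow_pos ε0 2)]
  nlinarith [mul_pos hη (pow_pos ε0 2)]

theorem CF.KK_eq (h : CF M d) {x y : ℝ × ℝ} (hx : x ∈ M) (hy : y ∈ M) (hxy : y - x ≠ 0)
    (u : ℝ × ℝ) : KK (gm d x) (y - x) u = KK (gm d y) (y - x) u := by
  have a := h.mixed hx hy hxy u
  have b := h.mixed hy hx (by rw [← neg_sub]; exact neg_ne_zero.2 hxy) u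
  have e : KK (gm d y) (x - y) u = KK (gm d y) (y - x) u := by
    have e1 : bf (gm d y) (x - y) (x - y) = bf (gm d y) (y - x) (y - x) := by
      simp only [bf, Prod.fst_sub, Prod.snd_sub]; ring
    have e2 : bf (gm d y) (x - y) u ^ 2 = bf (gm d y) (y - x) u ^ 2 := by
      simp only [bf, Prod.fst_sub, Prod.snd_sub]; ring
    unfold KK
    rw [e1, e2]
  rw [e] at b
  refine neg_injective (tendsto_nhds_unique a (b.congr' ?_))
  filter_upwards [h.ev hx (t_sm x u), h.ev hy (t_sm y u)] with ε m1 m2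
  rw [h.symm _ m2 _ m1, h.symm _ m2 _ hx, h.symm _ hy _ m1, h.symm _ hy _ hx]
  ring

theorem CF.dt_pos (h : CF M d) {x : ℝ × ℝ} (hx : x ∈ M) : 0 < dt (gm d x) := by
  have p : ∀ w : ℝ × ℝ, w ≠ 0 → 0 < bf (gm d x) w w := fun w hw => by
    rw [← h.N_sq hx]; exact pow_pos (h.N_pos hx hw) 2
  have a := p (1, 0) (by simp)
  simp only [bf] at a
  have b := p (-(gm d x).2.1, (gm d x).1) (by
    intro e
    have := congrArg Prod.snd e
    simp at this; linarith)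
  simp only [bf] at b
  unfold dt
  nlinarith

theorem CF.dt_eq (h : CF M d) {x y : ℝ × ℝ} (hx : x ∈ M) (hy : y ∈ M) (hxy : y - x ≠ 0) :
    dt (gm d x) / N d x (y - x) ^ 3 = dt (gm d y) / N d y (y - x) ^ 3 := by
  have k := h.KK_eq hx hy hxy (-(y - x).2, (y - x).1)
  unfold KK at k
  rw [← h.N_sqrt hx, ← h.N_sqrt hy] at k
  set v := y - x
  have uu : 0 < v.1 ^ 2 + v.2 ^ 2 := by
    by_contra hn
    apply hxy
    ext <;> simp <;> nlinarith [sq_nonneg v.1, sq_nonneg v.2]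
  have e : ∀ g : ℝ × ℝ × ℝ, bf g (-v.2, v.1) (-v.2, v.1) * bf g v v - bf g v (-v.2, v.1) ^ 2 =
      (v.1 ^ 2 + v.2 ^ 2) ^ 2 * dt g := fun g => by simp only [bf, dt]; ring
  rw [e, e, mul_div_assoc, mul_div_assoc] at k
  exact mul_left_cancel₀ (pow_pos uu 2).ne' k

theorem CF.dl_pos (h : CF M d) {x : ℝ × ℝ} (hx : x ∈ M) : 0 < dl d x :=
  Real.rpow_pos_of_pos (h.dt_pos hx) _

theorem CF.dl_cube (h : CF M d) {x : ℝ × ℝ} (hx : x ∈ M) : dl d x ^ 3 * dt (gm d x) = 1 := by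
  have := h.dt_pos hx
  unfold dl
  rw [← Real.rpow_natCast, ← Real.rpow_mul this.le]
  norm_num
  rw [Real.rpow_neg_one, inv_mul_cancel₀ this.ne']

theorem CF.dt_hm (h : CF M d) {x : ℝ × ℝ} (hx : x ∈ M) : dt (hm d x) = dl d x := by
  have := h.dl_cube hx
  simp only [dt, hm, Prod.smul_fst, Prod.smul_snd, smul_eq_mul] at this ⊢
  linear_combination (dl d x) * this

theorem CF.hm_eq (h : CF M d) {x y : ℝ × ℝ} (hx : x ∈ M) (hy : y ∈ M) :
    bf (hm d x) (y - x) (y - x) = bf (hm d y) (y - x) (y - x) := by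
  by_cases hxy : y - x = 0
  · simp [hxy, bf]
  have k := h.dt_eq hx hy hxy
  have nx := h.N_pos hx hxy
  have ny := h.N_pos hy hxy
  have cx := h.dl_cube hx
  have cy := h.dl_cube hy
  rw [div_eq_div_iff (by positivity) (by positivity)] at k
  have e : (dl d x * N d x (y - x)) ^ 3 = (dl d y * N d y (y - x)) ^ 3 := by
    linear_combination (-(dl d x ^ 3 * dl d y ^ 3)) * k + (dl d y ^ 3 * N d y (y - x) ^ 3) * cx -
      (dl d x ^ 3 * N d x (y - x) ^ 3) * cy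
  have e2 := (pow_left_inj₀ (mul_pos (h.dl_pos hx) nx).le (mul_pos (h.dl_pos hy) ny).le
    (by norm_num)).1 e
  rw [bf_hm, bf_hm, ← h.N_sq hx, ← h.N_sq hy, ← mul_pow, ← mul_pow, e2]

theorem CF.hm_tendsto (h : CF M d) {ι : Type*} {l : Filter ι} {y : ι → ℝ × ℝ} {x : ℝ × ℝ}
    (hx : x ∈ M) (hy : Tendsto y l (𝓝 x)) : Tendsto (fun i => hm d (y i)) l (𝓝 (hm d x)) := by
  have t := h.gm_tendsto hx hy
  have c : Continuous dt := by unfold dt; fun_prop
  have t2 := ((c.tendsto _).comp t).rpow_const (p := -(1 / 3)) (Or.inl (h.dt_pos hx).ne')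
  exact (t2.pow 2).smul t

theorem CF.quad (h : CF M d) (h0 : (0 : ℝ × ℝ) ∈ M) :
    ∃ α β γ : ℝ, ∀ x ∈ M, hm d x = qf (hm d 0) α β γ x := by
  obtain ⟨ρ, ⟨m1, m2⟩, ρ0⟩ := (((h.ev h0 (t_sm 0 (1, 0))).and (h.ev h0 (t_sm 0 (0, 1)))).and
    self_mem_nhdsWithin).exists
  have ρ0 : 0 < ρ := ρ0
  have m1 : ((ρ, 0) : ℝ × ℝ) ∈ M := by simpa using m1
  have m2 : ((0, ρ) : ℝ × ℝ) ∈ M := by simpa using m2
  have r1 := h.hm_eq h0 m1
  have r2 := h.hm_eq h0 m2
  have r3 := h.hm_eq m1 m2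
  set H0 := hm d 0 with hH0
  set H1 := hm d (ρ, 0) with hH1
  set H2 := hm d (0, ρ) with hH2
  simp only [bf, Prod.fst_sub, Prod.snd_sub, Prod.fst_zero, Prod.snd_zero] at r1 r2 r3
  have s1 : H0.1 = H1.1 := mul_right_cancel₀ (pow_pos ρ0 2).ne' (by linarith)
  have s2 : H0.2.2 = H2.2.2 := mul_right_cancel₀ (pow_pos ρ0 2).ne' (by linarith)
  have s3 : H1.1 - 2 * H1.2.1 + H1.2.2 = H2.1 - 2 * H2.2.1 + H2.2.2 :=
    mul_right_cancel₀ (pow_pos ρ0 2).ne' (by linarith)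
  set α := (H1.2.1 - H0.2.1) / ρ with hα
  set β := (H0.2.1 - H2.2.1) / ρ with hβ
  set γ := (H1.2.2 - H0.2.2 - 2 * β * ρ) / ρ ^ 2 with hγ
  have aρ : α * ρ = H1.2.1 - H0.2.1 := by rw [hα]; field_simp
  have bρ : β * ρ = H0.2.1 - H2.2.1 := by rw [hβ]; field_simp
  have gρ : γ * ρ ^ 2 = H1.2.2 - H0.2.2 - 2 * β * ρ := by rw [hγ]; field_simp
  have q0 : hm d 0 = qf H0 α β γ 0 := by simp [qf, hH0]
  have q1 : hm d (ρ, 0) = qf H0 α β γ (ρ, 0) := by
    refine Prod.ext ?_ (Prod.ext ?_ ?_) <;> simp only [qf, ← hH1] <;> linarith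
  have q2 : hm d (0, ρ) = qf H0 α β γ (0, ρ) := by
    refine Prod.ext ?_ (Prod.ext ?_ ?_) <;> simp only [qf, ← hH2] <;> linarith
  have z : ∀ a ∈ M, hm d a = qf H0 α β γ a → ∀ x ∈ M,
      bf (hm d x) (x - a) (x - a) - bf (qf H0 α β γ x) (x - a) (x - a) = 0 := by
    intro a ha e x hx
    rw [← h.hm_eq ha hx, e]
    simp only [bf, qf, Prod.fst_sub, Prod.snd_sub]; ring
  have gen : ∀ x ∈ M, x.1 ≠ 0 → x.2 ≠ 0 → x.1 + x.2 - ρ ≠ 0 → hm d x = qf H0 α β γ x := by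
    intro x hx a1 a2 a3
    have z0 := z _ h0 q0 x hx
    have z1 := z _ m1 q1 x hx
    have z2 := z _ m2 q2 x hx
    generalize qf H0 α β γ x = Q at z0 z1 z2 ⊢
    generalize hm d x = H at z0 z1 z2 ⊢
    simp only [bf, Prod.fst_sub, Prod.snd_sub, Prod.fst_zero, Prod.snd_zero, sub_zero] at z0 z1 z2
    have nz : ρ ^ 2 * x.1 * x.2 * (x.1 + x.2 - ρ) ≠ 0 :=
      mul_ne_zero (mul_ne_zero (mul_ne_zero (pow_pos ρ0 2).ne' a1) a2) a3
    have w : ∀ w1 w2 : ℝ, (H.1 - Q.1) * w1 ^ 2 + 2 * (H.2.1 - Q.2.1) * w1 * w2 +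
        (H.2.2 - Q.2.2) * w2 ^ 2 = 0 := by
      intro w1 w2
      refine mul_left_cancel₀ nz ?_
      linear_combination
        (-(w1 * x.2 - w2 * (x.1 - ρ)) * (w1 * (x.2 - ρ) - w2 * x.1) * (x.1 + x.2 - ρ)) * z0 +
        ((w1 * x.2 - w2 * x.1) * (w1 * (x.2 - ρ) - w2 * x.1) * x.1) * z1 +
        ((w1 * x.2 - w2 * x.1) * (w1 * x.2 - w2 * (x.1 - ρ)) * x.2) * z2
    have w1 := w 1 0
    have w2 := w 0 1
    have w3 := w 1 1
    refine Prod.ext ?_ (Prod.ext ?_ ?_) <;> linarith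
  refine ⟨α, β, γ, fun x hx => ?_⟩
  have t := t_sm x ((1, 1) : ℝ × ℝ)
  have cq : Continuous (qf H0 α β γ) := by unfold qf; fun_prop
  refine tendsto_nhds_unique (h.hm_tendsto hx t) (((cq.tendsto x).comp t).congr' ?_)
  filter_upwards [h.ev hx t, ev_ne x.1 1 one_ne_zero, ev_ne x.2 1 one_ne_zero,
    ev_ne (x.1 + x.2 - ρ) 2 two_ne_zero] with ε m a1 a2 a3
  refine (gen _ m (by simpa using a1) (by simpa using a2) ?_).symm
  intro e
  apply a3
  simp at e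
  linarith

theorem CF.segdata (h : CF M d) {H : ℝ × ℝ × ℝ} {α β γ : ℝ} (hq : ∀ x ∈ M, hm d x = qf H α β γ x)
    {x y : ℝ × ℝ} (hx : x ∈ M) (hy : y ∈ M) :
    ∃ (s : ℝ → ℝ) (A c1 c2 : ℝ), ContinuousOn s (Icc 0 1) ∧ s 0 = 0 ∧ s 1 = d x y ∧
      (∀ t ∈ Ico (0:ℝ) 1, HasDerivWithinAt s (A / (om H α β γ x x + 2 * c1 * t + c2 * t ^ 2))
        (Ici t) t) ∧ 0 ≤ A ∧ A ^ 2 = bf (qf H α β γ x) (y - x) (y - x) ∧
      (∀ t ∈ Icc (0:ℝ) 1, 0 < om H α β γ x x + 2 * c1 * t + c2 * t ^ 2) ∧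
      om H α β γ x x * c2 - c1 ^ 2 = kp H α β γ * A ^ 2 ∧
      om H α β γ x x + c1 = om H α β γ x y ∧ om H α β γ x x + 2 * c1 + c2 = om H α β γ y y ∧
      (x ≠ y → 0 < A) := by
  have ey : x + (1:ℝ) • (y - x) = y := by simp
  have m : ∀ t ∈ Icc (0:ℝ) 1, x + t • (y - x) ∈ M := fun t ht =>
    h.mem_line (p := 0) (r := 1) (by simpa using hx) (by rwa [ey]) ht.1 ht.2
  have A2 : (dl d x * N d x (y - x)) ^ 2 = bf (qf H α β γ x) (y - x) (y - x) := by
    rw [← hq x hx, bf_hm, mul_pow, h.N_sq hx]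
  have dlq : ∀ t ∈ Icc (0:ℝ) 1, dl d (x + t • (y - x)) =
      om H α β γ x x + 2 * (om H α β γ x y - om H α β γ x x) * t +
        (om H α β γ y y - 2 * om H α β γ x y + om H α β γ x x) * t ^ 2 := by
    intro t ht
    rw [← h.dt_hm (m t ht), hq _ (m t ht)]
    simp only [dt, qf, om, Prod.fst_add, Prod.snd_add, Prod.smul_fst, Prod.smul_snd, smul_eq_mul,
      Prod.fst_sub, Prod.snd_sub]
    ring
  refine ⟨fun t => d x (x + t • (y - x)), dl d x * N d x (y - x),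
    om H α β γ x y - om H α β γ x x, om H α β γ y y - 2 * om H α β γ x y + om H α β γ x x,
    h.arc_cont hx hx (by rwa [ey]), by simp [h.refl x hx], by simp, fun t ht => ?_,
    mul_nonneg (h.dl_pos hx).le (h.N_nonneg hx _), A2,
    fun t ht => dlq t ht ▸ h.dl_pos (m t ht), ?_, by ring, by ring, fun hxy =>
      mul_pos (h.dl_pos hx) (h.N_pos hx (sub_ne_zero.2 hxy.symm))⟩
  · have mt := m t ⟨ht.1, ht.2.le⟩
    refine (h.arc_deriv hx ht.1 mt).congr_deriv ?_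
    rw [← dlq t ⟨ht.1, ht.2.le⟩, eq_div_iff (h.dl_pos mt).ne']
    have e : (N d (x + t • (y - x)) (y - x) * dl d (x + t • (y - x))) ^ 2 =
        (dl d x * N d x (y - x)) ^ 2 := by
      rw [A2, mul_pow, h.N_sq mt, mul_comm, ← bf_hm, hq _ mt]
      simp only [bf, qf, Prod.fst_add, Prod.snd_add, Prod.smul_fst, Prod.smul_snd, smul_eq_mul,
        Prod.fst_sub, Prod.snd_sub]
      ring
    exact (pow_left_inj₀ (mul_nonneg (h.N_nonneg mt _) (h.dl_pos mt).le)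
      (mul_nonneg (h.dl_pos hx).le (h.N_nonneg hx _)) two_ne_zero).1 e
  · rw [A2]
    simp only [bf, qf, om, kp, dt, Prod.fst_sub, Prod.snd_sub]
    ring

end Pool.Agent.H.MP_deb346_gt
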