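import Pool.Agent.H.MP_deb346_gt.F

set_option autoImplicit false

namespace Pool.Agent.H.MP_deb346_gt

open Set Filter Topology Pool.Agent.H.MP_594704_gt

variable {M : Set V} {d : V → V → ℝ}

abbrev EE := EuclideanSpace ℝ (Fin 3)

theorem cos_at {c0 c1 c2 ρ : ℝ} (r0 : 0 < ρ) (a0 : 0 < c0) (hk : c0 * c2 - c1 ^ 2 = ρ ^ 2) :
    Real.cos (Real.arctan ((c1 + c2) / ρ) - Real.arctan (c1 / ρ)) =
      (c0 + c1) / √(c0 * (c0 + 2 * c1 + c2)) := by
  have c20 : 0 < c2 := by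
    by_contra hn
    push Not at hn
    nlinarith [mul_nonneg a0.le (neg_nonneg.2 hn), pow_pos r0 2, sq_nonneg c1]
  have e1 : 1 + ((c1 + c2) / ρ) ^ 2 = c2 / ρ ^ 2 * (c0 + 2 * c1 + c2) := by
    field_simp; linear_combination -hk
  have e2 : 1 + (c1 / ρ) ^ 2 = c2 / ρ ^ 2 * c0 := by field_simp; linear_combination -hk
  have p : 0 < c0 + 2 * c1 + c2 := by
    have : 0 < c2 / ρ ^ 2 * (c0 + 2 * c1 + c2) := by rw [← e1]; positivity
    exact (pos_iff_pos_of_mul_pos this).1 (by positivity)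
  have q : 0 < c2 / ρ ^ 2 := by positivity
  rw [Real.cos_sub, Real.cos_arctan, Real.cos_arctan, Real.sin_arctan, Real.sin_arctan, e1, e2,
    Real.sqrt_mul q.le, Real.sqrt_mul q.le, Real.sqrt_mul a0.le]
  have s := Real.sq_sqrt q.le
  have := Real.sqrt_pos.2 q
  have := Real.sqrt_pos.2 p
  have := Real.sqrt_pos.2 a0
  field_simp
  rw [s]
  field_simp
  linear_combination -hk

theorem at_deriv {c0 c1 c2 κ A t : ℝ} (k0 : 0 < κ) (hA : 0 < A) (a0 : 0 < c0)
    (hk : c0 * c2 - c1 ^ 2 = κ * A ^ 2) (hp : 0 < c0 + 2 * c1 * t + c2 * t ^ 2) : HasDerivAt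
      (fun t => (Real.arctan ((c1 + c2 * t) / (√κ * A)) - Real.arctan (c1 / (√κ * A))) / √κ)
      (A / (c0 + 2 * c1 * t + c2 * t ^ 2)) t := by
  have s0 : 0 < √κ := Real.sqrt_pos.2 k0
  have s2 : √κ ^ 2 = κ := Real.sq_sqrt k0.le
  have c20 : 0 < c2 := by
    by_contra hn
    push Not at hn
    nlinarith [mul_nonneg a0.le (neg_nonneg.2 hn), mul_pos k0 (pow_pos hA 2), sq_nonneg c1]
  have := ((((((hasDerivAt_id t).const_mul c2).const_add c1).div_const (√κ * A)).arctan).sub_const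
    (Real.arctan (c1 / (√κ * A)))).div_const √κ
  refine this.congr_deriv ?_
  simp only [id_eq, mul_one]
  have e : 1 + ((c1 + c2 * t) / (√κ * A)) ^ 2 =
      c2 * (c0 + 2 * c1 * t + c2 * t ^ 2) / (√κ * A) ^ 2 := by
    field_simp
    rw [s2]
    linear_combination -hk
  rw [e]
  field_simp

theorem CF.shift (h : CF M d) (o : V) : CF {x | o + x ∈ M} fun a b => d (o + a) (o + b) where
  op := h.op.preimage (by fun_prop)
  cv := h.cv.translate_preimage_right o
  refl := fun _ hx => h.refl _ hx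
  symm := fun _ hx _ hy => h.symm _ hx _ hy
  sep := fun _ hx _ hy e => add_left_cancel (h.sep _ hx _ hy e)
  tri := fun _ hx _ hy _ hz => h.tri _ hx _ hy _ hz
  cont := h.cont.comp (f := fun p : V × V => (o + p.1, o + p.2)) (by fun_prop) fun _ hp => hp
  seg := fun _ hx _ hz _ hy => h.seg _ hx _ hz _ ((mem_segment_translate ℝ o).2 hy)
  st := fun x hx => by
    obtain ⟨g, a, b⟩ := h.st _ hx
    refine ⟨g, a, fun w => ?_⟩
    simpa only [Function.comp_def, add_assoc] using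
      (b w).comp ((tendsto_fst.const_add o).prodMk tendsto_snd)

theorem CF.quad' (h : CF M d) {o : V} (ho : o ∈ M) :
    ∃ (H : ℝ × ℝ × ℝ) (α β γ : ℝ), ∀ x ∈ M, hm d x = qf H α β γ x := by
  obtain ⟨α, β, γ, hq⟩ := (h.shift o).quad (by simpa using ho)
  generalize hm (fun a b => d (o + a) (o + b)) 0 = H at hq
  refine ⟨qf H α β γ (-o), α + γ * o.2, β - γ * o.1, γ, fun x hx => ?_⟩
  have := hq (x - o) (by simpa using hx)
  have e : ∀ w, N (fun a b => d (o + a) (o + b)) (x - o) w = N d x w := fun w => by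
    simp only [N]; congr 1; ext ε; simp only [rr, ← add_assoc, add_sub_cancel]
  simp only [hm, dl, gm, e] at this ⊢
  rw [this]
  simp only [qf, Prod.fst_sub, Prod.snd_sub, Prod.fst_neg, Prod.snd_neg, Prod.mk.injEq]
  refine ⟨by ring, by ring, by ring⟩

theorem CF.nf (h : CF M d) (h0 : (0:V) ∈ M) (α β γ : ℝ) : ∃ l : V,
    (∀ x, om (hm d 0) α β γ 0 x = dl d 0 * (1 + dot l x)) ∧ ∀ x y, om (hm d 0) α β γ x y =
      dl d 0 * ((1 + dot l x) * (1 + dot l y) + kp (hm d 0) α β γ * bf (gm d 0) x y) := by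
  set H := hm d 0
  set δ := dl d 0
  have δ0 : 0 < δ := h.dl_pos h0
  have dH : dt H = δ := h.dt_hm h0
  have bH : ∀ x y, bf H x y = δ ^ 2 * bf (gm d 0) x y := fun x y => bf_hm 0 x y
  have oa : ∀ x, om H α β γ 0 x =
      δ * (1 + dot ((β * H.1 - α * H.2.1) / δ, (β * H.2.1 - α * H.2.2) / δ) x) := fun x => by
    simp only [om, dot, dH, Prod.fst_zero, Prod.snd_zero]
    field_simp
    ring
  refine ⟨_, oa, fun x y => mul_left_cancel₀ δ0.ne' ?_⟩
  have : dt H * om H α β γ x y = om H α β γ 0 x * om H α β γ 0 y + kp H α β γ * bf H x y := by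
    simp only [om, kp, dt, bf, Prod.fst_zero, Prod.snd_zero]; ring
  rw [dH, oa, oa, bH] at this
  rw [this]; ring

theorem mkT {g : ℝ × ℝ × ℝ} (p : ∀ w, w ≠ 0 → 0 < bf g w w) (l : V) {k : ℝ} (k0 : 0 < k) :
    ∃ (T : (V × ℝ) ≃ₗ[ℝ] EE) (S : V ≃ₗ[ℝ] V), (∀ x y, dot (S x) (S y) = k ^ 2 * bf g x y) ∧
      ∀ x c, T (x, c) = !₂[(S x).1, (S x).2, c + dot l x] := by
  have a : 0 < g.1 := by simpa [bf] using p _ e10
  have b : 0 < g.2.2 - g.2.1 ^ 2 / g.1 := by
    have := p (-g.2.1 / g.1, 1) (by simp)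
    simp only [bf] at this
    refine this.trans_eq ?_
    field_simp; ring
  let S0 : V →ₗ[ℝ] V :=
    { toFun := fun x => (k * (√g.1 * x.1 + g.2.1 / √g.1 * x.2), k * √(g.2.2 - g.2.1 ^ 2 / g.1) * x.2)
      map_add' := fun x y => by ext <;> simp <;> ring
      map_smul' := fun c x => by ext <;> simp <;> ring }
  have e : ∀ x y, dot (S0 x) (S0 y) = k ^ 2 * bf g x y := fun x y => by
    have s1 := Real.sq_sqrt a.le
    have s2 := Real.sq_sqrt b.le
    have := Real.sqrt_pos.2 a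
    simp only [S0, dot, bf, LinearMap.coe_mk, AddHom.coe_mk]
    generalize √(g.2.2 - g.2.1 ^ 2 / g.1) = r at s2
    generalize √g.1 = s at s1 this
    rw [← s1] at s2 ⊢
    have : g.2.2 = r ^ 2 + g.2.1 ^ 2 / s ^ 2 := by linarith
    rw [this]
    field_simp; ring
  have i : ∀ x, S0 x = 0 → x = 0 := fun x hx => by
    by_contra hn
    have := mul_pos (pow_pos k0 2) (p x hn)
    rw [← e, hx] at this
    simp [dot] at this
  let T0 : (V × ℝ) →ₗ[ℝ] EE :=
    { toFun := fun q => !₂[(S0 q.1).1, (S0 q.1).2, q.2 + dot l q.1]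
      map_add' := fun x y => by
        ext i; fin_cases i <;> simp [dot]
        ring
      map_smul' := fun c x => by
        ext i; fin_cases i <;> simp [dot]
        ring }
  refine ⟨T0.linearEquivOfInjective ((injective_iff_map_eq_zero T0).2 fun q hq => ?_) (by simp),
    S0.linearEquivOfInjective ((injective_iff_map_eq_zero S0).2 i) rfl, e, fun x c => rfl⟩
  have a0 := congrArg (fun z : EE => z 0) hq
  have a1 := congrArg (fun z : EE => z 1) hq
  have a2 := congrArg (fun z : EE => z 2) hq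
  simp [T0] at a0 a1 a2
  have := i q.1 (Prod.ext a0 a1)
  rw [this] at a2
  exact Prod.ext this (by simpa [dot] using a2)

def Cpl (M : Set V) (d : V → V → ℝ) : Prop :=
  ∀ u : ℕ → V, (∀ n, u n ∈ M) → (∀ ε > 0, ∃ N, ∀ m ≥ N, ∀ n ≥ N, d (u m) (u n) < ε) →
    ∃ x ∈ M, Tendsto (fun n => d x (u n)) atTop (𝓝 0)

theorem QM.near (h : QM M d) {p : V} (hp : p ∈ M) {u : ℕ → V} (hu : ∀ n, u n ∈ M)
    (T : Tendsto (fun n => d p (u n)) atTop (𝓝 0)) : Tendsto u atTop (𝓝 p) := by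
  refine Metric.tendsto_nhds.2 fun η η0 => ?_
  obtain ⟨R, R0, hR⟩ := Metric.nhds_basis_closedBall.mem_iff.1
    (inter_mem (h.op.mem_nhds hp) (Metric.ball_mem_nhds p η0))
  have m : ∀ z ∈ Metric.sphere p R, z ∈ M := fun z hz => (hR (Metric.sphere_subset_closedBall hz)).1
  obtain ⟨ρ, r0, hρ⟩ := (isCompact_sphere p R).exists_forall_le' (f := fun z => d p z) (a := 0)
    (h.cont.comp (f := fun z => (p, z)) (by fun_prop) fun z hz => ⟨hp, m z hz⟩)
    fun z hz => h.pos hp (m z hz) (by rintro rfl; simp at hz; linarith)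
  filter_upwards [T.eventually (gt_mem_nhds r0)] with n hn
  refine (hR ?_).2
  by_contra hc
  rw [mem_closedBall_iff_norm, not_le] at hc
  have n0 : 0 < ‖u n - p‖ := by linarith
  have s : p + (R / ‖u n - p‖) • (u n - p) ∈ Metric.sphere p R := by
    rw [mem_sphere_iff_norm, add_sub_cancel_left, norm_smul, Real.norm_eq_abs,
      abs_of_pos (by positivity)]
    field_simp
  have := h.add0 (v := u n - p) (r := 1) hp (by simpa using hu n) (q := R / ‖u n - p‖)
    (by positivity) ((div_le_one n0).2 hc.le)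
  simp only [one_smul, add_sub_cancel] at this
  linarith [hρ _ s, h.nonneg (m _ s) (hu n)]

theorem QM.ray (h : QM M d) (cp : Cpl M d) {x z : V} (hx : x ∈ M) (hz : z ≠ 0) {r : ℝ} (r0 : 0 < r) :
    ∃ t : ℝ, 0 < t ∧ x + t • z ∈ M ∧ d x (x + t • z) = r := by
  obtain ⟨t, t0, m, e⟩ : ∃ t : ℝ, 0 ≤ t ∧ x + t • z ∈ M ∧ r < d x (x + t • z) := by
    by_contra hn
    push Not at hn
    set S := {t : ℝ | 0 ≤ t ∧ x + t • z ∈ M}
    set D := fun t : ℝ => d x (x + t • z)
    have bd : BddAbove (D '' S) := ⟨r, by rintro _ ⟨t, ht, rfl⟩; exact hn t ht.1 ht.2⟩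
    have ne : (D '' S).Nonempty := ⟨_, 0, ⟨le_rfl, by simpa using hx⟩, rfl⟩
    obtain ⟨u, -, hu, mu⟩ := exists_seq_tendsto_sSup ne bd
    choose t ht e using mu
    obtain ⟨p, hp, T⟩ := cp (fun n => x + t n • z) (fun n => (ht n).2) (fun ε e0 => by
      obtain ⟨N, hN⟩ := Metric.cauchySeq_iff.1 hu.cauchySeq ε e0
      refine ⟨N, fun m hm n hn => lt_of_le_of_lt ?_ (hN m hm n hn)⟩
      rw [Real.dist_eq, ← e, ← e]
      simp only [D]
      rcases le_total (t m) (t n) with a | a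
      · rw [← h.add0 hx (ht n).2 (ht m).1 a, abs_sub_comm]; simp [le_abs_self]
      · rw [← h.add0 hx (ht m).2 (ht n).1 a, h.symm _ (ht m).2 _ (ht n).2]; simp [le_abs_self])
    have T2 := h.near hp (fun n => (ht n).2) T
    have cl : IsClosed ((fun s : ℝ => x + s • z) '' Ici 0) :=
      ((Homeomorph.addLeft x).isClosedEmbedding.comp (isClosedEmbedding_smul_left hz)).isClosedMap _
        isClosed_Ici
    obtain ⟨s, s0, rfl⟩ := cl.mem_of_tendsto T2 (Eventually.of_forall fun n => ⟨t n, (ht n).1, rfl⟩)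
    have le : sSup (D '' S) ≤ D s := by
      refine le_of_tendsto_of_tendsto' hu (by simpa using T.const_add (D s)) fun n => ?_
      rw [← e]
      exact h.tri _ hx _ hp _ (ht n).2
    obtain ⟨η, a, e0⟩ := ((h.ev hp (t_sm _ z)).and self_mem_nhdsWithin).exists
    have e0' : 0 < η := e0
    rw [add_assoc, ← add_smul] at a
    have s0' : 0 ≤ s := s0
    have le2 : D (s + η) ≤ sSup (D '' S) := le_csSup bd ⟨_, ⟨by linarith, a⟩, rfl⟩
    linarith [h.lt0 hx hz a s0' (lt_add_of_pos_right s e0')]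
  obtain ⟨s, hs, e⟩ := intermediate_value_Icc t0 (h.arc_cont hx hx m)
    (show r ∈ _ from ⟨by simp [h.refl x hx, r0.le], e.le⟩)
  refine ⟨s, lt_of_le_of_ne hs.1 ?_, h.mem0 hx m hs.1 hs.2, e⟩
  rintro rfl
  simp [h.refl x hx] at e
  linarith

noncomputable def pr (T : (V × ℝ) ≃ₗ[ℝ] EE) (x : V) : V :=
  (T (x, 1) 0 / T (x, 1) 2, T (x, 1) 1 / T (x, 1) 2)

def Cls (M : Set V) (d : V → V → ℝ) : Prop :=
  ∃ (T : (V × ℝ) ≃ₗ[ℝ] EE) (k : ℝ), 0 < k ∧
    (((∀ x ∈ M, T (x, 1) 2 ≠ 0) ∧ (∀ x ∈ M, ∀ y ∈ M, k * d x y =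
        √(((pr T x).1 - (pr T y).1) ^ 2 + ((pr T x).2 - (pr T y).2) ^ 2)) ∧
      (Cpl M d → pr T '' M = univ)) ∨
    ((∀ x ∈ M, T (x, 1) 2 ≠ 0 ∧ (pr T x).1 ^ 2 + (pr T x).2 ^ 2 < 1) ∧
      (∀ x ∈ M, ∀ y ∈ M, Real.cosh (k * d x y) =
        (1 - ((pr T x).1 * (pr T y).1 + (pr T x).2 * (pr T y).2)) /
          √((1 - ((pr T x).1 ^ 2 + (pr T x).2 ^ 2)) * (1 - ((pr T y).1 ^ 2 + (pr T y).2 ^ 2)))) ∧
      (Cpl M d → pr T '' M = {z | z.1 ^ 2 + z.2 ^ 2 < 1})) ∨
    ((∀ x ∈ M, ∀ y ∈ M, k * d x y = InnerProductGeometry.angle (T (x, 1)) (T (y, 1))) ∧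
      ¬ Cpl M d))

theorem inner3 (a b c a' b' c' : ℝ) :
    inner ℝ (!₂[a, b, c] : EE) !₂[a', b', c'] = a * a' + b * b' + c * c' := by
  simp [PiLp.inner_apply, Fin.sum_univ_three]; ring

theorem CF.main0 (h : CF M d) (h0 : (0:V) ∈ M) : Cls M d := by
  obtain ⟨α, β, γ, hq⟩ := h.quad h0
  obtain ⟨l, oa, oW⟩ := h.nf h0 α β γ
  have δ0 := h.dl_pos h0
  have pd : ∀ w, w ≠ 0 → 0 < bf (gm d 0) w w := fun w hw => by
    rw [← h.N_sq h0]; exact pow_pos (h.N_pos h0 hw) 2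
  set κ := kp (hm d 0) α β γ with hκ
  set δ := dl d 0
  set a := fun x => 1 + dot l x
  have Wp : ∀ x ∈ M, 0 < a x * a x + κ * bf (gm d 0) x x := by
    intro x hx
    obtain ⟨s, A, c1, c2, -, -, -, -, -, -, a7, -, -, -, -⟩ := h.segdata hq hx hx
    have := a7 0 ⟨le_rfl, zero_le_one⟩
    rw [oW] at this
    simp only [mul_zero, add_zero, ne_eq, OfNat.ofNat_ne_zero, not_false_eq_true, zero_pow] at this
    exact (pos_iff_pos_of_mul_pos this).1 δ0
  have ap : κ ≤ 0 → ∀ x ∈ M, 0 < a x := fun k0 x hx => by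
    obtain ⟨s, A, c1, c2, -, -, -, -, -, -, a7, a8, a9, -, -⟩ := h.segdata hq h0 hx
    have := lin_pos a7 a8 k0 (t := 1) ⟨zero_le_one, le_rfl⟩
    rw [mul_one, a9, oa] at this
    exact (pos_iff_pos_of_mul_pos this).1 δ0
  have e2 : ∀ p q : ℝ, √(δ * p * (δ * q)) = δ * √(p * q) := fun p q => by
    rw [show δ * p * (δ * q) = δ ^ 2 * (p * q) by ring, Real.sqrt_mul (sq_nonneg δ),
      Real.sqrt_sq δ0.le]
  have epr : ∀ {T : (V × ℝ) ≃ₗ[ℝ] EE} {S : V ≃ₗ[ℝ] V},
      (∀ x c, T (x, c) = !₂[(S x).1, (S x).2, c + dot l x]) → ∀ x,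
      T (x, 1) 2 = a x ∧ pr T x = (a x)⁻¹ • S x := fun hT x => by
    simp [pr, hT, a, div_eq_inv_mul, Prod.ext_iff]
  have sur : ∀ {T : (V × ℝ) ≃ₗ[ℝ] EE} {S : V ≃ₗ[ℝ] V}, κ ≤ 0 → Cpl M d →
      (∀ x c, T (x, c) = !₂[(S x).1, (S x).2, c + dot l x]) → ∀ z : V, ∀ r : ℝ, (z ≠ 0 → 0 < r) →
      (∀ x ∈ M, ∀ c : ℝ, 0 < c → z ≠ 0 → pr T x = c • z → d 0 x = r → c = 1) → z ∈ pr T '' M := by
    intro T S k0 cp hT z r r0 H
    by_cases hz : z = 0
    · exact ⟨0, h0, by simp [(epr hT 0).2, hz]⟩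
    obtain ⟨t, t0, m, e⟩ := h.ray cp h0 (z := S.symm z) (by simpa using hz) (r0 hz)
    rw [zero_add] at m e
    have e1 : pr T (t • S.symm z) = ((a (t • S.symm z))⁻¹ * t) • z := by
      rw [(epr hT _).2, map_smul, LinearEquiv.apply_symm_apply, smul_smul]
    refine ⟨_, m, ?_⟩
    have := H _ m _ (mul_pos (inv_pos.2 (ap k0 _ m)) t0) hz e1 e
    rw [e1, this, one_smul]
  rcases lt_trichotomy κ 0 with e | e | e
  · have sk : 0 < √(-κ) := Real.sqrt_pos.2 (by linarith)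
    obtain ⟨T, S, hS, hT⟩ := mkT pd l sk
    rw [Real.sq_sqrt (by linarith)] at hS
    have ip : ∀ x ∈ M, ∀ y ∈ M, 1 - ((pr T x).1 * (pr T y).1 + (pr T x).2 * (pr T y).2) =
        (a x * a y + κ * bf (gm d 0) x y) / (a x * a y) := fun x hx y hy => by
      have := ap e.le x hx
      have := ap e.le y hy
      have := hS x y
      simp only [(epr hT _).2, Prod.smul_fst, Prod.smul_snd, smul_eq_mul, dot] at this ⊢
      field_simp
      linarith
    have n1 : ∀ x ∈ M, (pr T x).1 ^ 2 + (pr T x).2 ^ 2 < 1 := fun x hx => by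
      have := div_pos (Wp x hx) (mul_pos (ap e.le x hx) (ap e.le x hx))
      rw [← ip x hx x hx] at this
      linarith
    have iso : ∀ x ∈ M, ∀ y ∈ M, Real.cosh (√(-κ) * d x y) =
        (1 - ((pr T x).1 * (pr T y).1 + (pr T x).2 * (pr T y).2)) /
          √((1 - ((pr T x).1 ^ 2 + (pr T x).2 ^ 2)) * (1 - ((pr T y).1 ^ 2 + (pr T y).2 ^ 2))) := by
      intro x hx y hy
      obtain ⟨s, A, c1, c2, a1, a2, a3, a4, a5, -, a7, a8, a9, a10, -⟩ := h.segdata hq hx hy
      have f := hyp a1 a2 a4 a5 a7 a8 e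
      have l1 := lin_pos a7 a8 e.le (t := 1) ⟨zero_le_one, le_rfl⟩
      have q0 := a7 0 ⟨le_rfl, zero_le_one⟩
      have q1 := a7 1 ⟨zero_le_one, le_rfl⟩
      simp only [mul_zero, add_zero, mul_one, one_pow, ne_eq, OfNat.ofNat_ne_zero,
        not_false_eq_true, zero_pow] at q0 q1 l1
      rw [← a3, f, ← Real.arcosh, Real.cosh_arcosh (by
        rw [one_le_div (Real.sqrt_pos.2 (mul_pos q0 q1)), Real.sqrt_le_left l1.le]
        nlinarith [mul_nonneg (neg_pos.2 e).le (sq_nonneg A)]), a9, a10, oW, oW, oW, e2,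
        mul_div_mul_left _ _ δ0.ne']
      have ax := ap e.le x hx
      have ay := ap e.le y hy
      simp only [sq, ip x hx y hy, ip x hx x hx, ip y hy y hy]
      rw [div_mul_div_comm, Real.sqrt_div' _ (by positivity),
        show a x * a x * (a y * a y) = (a x * a y) ^ 2 by ring, Real.sqrt_sq (by positivity),
        div_div_div_cancel_right₀ (by positivity)]
    refine ⟨T, _, sk, Or.inr (Or.inl ⟨fun x hx => ⟨by rw [(epr hT x).1]; exact (ap e.le x hx).ne',
      n1 x hx⟩, iso, fun cp => ?_⟩)⟩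
    refine Subset.antisymm (by rintro _ ⟨x, hx, rfl⟩; exact n1 x hx) fun z hz => ?_
    have hz : 0 < 1 - (z.1 ^ 2 + z.2 ^ 2) := sub_pos.2 hz
    have z1 : z ≠ 0 → 1 < 1 / √(1 - (z.1 ^ 2 + z.2 ^ 2)) := fun z0 => by
      rw [one_lt_div (Real.sqrt_pos.2 hz), Real.sqrt_lt' one_pos]; linarith [sq_pos' z0]
    refine sur e.le cp hT z (Real.arcosh (1 / √(1 - (z.1 ^ 2 + z.2 ^ 2))) / √(-κ))
      (fun z0 => div_pos (Real.arcosh_pos (z1 z0)) sk) fun x hx c c0 z0 e1 e3 => ?_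
    have := iso 0 h0 x hx
    have n := n1 x hx
    rw [e3, mul_div_cancel₀ _ sk.ne', Real.cosh_arcosh (z1 z0).le, (epr hT 0).2, e1] at this
    rw [e1] at n
    simp only [map_zero, smul_zero, Prod.fst_zero, Prod.snd_zero, zero_mul, add_zero, sub_zero,
      ne_eq, OfNat.ofNat_ne_zero, not_false_eq_true, zero_pow, one_mul, Prod.smul_fst,
      Prod.smul_snd, smul_eq_mul, one_div, inv_inj] at this n
    have := (Real.sqrt_inj hz.le (by linarith)).1 this
    have : c ^ 2 = 1 ^ 2 := mul_right_cancel₀ (sq_pos' z0).ne' (by linarith)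
    exact (pow_left_inj₀ c0.le zero_le_one two_ne_zero).1 this
  · obtain ⟨T, S, hS, hT⟩ := mkT pd l one_pos
    have hS' : ∀ x y, dot (S x) (S y) = bf (gm d 0) x y := fun x y => by rw [hS]; ring
    have iso : ∀ x ∈ M, ∀ y ∈ M, 1 * d x y =
        √(((pr T x).1 - (pr T y).1) ^ 2 + ((pr T x).2 - (pr T y).2) ^ 2) := by
      intro x hx y hy
      obtain ⟨s, A, c1, c2, a1, a2, a3, a4, -, a6, a7, a8, a9, -, -⟩ := h.segdata hq hx hy
      have f := flat a1 a2 a4 a7 a8 e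
      rw [a3, a9, oW, e, zero_mul, add_zero] at f
      have id : dt (hm d 0) ^ 2 * bf (qf (hm d 0) α β γ x) (y - x) (y - x) =
          bf (hm d 0) (om (hm d 0) α β γ 0 x • y - om (hm d 0) α β γ 0 y • x)
            (om (hm d 0) α β γ 0 x • y - om (hm d 0) α β γ 0 y • x) +
            κ * dt (hm d 0) * (x.1 * y.2 - x.2 * y.1) ^ 2 := by
        simp only [bf, qf, om, hκ, kp, dt, Prod.smul_fst, Prod.smul_snd, smul_eq_mul,
          Prod.fst_sub, Prod.snd_sub, Prod.fst_zero, Prod.snd_zero]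
        ring
      rw [e, oa, oa, mul_smul, mul_smul, ← smul_sub, bf_smul, bf_hm, h.dt_hm h0, ← a6, ← f,
        ← hS'] at id
      have ax := ap e.le x hx
      have ay := ap e.le y hy
      rw [one_mul, eq_comm, Real.sqrt_eq_iff_mul_self_eq (by positivity) (h.nonneg hx hy)]
      refine mul_left_cancel₀ (show δ ^ 4 * (a x * a y) ^ 2 ≠ 0 by positivity) ?_
      change δ ^ 2 * (d x y * (δ * (a x * a y))) ^ 2 = δ ^ 2 * (δ ^ 2 *
        dot (S (a x • y - a y • x)) (S (a x • y - a y • x))) + _ at id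
      simp only [(epr hT _).2]
      generalize a x = p at ax id ⊢
      generalize a y = q at ay id ⊢
      simp only [map_sub, map_smul, dot, Prod.smul_fst, Prod.smul_snd, smul_eq_mul,
        Prod.fst_sub, Prod.snd_sub] at id ⊢
      rw [show δ ^ 4 * (p * q) ^ 2 * (d x y * d x y) = δ ^ 2 * (d x y * (δ * (p * q))) ^ 2 by ring,
        id]
      field_simp
      ring
    refine ⟨T, 1, one_pos, Or.inl ⟨fun x hx => by rw [(epr hT x).1]; exact (ap e.le x hx).ne',
      iso, fun cp => eq_univ_of_forall fun z => sur e.le cp hT z √(z.1 ^ 2 + z.2 ^ 2)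
        (fun z0 => Real.sqrt_pos.2 (sq_pos' z0)) fun x hx c c0 z0 e1 e3 => ?_⟩⟩
    have := iso 0 h0 x hx
    rw [e3, (epr hT 0).2, e1, one_mul] at this
    have := (Real.sqrt_inj (by positivity) (by positivity)).1 this
    simp only [map_zero, smul_zero, Prod.fst_zero, Prod.snd_zero, Prod.smul_fst,
      Prod.smul_snd] at this
    simp only [smul_eq_mul] at this
    have : c ^ 2 = 1 ^ 2 := mul_right_cancel₀ (sq_pos' z0).ne' (by linarith)
    exact (pow_left_inj₀ c0.le zero_le_one two_ne_zero).1 this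
  · have sk : 0 < √κ := Real.sqrt_pos.2 e
    obtain ⟨T, S, hS, hT⟩ := mkT pd l sk
    rw [Real.sq_sqrt e.le] at hS
    have ip : ∀ x y, inner ℝ (T (x, 1)) (T (y, 1)) = a x * a y + κ * bf (gm d 0) x y := fun x y => by
      rw [hT, hT, inner3, ← hS]; simp only [a, dot]; ring
    have iso : ∀ x ∈ M, ∀ y ∈ M, √κ * d x y = InnerProductGeometry.angle (T (x, 1)) (T (y, 1)) := by
      intro x hx y hy
      by_cases hxy : x = y
      · rw [hxy, h.refl y hy, InnerProductGeometry.angle_self (by simp), mul_zero]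
      obtain ⟨s, A, c1, c2, a1, a2, a3, a4, -, -, a7, a8, a9, a10, a11⟩ := h.segdata hq hx hy
      have hA := a11 hxy
      have q0 := a7 0 ⟨le_rfl, zero_le_one⟩
      simp only [mul_zero, add_zero, ne_eq, OfNat.ofNat_ne_zero, not_false_eq_true, zero_pow] at q0
      have dd := fun t ht => at_deriv e hA q0 a8 (a7 t ht)
      have := eq_of_has_deriv_right_eq a4 (fun t ht => (dd t ⟨ht.1, ht.2.le⟩).hasDerivWithinAt) a1
        (fun t ht => (dd t ht).continuousAt.continuousWithinAt) (by simp [a2]) 1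
        ⟨zero_le_one, le_rfl⟩
      rw [a3, mul_one, eq_div_iff sk.ne', mul_comm] at this
      have c := cos_at (mul_pos sk hA) q0 (c1 := c1) (c2 := c2) (by
        rw [mul_pow, Real.sq_sqrt e.le]; exact a8)
      rw [← this, a9, a10, oW, oW, oW, e2, mul_div_mul_left _ _ δ0.ne', ← ip, ← ip, ← ip,
        real_inner_self_eq_norm_sq, real_inner_self_eq_norm_sq, ← mul_pow,
        Real.sqrt_sq (by positivity)] at c
      rw [InnerProductGeometry.angle, ← c, Real.arccos_cos (mul_nonneg sk.le (h.nonneg hx hy))]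
      linarith [Real.arctan_lt_pi_div_two ((c1 + c2) / (√κ * A)),
        Real.neg_pi_div_two_lt_arctan (c1 / (√κ * A))]
    refine ⟨T, _, sk, Or.inr (Or.inr ⟨iso, fun cp => ?_⟩)⟩
    obtain ⟨t, -, m, e⟩ := h.ray cp h0 e10 (r := (Real.pi + 1) / √κ) (by positivity)
    have := iso _ h0 _ m
    rw [e, mul_div_cancel₀ _ sk.ne'] at this
    linarith [InnerProductGeometry.angle_le_pi (T (0, 1)) (T (0 + t • (1, 0), 1))]

theorem CF.main1 (h : CF M d) (ne : M.Nonempty) : Cls M d := by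
  obtain ⟨o, ho⟩ := ne
  obtain ⟨T, k, k0, H⟩ := (h.shift o).main0 (by simpa using ho)
  let τ : (V × ℝ) ≃ₗ[ℝ] (V × ℝ) :=
    { toFun := fun q => (q.1 - q.2 • o, q.2)
      invFun := fun q => (q.1 + q.2 • o, q.2)
      map_add' := fun p q => by simp only [Prod.fst_add, Prod.snd_add, Prod.mk_add_mk]; congr 1; module
      map_smul' := fun c q => by
        simp only [Prod.smul_fst, Prod.smul_snd, Prod.smul_mk, RingHom.id_apply, smul_eq_mul]
        congr 1; module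
      left_inv := fun q => by simp
      right_inv := fun q => by simp }
  have e1 : ∀ x, (τ.trans T) (x, 1) = T (x - o, 1) := fun x => by simp [τ]
  have e2 : ∀ x, pr (τ.trans T) x = pr T (x - o) := fun x => by simp only [pr, e1]
  have m : ∀ x ∈ M, x - o ∈ {x | o + x ∈ M} := fun x hx => by simpa using hx
  have cp : Cpl M d → Cpl {x | o + x ∈ M} fun a b => d (o + a) (o + b) := fun c u hu hc => by
    obtain ⟨x, hx, T⟩ := c (fun n => o + u n) hu hc
    exact ⟨x - o, m x hx, by simpa using T⟩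
  have im : pr (τ.trans T) '' M = pr T '' {x | o + x ∈ M} := by
    ext z
    exact ⟨fun ⟨x, hx, e⟩ => ⟨_, m x hx, e2 x ▸ e⟩, fun ⟨x, hx, e⟩ => ⟨_, hx, by simpa [e2] using e⟩⟩
  refine ⟨τ.trans T, k, k0, ?_⟩
  rw [im]
  simp only [e1, e2]
  rcases H with ⟨a, b, c⟩ | ⟨a, b, c⟩ | ⟨a, b⟩
  · exact Or.inl ⟨fun x hx => a _ (m x hx), fun x hx y hy => by
      simpa only [add_sub_cancel] using b _ (m x hx) _ (m y hy), fun e => c (cp e)⟩
  · exact Or.inr (Or.inl ⟨fun x hx => a _ (m x hx), fun x hx y hy => by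
      simpa only [add_sub_cancel] using b _ (m x hx) _ (m y hy), fun e => c (cp e)⟩)
  · exact Or.inr (Or.inr ⟨fun x hx y hy => by
      simpa only [add_sub_cancel] using a _ (m x hx) _ (m y hy), fun e => b (cp e)⟩)

end Pool.Agent.H.MP_deb346_gt
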