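import Pool.Agent.H.MP_deb346_gt.G

set_option autoImplicit false

namespace Pool.Agent.H.MP_deb346_gt

open Set Filter Topology Pool.Agent.H.MP_594704_gt

abbrev E3 := Fin 3 → ℝ

abbrev PP := Projectivization ℝ E3

theorem con_coef (B : (V × ℝ) →ₗ[ℝ] (V × ℝ) →ₗ[ℝ] ℝ) (h : ∃ X, B X X ≠ 0) :
    ∃ (c : ℝ) (l : V) (q : ℝ × ℝ × ℝ), ¬ (c = 0 ∧ l = 0 ∧ q = 0) ∧
      ∀ y, B (y, 1) (y, 1) = c + dot l y + bf q y y := by
  set a : V × ℝ := ((1, 0), 0)
  set b : V × ℝ := ((0, 1), 0)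
  set e : V × ℝ := (0, 1)
  have k : ∀ (y : V) (t : ℝ), B (y, t) (y, t) = t ^ 2 * B e e +
      t * dot (B a e + B e a, B b e + B e b) y + bf (B a a, (B a b + B b a) / 2, B b b) y y := by
    intro y t
    rw [show (y, t) = y.1 • a + y.2 • b + t • e by ext <;> simp [a, b, e]]
    simp only [map_add, map_smul, LinearMap.add_apply, LinearMap.smul_apply, smul_eq_mul, dot, bf]
    ring
  refine ⟨B e e, (B a e + B e a, B b e + B e b), (B a a, (B a b + B b a) / 2, B b b),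
    fun ⟨h1, h2, h3⟩ => ?_, fun y => by rw [k]; ring⟩
  obtain ⟨X, hX⟩ := h
  exact hX (by rw [show X = (X.1, X.2) from rfl, k, h1, h2, h3]; simp [dot, bf])

variable {L : ℝ}

theorem rep (a : AddCircle L) : ∃ t : ℝ, (t : AddCircle L) = a ∧ |t| = ‖a‖ := by
  obtain ⟨x, rfl⟩ := QuotientAddGroup.mk_surjective a
  refine ⟨x - round (L⁻¹ * x) * L, ?_, (AddCircle.norm_eq L).symm⟩
  rw [AddCircle.coe_sub, ← zsmul_eq_mul, AddCircle.coe_zsmul, AddCircle.coe_period, smul_zero,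
    sub_zero]

theorem dist_ac (hL : 0 < L) (p : AddCircle L) {s t : ℝ} (h : |s - t| ≤ L / 2) :
    dist (p + s) (p + t) = |s - t| := by
  rw [dist_eq_norm, add_sub_add_left_eq_sub, ← AddCircle.coe_sub,
    AddCircle.norm_coe_eq_abs_iff L hL.ne', abs_of_pos hL]
  exact h

theorem ac_ne (hL : 0 < L) {u : ℝ} (h : (u : AddCircle L) = 0) (h1 : |u| < L) : u = 0 := by
  obtain ⟨n, rfl⟩ := (AddCircle.coe_eq_zero_iff L).1 h
  rw [zsmul_eq_mul, abs_mul, abs_of_pos hL, mul_lt_iff_lt_one_left hL, ← Int.cast_abs] at h1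
  have : |n| < 1 := by exact_mod_cast h1
  simp [Int.abs_lt_one_iff.1 this]

theorem reps (hL : 0 < L) (φ : ℝ → AddCircle L) (s0 : ℝ) : ∃ ψ : ℝ → ℝ, ψ s0 = 0 ∧
    (∀ s, φ s = φ s0 + ψ s) ∧ ∀ s t, dist (φ s) (φ s0) < L / 4 → dist (φ t) (φ s0) < L / 4 →
      dist (φ s) (φ t) = |ψ s - ψ t| := by
  choose ψ e1 e2 using fun s => rep (φ s - φ s0)
  have e3 : ∀ s, φ s = φ s0 + ψ s := fun s => by rw [e1]; abel
  refine ⟨ψ, abs_eq_zero.1 (by rw [e2]; simp), e3, fun s t a b => ?_⟩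
  rw [dist_eq_norm, ← e2] at a b
  rw [e3 s, e3 t, dist_ac hL]
  linarith [abs_sub (ψ s) (ψ t)]

theorem add_ac (hL : 0 < L) {φ : ℝ → AddCircle L} (c : Continuous φ) (i : Function.Injective φ)
    (sm : ∀ s ∈ Icc (0:ℝ) 1, dist (φ s) (φ 0) < L / 4) {t : ℝ} (ht : t ∈ Icc (0:ℝ) 1) :
    dist (φ 0) (φ t) + dist (φ t) (φ 1) = dist (φ 0) (φ 1) := by
  obtain ⟨ψ, -, e1, e2⟩ := reps hL φ 0
  have z : (0:ℝ) ∈ Icc (0:ℝ) 1 := by simp
  have o : (1:ℝ) ∈ Icc (0:ℝ) 1 := by simp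
  have cψ : ContinuousOn ψ (Icc 0 1) := fun t ht => by
    have c := c.continuousWithinAt (s := Icc 0 1) (x := t)
    rw [ContinuousWithinAt, tendsto_iff_dist_tendsto_zero] at c ⊢
    refine c.congr' ?_
    filter_upwards [self_mem_nhdsWithin] with s hs using e2 s t (sm s hs) (sm t ht)
  rw [e2 _ _ (sm 0 z) (sm t ht), e2 _ _ (sm t ht) (sm 1 o), e2 _ _ (sm 0 z) (sm 1 o)]
  rcases cψ.strictMonoOn_of_injOn_Icc' zero_le_one (fun s _ t _ e => i (by rw [e1 s, e1 t, e]))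
    with mo | mo
  · have := mo.monotoneOn z ht ht.1
    have := mo.monotoneOn ht o ht.2
    rw [abs_of_nonpos, abs_of_nonpos, abs_of_nonpos] <;> linarith
  · have := mo.antitoneOn z ht ht.1
    have := mo.antitoneOn ht o ht.2
    rw [abs_of_nonneg, abs_of_nonneg, abs_of_nonneg] <;> linarith

theorem lift2 (hL : 0 < L) {φ : ℝ → AddCircle L} {θ : ℝ → ℝ} (c : Continuous θ) (mo : StrictMono θ)
    (H : ∀ s0, ∀ᶠ p : ℝ × ℝ in 𝓝 s0 ×ˢ 𝓝 s0, dist (φ p.1) (φ p.2) = |θ p.1 - θ p.2|) :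
    ∃ σ : ℝ, |σ| = 1 ∧ ∀ s t, φ s - φ t = (σ * (θ s - θ t) : ℝ) := by
  have sm : ∀ s0, ∀ᶠ s in 𝓝 s0, |θ s - θ s0| < L / 4 := fun s0 =>
    ContinuousAt.eventually_lt (f := fun s => |θ s - θ s0|) (g := fun _ => L / 4) (by fun_prop)
      continuousAt_const (by simpa using hL)
  set E := fun σ : ℝ => {s0 | ∀ᶠ s in 𝓝 s0, φ s - φ s0 = (σ * (θ s - θ s0) : ℝ)}
  have op : ∀ σ, IsOpen (E σ) := fun σ => isOpen_iff_mem_nhds.2 fun s0 h0 => by
    filter_upwards [h0, h0.eventually_nhds] with s a b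
    filter_upwards [b] with t e
    rw [show φ t - φ s = (φ t - φ s0) - (φ s - φ s0) by abel, a, e, ← AddCircle.coe_sub]
    congr 1; ring
  have cov : ∀ s0, s0 ∈ E 1 ∪ E (-1) := fun s0 => by
    obtain ⟨pa, ha, pb, hb, k⟩ := eventually_prod_iff.1 (H s0)
    obtain ⟨ψ, z, e1, e2⟩ := reps hL φ s0
    have ev := (ha.and hb).and (sm s0)
    obtain ⟨t, ⟨⟨a1, a2⟩, a3⟩, t0⟩ := ((ev.filter_mono nhdsWithin_le_nhds).and
      (self_mem_nhdsWithin (s := Ioi s0))).exists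
    have tp : 0 < θ t - θ s0 := sub_pos.2 (mo t0)
    have d0 : ∀ s, pa s → |θ s - θ s0| < L / 4 → dist (φ s) (φ s0) < L / 4 ∧
        |ψ s| = |θ s - θ s0| := fun s a b => by
      have := k a hb.self_of_nhds
      simp only at this
      refine ⟨this ▸ b, ?_⟩
      rw [← this, e2 s s0 (this ▸ b) (by simpa using hL), z, sub_zero]
    have key : ∀ᶠ s in 𝓝 s0, ψ s * ψ t = (θ s - θ s0) * (θ t - θ s0) := by
      filter_upwards [ev] with s ⟨⟨b1, _⟩, b3⟩
      have q := k b1 a2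
      simp only at q
      rw [e2 s t (d0 s b1 b3).1 (d0 t a1 a3).1] at q
      have q1 := sq_eq_sq_iff_abs_eq_abs _ _ |>.2 q
      have q2 := sq_eq_sq_iff_abs_eq_abs _ _ |>.2 (d0 s b1 b3).2
      have q3 := sq_eq_sq_iff_abs_eq_abs _ _ |>.2 (d0 t a1 a3).2
      linarith
    rcases abs_eq_abs.1 (d0 t a1 a3).2 with q | q
    · left
      filter_upwards [key] with s e
      rw [q] at e
      rw [e1 s, add_sub_cancel_left, mul_right_cancel₀ tp.ne' e, one_mul]
    · right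
      filter_upwards [key] with s e
      rw [q] at e
      rw [e1 s, add_sub_cancel_left, show ψ s = -1 * (θ s - θ s0) from
        mul_right_cancel₀ tp.ne' (by linarith)]
  have dj : Disjoint (E 1) (E (-1)) := Set.disjoint_left.2 fun s0 a b => by
    obtain ⟨t, ⟨⟨a1, a2⟩, a3⟩, t0⟩ := ((((a.and b).and (sm s0)).filter_mono nhdsWithin_le_nhds).and
      (self_mem_nhdsWithin (s := Ioi s0))).exists
    have tp : 0 < θ t - θ s0 := sub_pos.2 (mo t0)
    rw [abs_of_pos tp] at a3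
    have := ac_ne hL (u := 1 * (θ t - θ s0) - -1 * (θ t - θ s0))
      (by rw [AddCircle.coe_sub, ← a1, ← a2, sub_self]) (by rw [abs_of_pos] <;> linarith)
    linarith
  have fin : ∀ σ : ℝ, univ ⊆ E σ → ∀ s t, φ s - φ t = (σ * (θ s - θ t) : ℝ) := fun σ h s t => by
    have := ((IsLocallyConstant.iff_eventually_eq (fun s => φ s - (σ * θ s : ℝ))).2 fun s0 => by
      filter_upwards [h (mem_univ s0)] with s e
      rw [sub_eq_sub_iff_sub_eq_sub, e, ← AddCircle.coe_sub, mul_sub]).apply_eq_of_preconnectedSpace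
      s t
    rw [sub_eq_sub_iff_sub_eq_sub] at this
    rw [this, ← AddCircle.coe_sub, mul_sub]
  rcases isPreconnected_univ.subset_or_subset (op 1) (op (-1)) dj (fun s _ => cov s) with h | h
  · exact ⟨1, by simp, fin 1 h⟩
  · exact ⟨-1, by simp, fin _ h⟩

structure El (d : PP → PP → ℝ) (L a0 : ℝ) : Prop where
  sy : ∀ p q, d p q = d q p
  z0 : ∀ p q, d p q = 0 ↔ p = q
  tr : ∀ p q r, d p r ≤ d p q + d q r
  ct : Continuous fun p : {X : E3 // X ≠ 0} × {X : E3 // X ≠ 0} =>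
    d (Projectivization.mk ℝ p.1.1 p.1.2) (Projectivization.mk ℝ p.2.1 p.2.2)
  L0 : 0 < L
  ln : ∀ W : Submodule ℝ E3, Module.finrank ℝ W = 2 → ∃ f : AddCircle L → PP,
    (∀ a b, d (f a) (f b) = dist a b) ∧ range f = {p | p.submodule ≤ W}
  ap : 0 < a0
  con : ∀ p q, p ≠ q → ∀ a < a0, d p q < 2 * a → ∃ B : E3 →ₗ[ℝ] E3 →ₗ[ℝ] ℝ, (∃ X, B X X ≠ 0) ∧
    ∀ r : PP, d p r + d r q = 2 * a → ∀ X ∈ r.submodule, B X X = 0

variable {d : PP → PP → ℝ} {a0 : ℝ} (A : (V × ℝ) ≃L[ℝ] E3)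

theorem cv_ne (x : V) : A (x, 1) ≠ 0 := by simp

theorem li (x : V) {v : V} (hv : v ≠ 0) : LinearIndependent ℝ ![A (x, 1), A (v, 0)] :=
  (LinearIndependent.pair_iff' (cv_ne A x)).2 fun a e => by
    rw [← map_smul] at e
    have := A.injective e
    simp only [Prod.smul_mk, smul_eq_mul, mul_one, Prod.mk.injEq] at this
    exact hv (by rw [← this.1, this.2, zero_smul])

noncomputable def cc (x : V) : PP := Projectivization.mk ℝ (A (x, 1)) (cv_ne A x)

theorem cv_add (x v : V) (s : ℝ) : A (x + s • v, 1) = A (x, 1) + s • A (v, 0) := by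
  rw [← map_smul, ← map_add]; simp

theorem eq_mk {p : PP} {X : E3} (hX : X ≠ 0) (h : X ∈ p.submodule) :
    p = Projectivization.mk ℝ X hX := by
  rw [p.submodule_eq, Submodule.mem_span_singleton] at h
  rw [← p.mk_rep, eq_comm, Projectivization.mk_eq_mk_iff']
  exact h

theorem mem_mk {X : E3} (hX : X ≠ 0) : X ∈ (Projectivization.mk ℝ X hX).submodule :=
  Submodule.mem_span_singleton_self X

theorem cc_inj {x y : V} (e : cc A x = cc A y) : x = y := by
  obtain ⟨a, ha⟩ := (Projectivization.mk_eq_mk_iff' ℝ _ _ _ _).1 e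
  rw [← map_smul] at ha
  have := A.injective ha
  simp only [Prod.smul_mk, smul_eq_mul, mul_one, Prod.mk.injEq] at this
  rw [← this.1, this.2, one_smul]

noncomputable def dc (d : PP → PP → ℝ) (x y : V) : ℝ := d (cc A x) (cc A y)

theorem El.cdc (h : El d L a0) : Continuous fun p : V × V => dc A d p.1 p.2 :=
  h.ct.comp (f := fun p : V × V => ((⟨A (p.1, 1), cv_ne A _⟩, ⟨A (p.2, 1), cv_ne A _⟩) :
    {X : E3 // X ≠ 0} × {X : E3 // X ≠ 0})) (by fun_prop)

theorem El.line (h : El d L a0) (x : V) {v : V} (hv : v ≠ 0) : ∃ φ : ℝ → AddCircle L,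
    (∀ s t, dist (φ s) (φ t) = dc A d (x + s • v) (x + t • v)) ∧ Continuous φ ∧
    Function.Injective φ ∧ ∀ a b, a ∉ range φ → b ∉ range φ → a = b := by
  have rk := finrank_span_eq_card (li A x hv)
  rw [show range ![A (x, 1), A (v, 0)] = {A (x, 1), A (v, 0)} by simp [pair_comm],
    Fintype.card_fin] at rk
  obtain ⟨f, h1, h2⟩ := h.ln _ rk
  have : ∀ s : ℝ, ∃ a, f a = cc A (x + s • v) := fun s => show _ ∈ range f by
    rw [h2]
    exact (Submodule.span_singleton_le_iff_mem _ _).2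
      (Submodule.mem_span_pair.2 ⟨1, s, by simp [cv_add]⟩)
  choose φ hφ using this
  have e : ∀ s t, dist (φ s) (φ t) = dc A d (x + s • v) (x + t • v) := fun s t => by
    rw [← h1, hφ, hφ, dc]
  have fi : Function.Injective f := fun a b e => dist_eq_zero.1 (by rw [← h1, h.z0, e])
  have vn : A (v, 0) ≠ 0 := by simp [hv]
  have k : ∀ a, a ∉ range φ → f a = Projectivization.mk ℝ _ vn := fun a ha => by
    have m := mem_range_self (f := f) a
    rw [h2] at m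
    have r : (f a).rep ∈ (f a).submodule := by
      rw [(f a).submodule_eq]; exact Submodule.mem_span_singleton_self _
    obtain ⟨α, β, e⟩ := Submodule.mem_span_pair.1 (m r)
    by_cases a0 : α = 0
    · rw [a0, zero_smul, zero_add] at e
      have b0 : β ≠ 0 := fun z => (f a).rep_nonzero (by rw [← e, z, zero_smul])
      refine eq_mk vn ?_
      simpa [← e, smul_smul, b0] using Submodule.smul_mem _ β⁻¹ r
    refine absurd ⟨β / α, fi ?_⟩ ha
    rw [hφ]
    refine (eq_mk _ ?_).symm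
    have := Submodule.smul_mem _ α⁻¹ r
    rwa [← e, smul_add, smul_smul, smul_smul, inv_mul_cancel₀ a0, one_smul, ← div_eq_inv_mul,
      ← cv_add] at this
  refine ⟨φ, e, continuous_iff_continuousAt.2 fun t => tendsto_iff_dist_tendsto_zero.2 ?_,
    fun s t a => smul_left_injective ℝ hv (add_left_cancel (cc_inj A (by rw [← hφ, ← hφ, a]))),
    fun a b ha hb => fi (by rw [k a ha, k b hb])⟩
  simp only [e]
  exact Continuous.tendsto' ((h.cdc A).comp (f := fun s : ℝ => (x + s • v, x + t • v))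
    (by fun_prop)) _ _ ((h.z0 _ _).2 rfl)

theorem El.loc (h : El d L a0) (x0 : V) : ∃ ρ > 0, CF (Metric.ball x0 ρ) (dc A d) := by
  have : ∀ᶠ p in 𝓝 (x0, x0), dc A d p.1 p.2 < L / 4 :=
    (h.cdc A).continuousAt.eventually (gt_mem_nhds (by
      show d _ _ < _
      rw [(h.z0 _ _).2 rfl]; linarith [h.L0]))
  obtain ⟨ρ, r0, hρ⟩ := Metric.eventually_nhds_iff.1 this
  refine ⟨ρ, r0, QC.cf (a0 := a0) ⟨⟨Metric.isOpen_ball, convex_ball _ _, fun _ _ => (h.z0 _ _).2 rfl,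
    fun _ _ _ _ => h.sy _ _, fun _ _ _ _ e => cc_inj A ((h.z0 _ _).1 e),
    fun _ _ _ _ _ _ => h.tr _ _ _, (h.cdc A).continuousOn, fun x hx z hz y hy => ?_⟩, h.ap,
    fun x _ x' _ n a ha hd => ?_⟩⟩
  · rw [segment_eq_image'] at hy
    obtain ⟨t, ht, rfl⟩ := hy
    by_cases hv : z - x = 0
    · simp [sub_eq_zero.1 hv, dc, (h.z0 _ _).2 rfl]
    obtain ⟨φ, e, c, i, -⟩ := h.line A x hv
    have := add_ac h.L0 c i (fun s hs => by
      rw [e]
      exact hρ (y := (_, _)) (max_lt ((convex_ball _ _).add_smul_sub_mem hx hz hs)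
        (by simpa using hx))) ht
    simpa [e] using this
  obtain ⟨B, ⟨X, hX⟩, hB⟩ := h.con _ _ (fun e => n (cc_inj A e)) a ha hd
  obtain ⟨c, l, q, b1, b2⟩ := con_coef (B.compl₁₂ A.toLinearMap A.toLinearMap)
    ⟨A.symm X, by simpa using hX⟩
  exact ⟨c, l, q, b1, fun y _ e => by rw [← b2]; exact hB _ e _ (mem_mk _)⟩

theorem El.gl (h : El d L a0) :
    ∃ α β γ : ℝ, ∀ x, hm (dc A d) x = qf (hm (dc A d) 0) α β γ x := by
  obtain ⟨ρ, r0, c⟩ := h.loc A 0
  obtain ⟨α, β, γ, hq⟩ := c.quad (Metric.mem_ball_self r0)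
  generalize hm (dc A d) 0 = H at hq ⊢
  have an : ∀ H α β γ, AnalyticOnNhd ℝ (qf H α β γ) univ := fun H α β γ x _ => by
    have a1 : ∀ x : V, AnalyticAt ℝ Prod.fst x := fun _ => analyticAt_fst
    have a2 : ∀ x : V, AnalyticAt ℝ Prod.snd x := fun _ => analyticAt_snd
    unfold qf; fun_prop
  have cl : IsClopen {x | ∀ᶠ y in 𝓝 x, hm (dc A d) y = qf H α β γ y} := by
    refine ⟨closure_subset_iff_isClosed.1 fun x hx => ?_, isOpen_setOf_eventually_nhds⟩
    obtain ⟨ρ, r0, c⟩ := h.loc A x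
    obtain ⟨H', α', β', γ', hq'⟩ := c.quad' (Metric.mem_ball_self r0)
    obtain ⟨y, a, b⟩ := mem_closure_iff.1 hx _ Metric.isOpen_ball (Metric.mem_ball_self r0)
    have := (an H α β γ).eq_of_eventuallyEq (an H' α' β' γ') (z₀ := y) (by
      filter_upwards [b, Metric.isOpen_ball.mem_nhds a] with z e m
      rw [← e, hq' z m])
    rw [this]
    filter_upwards [Metric.ball_mem_nhds x r0] with z m using hq' z m
  have := cl.eq_univ ⟨0, by filter_upwards [Metric.ball_mem_nhds 0 r0] with z m using hq z m⟩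
  exact ⟨α, β, γ, fun x => Eventually.self_of_nhds (p := fun y => hm (dc A d) y = qf H α β γ y)
    (show x ∈ {x | ∀ᶠ y in 𝓝 x, hm (dc A d) y = qf H α β γ y} from this ▸ mem_univ x)⟩

end Pool.Agent.H.MP_deb346_gt
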